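import Pool.Agent.R963.CA.Stm

open scoped ContDiff Topology
open Set Filter MeasureTheory

/-! CA-11b (helper45). -/

namespace Pool.Agent.R963.CA

namespace B1x

theorem slope_eq {e a b : ℝ} (ha : 1 ≤ a) (hab : a < b) :
    ∃ c ∈ Ioo a b, (1 - e) * c ^ (-e) = (b ^ (1 - e) - a ^ (1 - e)) / (b - a) := by
  have h := exists_hasDerivAt_eq_slope (fun x : ℝ => x ^ (1 - e))
    (fun x : ℝ => (1 - e) * x ^ (1 - e - 1)) hab
    (by
      intro x hx
      have hx0 : x ≠ 0 := by linarith [hx.1]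
      exact (Real.hasDerivAt_rpow_const (Or.inl hx0)).continuousAt.continuousWithinAt)
    (by
      intro x hx
      have hx0 : x ≠ 0 := by linarith [hx.1]
      exact Real.hasDerivAt_rpow_const (Or.inl hx0))
  obtain ⟨c, hc, h⟩ := h
  refine ⟨c, hc, ?_⟩
  rw [← h]
  congr 2
  ring

theorem Rr_bounds {e ρ y : ℝ} (he : 1 < e) (hρ : 1 < ρ) (h1 : 1 < y) (h2 : y < ρ) :
    1 < Rr e ρ y ∧ Rr e ρ y ≤ 1 + (e - 1) / (1 - ρ ^ (-e)) := by
  obtain ⟨c1, hc1, e1⟩ := slope_eq (e := e) le_rfl h1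
  obtain ⟨c2, hc2, e2⟩ := slope_eq (e := e) h1.le h2
  rw [Real.one_rpow] at e1
  have hlt : ρ ^ (-e) < 1 := Real.rpow_lt_one_of_one_lt_of_neg hρ (by linarith)
  have hd : 0 < 1 - ρ ^ (-e) := by linarith
  have hc12 : c1 < c2 := hc1.2.trans hc2.1
  have hc10 : 0 < c1 := by linarith [hc1.1]
  have h3 : c2 ^ (-e) < c1 ^ (-e) := Real.rpow_lt_rpow_of_neg hc10 hc12 (by linarith)
  have h4 : c1 ^ (-e) ≤ 1 := (Real.rpow_lt_one_of_one_lt_of_neg hc1.1 (by linarith)).le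
  have h5 : 0 ≤ c2 ^ (-e) := Real.rpow_nonneg (by linarith) _
  unfold Rr
  rw [← e1, ← e2]
  have h6 : 0 < (1 - e) * c2 ^ (-e) - (1 - e) * c1 ^ (-e) := by nlinarith
  have h7 : (1 - e) * c2 ^ (-e) - (1 - e) * c1 ^ (-e) ≤ e - 1 := by nlinarith
  constructor
  · have := div_pos h6 hd
    linarith
  · have := div_le_div_of_nonneg_right h7 hd.le
    linarith

theorem yy_mem {ρ ψ : ℝ} (hρ : 1 < ρ) (h : ψ ∈ Ioo (0 : ℝ) Real.pi) :
    1 < yy ρ ψ ∧ yy ρ ψ < ρ := by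
  have h1 : Real.cos ψ < 1 := by
    have := Real.cos_lt_cos_of_nonneg_of_le_pi le_rfl h.2.le h.1
    rwa [Real.cos_zero] at this
  have h2 : -1 < Real.cos ψ := by
    have := Real.cos_lt_cos_of_nonneg_of_le_pi h.1.le le_rfl h.2
    rwa [Real.cos_pi] at this
  unfold yy
  constructor <;> nlinarith

theorem meas (e ρ : ℝ) : Measurable (fun ψ => Rr e ρ (yy ρ ψ)) := by
  unfold Rr yy
  fun_prop

theorem tangent {X m : ℝ} (hX : 0 < X) (hm : 0 < m) :
    1 / √m - (X - m) / (2 * m * √m) ≤ 1 / √X := by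
  obtain ⟨x, hx, rfl⟩ : ∃ x : ℝ, 0 < x ∧ X = x ^ 2 :=
    ⟨√X, Real.sqrt_pos.mpr hX, (Real.sq_sqrt hX.le).symm⟩
  obtain ⟨μ, hμ, rfl⟩ : ∃ μ : ℝ, 0 < μ ∧ m = μ ^ 2 :=
    ⟨√m, Real.sqrt_pos.mpr hm, (Real.sq_sqrt hm.le).symm⟩
  rw [Real.sqrt_sq hx.le, Real.sqrt_sq hμ.le, ← sub_nonneg]
  have : 1 / x - (1 / μ - (x ^ 2 - μ ^ 2) / (2 * μ ^ 2 * μ)) =
      (x - μ) ^ 2 * (x + 2 * μ) / (2 * μ ^ 3 * x) := by
    field_simp
    ring
  rw [this]
  positivity

end B1x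

set_option maxHeartbeats 400000 in
theorem t_b1 (h : S_semi) : S_b1 := by
  intro s ρ hs hρ
  set e : ℝ := (s - 2) / 2 with he
  have he1 : 1 < e := by rw [he]; linarith
  set m : ℝ := s / 4 with hm
  have hm0 : 0 < m := by rw [hm]; linarith
  have hsemi := h e ρ he1 hρ
  have hπ := Real.pi_pos
  set X : ℝ → ℝ := fun ψ => Rr e ρ (yy ρ ψ) with hX
  have hXm : Measurable X := B1x.meas e ρ
  have hXb : ∀ ψ ∈ Ioo (0 : ℝ) Real.pi, 1 < X ψ ∧ X ψ ≤ 1 + (e - 1) / (1 - ρ ^ (-e)) := by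
    intro ψ hψ
    obtain ⟨h1, h2⟩ := B1x.yy_mem hρ hψ
    exact B1x.Rr_bounds he1 hρ h1 h2
  have hfin : (volume (Ioo (0 : ℝ) Real.pi)) ≠ ⊤ := by
    rw [Real.volume_Ioo]; exact ENNReal.ofReal_ne_top
  have hXi : IntervalIntegrable X volume 0 Real.pi := by
    rw [intervalIntegrable_iff_integrableOn_Ioo_of_le hπ.le]
    refine Measure.integrableOn_of_bounded (M := 1 + (e - 1) / (1 - ρ ^ (-e))) hfin
      hXm.aestronglyMeasurable ?_
    refine (ae_restrict_iff' measurableSet_Ioo).mpr (Eventually.of_forall fun ψ hψ => ?_)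
    rw [Real.norm_eq_abs, abs_of_pos (by linarith [(hXb ψ hψ).1])]
    exact (hXb ψ hψ).2
  have hSi : IntervalIntegrable (fun ψ => 1 / √(X ψ)) volume 0 Real.pi := by
    rw [intervalIntegrable_iff_integrableOn_Ioo_of_le hπ.le]
    have hms : Measurable (fun ψ => 1 / √(X ψ)) := by fun_prop
    refine Measure.integrableOn_of_bounded (M := 1) hfin hms.aestronglyMeasurable ?_
    refine (ae_restrict_iff' measurableSet_Ioo).mpr (Eventually.of_forall fun ψ hψ => ?_)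
    have h1 := (hXb ψ hψ).1
    have h2 : 1 ≤ √(X ψ) := by
      rw [Real.one_le_sqrt]; exact h1.le
    rw [Real.norm_eq_abs, abs_of_nonneg (by positivity)]
    exact (div_le_one (by linarith)).mpr h2
  have hTi : IntervalIntegrable (fun ψ => 1 / √m - (X ψ - m) / (2 * m * √m)) volume 0
      Real.pi :=
    intervalIntegrable_const.sub ((hXi.sub intervalIntegrable_const).div_const _)
  have hmono : ∫ ψ in (0 : ℝ)..Real.pi, (1 / √m - (X ψ - m) / (2 * m * √m)) ≤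
      ∫ ψ in (0 : ℝ)..Real.pi, 1 / √(X ψ) := by
    refine intervalIntegral.integral_mono_on_of_le_Ioo hπ.le hTi hSi fun ψ hψ => ?_
    exact B1x.tangent (by linarith [(hXb ψ hψ).1]) hm0
  have hval : ∫ ψ in (0 : ℝ)..Real.pi, (1 / √m - (X ψ - m) / (2 * m * √m)) =
      Real.pi * (1 / √m) - ((∫ ψ in (0 : ℝ)..Real.pi, X ψ) - Real.pi * m) / (2 * m * √m) := by
    rw [intervalIntegral.integral_sub intervalIntegrable_const
      ((hXi.sub intervalIntegrable_const).div_const _), intervalIntegral.integral_const,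
      intervalIntegral.integral_div, intervalIntegral.integral_sub hXi intervalIntegrable_const,
      intervalIntegral.integral_const]
    simp
  have hsub : (∫ ψ in (0 : ℝ)..Real.pi, (X ψ - 1)) =
      (∫ ψ in (0 : ℝ)..Real.pi, X ψ) - Real.pi := by
    rw [intervalIntegral.integral_sub hXi intervalIntegrable_const,
      intervalIntegral.integral_const]
    simp
  have hsemi' : (∫ ψ in (0 : ℝ)..Real.pi, (X ψ - 1)) < Real.pi * ((e - 1) / 2) := hsemi
  have hlt : (∫ ψ in (0 : ℝ)..Real.pi, X ψ) - Real.pi * m < 0 := by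
    rw [hsub] at hsemi'
    have : m = 1 + (e - 1) / 2 := by rw [hm, he]; ring
    rw [this]
    linarith
  have hsm : 0 < √m := Real.sqrt_pos.mpr hm0
  have hneg : ((∫ ψ in (0 : ℝ)..Real.pi, X ψ) - Real.pi * m) / (2 * m * √m) < 0 :=
    div_neg_of_neg_of_pos hlt (by positivity)
  have hfinal : Real.pi * (1 / √m) < ∫ ψ in (0 : ℝ)..Real.pi, 1 / √(X ψ) := by
    have := hmono
    rw [hval] at this
    linarith
  have hsqrt : √m = √s / 2 := by
    have h4 : (√s / 2) ^ 2 = m := by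
      rw [div_pow, Real.sq_sqrt (by linarith), hm]; norm_num
    rw [← h4, Real.sqrt_sq (by positivity)]
  rw [hsqrt] at hfinal
  have hss : 0 < √s := Real.sqrt_pos.mpr (by linarith)
  have hconv : Real.pi * (1 / (√s / 2)) = 2 * (Real.pi / √s) := by
    field_simp
  rw [hconv] at hfinal
  have : tau s ρ = 1 / 2 * ∫ ψ in (0 : ℝ)..Real.pi, 1 / √(X ψ) := rfl
  rw [this]
  linarith

end Pool.Agent.R963.CA
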