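import Pool.Agent.R963.CA.Conc

/-!
# CA-12b: the bound `τ < π/√s` for `2 < s < 4`
-/

open Set MeasureTheory

namespace Pool.Agent.R963.CA

namespace B1p

/-- supporting line of a concave function -/
theorem support {f : ℝ → ℝ} {a b g : ℝ} (hf : ConcaveOn ℝ (Ioo a b) f) (hg : g ∈ Ioo a b) :
    ∃ κ : ℝ, ∀ w ∈ Ioo a b, f w ≤ f g + κ * (w - g) := by
  set S : Set ℝ := (fun y => (f y - f g) / (y - g)) '' Ioo g b with hS
  have hne : S.Nonempty := ⟨_, (g + b) / 2, ⟨by linarith [hg.2], by linarith [hg.2]⟩, rfl⟩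
  have hadj : ∀ x ∈ Ioo a g, ∀ v ∈ S, v ≤ (f g - f x) / (g - x) := by
    rintro x hx v ⟨y, hy, rfl⟩
    exact hf.slope_anti_adjacent (x := x) (y := g) (z := y) ⟨hx.1, hx.2.trans hg.2⟩
      ⟨hg.1.trans hy.1, hy.2⟩ hx.2 hy.1
  have hbdd : BddAbove S := by
    refine ⟨(f g - f ((a + g) / 2)) / (g - (a + g) / 2), fun v hv => ?_⟩
    exact hadj ((a + g) / 2) ⟨by linarith [hg.1], by linarith [hg.1]⟩ v hv
  refine ⟨sSup S, fun w hw => ?_⟩
  rcases lt_trichotomy w g with h | h | h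
  · have h1 : sSup S ≤ (f g - f w) / (g - w) := csSup_le hne (hadj w ⟨hw.1, h⟩)
    rw [le_div_iff₀ (by linarith)] at h1
    linarith
  · rw [h]; simp
  · have h1 : (f w - f g) / (w - g) ≤ sSup S := le_csSup hbdd ⟨w, ⟨h, hw.2⟩, rfl⟩
    rw [div_le_iff₀ (by linarith)] at h1
    linarith

/-- the trapezoidal inequality -/
theorem trap_ineq (c g : ℝ) (hc : 1 < c) (hc2 : c < 2) (hg : 1 < g) :
    c * ((g - 1) * (g ^ (c - 1) + 1)) < 2 * (g ^ c - 1) := by
  set F : ℝ → ℝ := fun x => 2 * (x ^ c - 1) - c * ((x - 1) * (x ^ (c - 1) + 1)) with hF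
  have hder : ∀ x : ℝ, 0 < x → HasDerivAt F
      (2 * (c * x ^ (c - 1)) - c * (1 * (x ^ (c - 1) + 1) + (x - 1) * ((c - 1) * x ^ (c - 1 - 1)))) x := by
    intro x hx
    have h1 : HasDerivAt (fun x : ℝ => x ^ c) (c * x ^ (c - 1)) x :=
      Real.hasDerivAt_rpow_const (Or.inl hx.ne')
    have h2 : HasDerivAt (fun x : ℝ => x ^ (c - 1)) ((c - 1) * x ^ (c - 1 - 1)) x :=
      Real.hasDerivAt_rpow_const (Or.inl hx.ne')
    exact ((h1.sub_const 1).const_mul 2).sub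
      ((((hasDerivAt_id x).sub_const 1).mul (h2.add_const 1)).const_mul c)
  have hpos : ∀ x : ℝ, 1 < x → 0 < 2 * (c * x ^ (c - 1)) -
      c * (1 * (x ^ (c - 1) + 1) + (x - 1) * ((c - 1) * x ^ (c - 1 - 1))) := by
    intro x hx
    have hx0 : 0 < x := by linarith
    have hB := rpow_one_add_lt_one_add_mul_self (s := x - 1) (by linarith) (by linarith)
      (p := 2 - c) (by linarith) (by linarith)
    rw [add_sub_cancel] at hB
    have hP : 0 < x ^ (c - 1 - 1) := Real.rpow_pos_of_pos hx0 _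
    have e1 : x ^ (c - 1) = x * x ^ (c - 1 - 1) := by
      rw [← Real.rpow_one_add' hx0.le (by ring_nf; linarith)]
      congr 1; ring
    have e2 : (1 : ℝ) = x ^ (2 - c) * x ^ (c - 1 - 1) := by
      rw [← Real.rpow_add hx0]
      rw [show (2 - c + (c - 1 - 1)) = 0 by ring, Real.rpow_zero]
    have e3 : 2 * (c * x ^ (c - 1)) -
        c * (1 * (x ^ (c - 1) + 1) + (x - 1) * ((c - 1) * x ^ (c - 1 - 1))) =
        c * (x ^ (c - 1 - 1) * (1 + (2 - c) * (x - 1) - x ^ (2 - c))) := by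
      rw [e1]
      linear_combination (-c) * e2
    rw [e3]
    have : 0 < 1 + (2 - c) * (x - 1) - x ^ (2 - c) := by linarith
    positivity
  have hmono : StrictMonoOn F (Ici 1) := by
    apply strictMonoOn_of_deriv_pos (convex_Ici 1)
    · intro x hx
      exact (hder x (by rw [mem_Ici] at hx; linarith)).continuousAt.continuousWithinAt
    · intro x hx
      rw [interior_Ici, mem_Ioi] at hx
      rw [(hder x (by linarith)).deriv]
      exact hpos x hx
  have h := hmono (by simp) (by rw [mem_Ici]; exact hg.le) hg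
  simp only [hF] at h
  rw [Real.one_rpow, Real.one_rpow] at h
  linarith

theorem yy_mem (ρ ψ : ℝ) (hρ : 1 < ρ) (hψ : ψ ∈ Ioo 0 Real.pi) : yy ρ ψ ∈ Ioo 1 ρ := by
  have h1 : Real.cos ψ < 1 := by
    have := Real.cos_lt_cos_of_nonneg_of_le_pi (x := 0) (y := ψ) le_rfl hψ.2.le hψ.1
    rwa [Real.cos_zero] at this
  have h2 : -1 < Real.cos ψ := by
    have := Real.cos_lt_cos_of_nonneg_of_le_pi (x := ψ) (y := Real.pi) hψ.1.le le_rfl hψ.2
    rwa [Real.cos_pi] at this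
  unfold yy
  constructor <;> nlinarith

theorem yy_pos (ρ ψ : ℝ) (hρ : 1 < ρ) : 0 < yy ρ ψ := by
  have h1 := Real.cos_le_one ψ
  unfold yy
  nlinarith

/-- `∫₀^π √ρ / y = π` -/
theorem integral_yy (g : ℝ) (hg : 1 < g) :
    ∫ ψ in (0 : ℝ)..Real.pi, g / yy (g ^ 2) ψ = Real.pi := by
  set q : ℝ := (g - 1) / (g + 1) with hq
  have hq0 : 0 < q := div_pos (by linarith) (by linarith)
  have hq1 : q < 1 := by rw [hq, div_lt_one (by linarith)]; linarith
  have hρ : 1 < g ^ 2 := by nlinarith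
  have hden : ∀ ψ : ℝ, 1 - q * Real.cos ψ ≠ 0 := by
    intro ψ
    have := Real.cos_le_one ψ
    nlinarith
  have hder : ∀ ψ ∈ uIcc 0 Real.pi, HasDerivAt (fun ψ : ℝ => ψ + 2 * Real.arctan
      (q * Real.sin ψ / (1 - q * Real.cos ψ))) (g / yy (g ^ 2) ψ) ψ := by
    intro ψ _
    have h1 : HasDerivAt (fun ψ : ℝ => q * Real.sin ψ / (1 - q * Real.cos ψ))
        (((q * Real.cos ψ) * (1 - q * Real.cos ψ) -
          (q * Real.sin ψ) * (-(q * (-Real.sin ψ)))) / (1 - q * Real.cos ψ) ^ 2) ψ :=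
      ((Real.hasDerivAt_sin ψ).const_mul q).div
        (((Real.hasDerivAt_cos ψ).const_mul q).const_sub 1) (hden ψ)
    have h2 : HasDerivAt (fun ψ : ℝ => ψ + 2 * Real.arctan (q * Real.sin ψ / (1 - q * Real.cos ψ)))
        _ ψ := (hasDerivAt_id ψ).add (h1.arctan.const_mul 2)
    refine h2.congr_deriv ?_
    have hd := hden ψ
    have hy := (yy_pos (g ^ 2) ψ hρ).ne'
    have hcs := Real.sin_sq_add_cos_sq ψ
    set C := Real.cos ψ with hC
    set s := Real.sin ψ with hs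
    have hs2 : s ^ 2 = 1 - C ^ 2 := by linarith
    have hne : (1 - q * C) ^ 2 + (q * s) ^ 2 ≠ 0 := by
      have : 0 < (1 - q * C) ^ 2 := by positivity
      positivity
    have hval : (1 - q * C) ^ 2 + (q * s) ^ 2 = 1 - 2 * q * C + q ^ 2 := by
      rw [mul_pow, hs2]; ring
    have hne2 : 1 - 2 * q * C + q ^ 2 ≠ 0 := hval ▸ hne
    have hr : 1 + 2 * (1 / (1 + (q * s / (1 - q * C)) ^ 2) *
        (((q * C) * (1 - q * C) - (q * s) * (-(q * (-s)))) / (1 - q * C) ^ 2)) =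
        (1 - q ^ 2) / (1 - 2 * q * C + q ^ 2) := by
      have k1 : 1 + (q * s / (1 - q * C)) ^ 2 = (1 - 2 * q * C + q ^ 2) / (1 - q * C) ^ 2 := by
        rw [← hval]; field_simp
      have k2 : (q * C) * (1 - q * C) - (q * s) * (-(q * (-s))) = q * C - q ^ 2 := by
        have : q * s * (-(q * (-s))) = q ^ 2 * s ^ 2 := by ring
        rw [this, hs2]; ring
      rw [k1, k2]
      field_simp
      ring
    rw [hr]
    have hyy : yy (g ^ 2) ψ = (1 + g ^ 2) / 2 - (g ^ 2 - 1) / 2 * C := rfl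
    rw [hyy] at hy ⊢
    have hg1 : g + 1 ≠ 0 := by linarith
    have k3 : 1 - 2 * q * C + q ^ 2 = 4 * ((1 + g ^ 2) / 2 - (g ^ 2 - 1) / 2 * C) / (g + 1) ^ 2 := by
      rw [hq]; field_simp; ring
    have k4 : 1 - q ^ 2 = 4 * g / (g + 1) ^ 2 := by
      rw [hq]; field_simp; ring
    rw [k3, k4]
    field_simp
  have hint : IntervalIntegrable (fun ψ => g / yy (g ^ 2) ψ) volume 0 Real.pi := by
    apply Continuous.intervalIntegrable
    have : Continuous (fun ψ => yy (g ^ 2) ψ) := by unfold yy; fun_prop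
    exact continuous_const.div this fun ψ => (yy_pos _ ψ hρ).ne'
  rw [intervalIntegral.integral_eq_sub_of_hasDerivAt hder hint]
  simp

/-- the identity `R = D(ρ/y)/Δ₁` -/
theorem Rr_eq (s ρ y : ℝ) (hs : 2 < s) (hy : y ∈ Ioo 1 ρ) :
    Rr ((s - 2) / 2) ρ y = concD (s / 2) ρ (ρ / y) / ((ρ ^ (s / 2 - 1) - 1) / (ρ - 1)) := by
  obtain ⟨h1, h2⟩ := hy
  have hy0 : 0 < y := by linarith
  have hρ0 : 0 < ρ := by linarith
  have hX : 0 < ρ ^ (-((s - 2) / 2)) := Real.rpow_pos_of_pos hρ0 _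
  have hY : 0 < y ^ (-((s - 2) / 2)) := Real.rpow_pos_of_pos hy0 _
  have hX1 : ρ ^ (-((s - 2) / 2)) < 1 :=
    Real.rpow_lt_one_of_one_lt_of_neg (by linarith) (by linarith)
  have e1 : ρ ^ (1 - (s - 2) / 2) = ρ * ρ ^ (-((s - 2) / 2)) := by
    rw [sub_eq_add_neg, Real.rpow_add hρ0, Real.rpow_one]
  have e2 : y ^ (1 - (s - 2) / 2) = y * y ^ (-((s - 2) / 2)) := by
    rw [sub_eq_add_neg, Real.rpow_add hy0, Real.rpow_one]
  have e3 : ρ ^ (s / 2) = ρ / ρ ^ (-((s - 2) / 2)) := by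
    have h := Real.rpow_sub hρ0 1 (-((s - 2) / 2))
    rw [Real.rpow_one] at h
    rw [← h]; congr 1; ring
  have e4 : y ^ (s / 2) = y / y ^ (-((s - 2) / 2)) := by
    have h := Real.rpow_sub hy0 1 (-((s - 2) / 2))
    rw [Real.rpow_one] at h
    rw [← h]; congr 1; ring
  have e5 : ρ ^ (s / 2 - 1) = 1 / ρ ^ (-((s - 2) / 2)) := by
    rw [Real.rpow_sub_one hρ0.ne', e3]
    field_simp
  unfold Rr concD
  rw [Real.div_rpow hρ0.le hy0.le, e1, e2, e3, e4, e5]
  generalize ρ ^ (-((s - 2) / 2)) = X at *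
  generalize y ^ (-((s - 2) / 2)) = Y at *
  have a1 : ρ - y ≠ 0 := by linarith
  have a2 : y - 1 ≠ 0 := by linarith
  have a3 : 1 - X ≠ 0 := by linarith
  have a4 : ρ - 1 ≠ 0 := by linarith
  have b1 : ρ - ρ / y ≠ 0 := by
    have : ρ - ρ / y = ρ * (y - 1) / y := by field_simp
    rw [this]
    positivity
  have b2 : ρ / y - 1 ≠ 0 := by
    have : ρ / y - 1 = (ρ - y) / y := by field_simp
    rw [this]
    positivity
  have b3 : 1 / X - 1 ≠ 0 := by
    have : 1 / X - 1 = (1 - X) / X := by field_simp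
    rw [this]
    positivity
  have c1 : (ρ / X - ρ / X / (y / Y)) / (ρ - ρ / y) = (y - Y) / (X * (y - 1)) := by
    have : ρ - ρ / y = ρ * (y - 1) / y := by field_simp
    rw [this]
    field_simp
  have c2 : (ρ / X / (y / Y) - 1) / (ρ / y - 1) = (ρ * Y - X * y) / (X * (ρ - y)) := by
    have : ρ / y - 1 = (ρ - y) / y := by field_simp
    rw [this]
    field_simp
  have c3 : 1 / X - 1 = (1 - X) / X := by field_simp
  rw [c1, c2, c3]
  field_simp
  ring

/-- the value at `g = √ρ` -/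
theorem key_val (c g : ℝ) (hc : 1 < c) (hc2 : c < 2) (hg : 1 < g) :
    c / 2 * (((g ^ 2) ^ (c - 1) - 1) / (g ^ 2 - 1)) < concD c (g ^ 2) g := by
  have hg0 : 0 < g := by linarith
  have ht := trap_ineq c g hc hc2 hg
  have e1 : (g ^ 2) ^ c = (g ^ c) ^ 2 := by
    rw [← Real.rpow_natCast, ← Real.rpow_natCast, ← Real.rpow_mul hg0.le, ← Real.rpow_mul hg0.le,
      mul_comm]
  have e2 : (g ^ 2) ^ (c - 1) = (g ^ (c - 1)) ^ 2 := by
    rw [← Real.rpow_natCast, ← Real.rpow_natCast, ← Real.rpow_mul hg0.le, ← Real.rpow_mul hg0.le,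
      mul_comm]
  have e3 : g ^ c = g * g ^ (c - 1) := by
    rw [Real.rpow_sub_one hg0.ne']; field_simp
  have hZ : 1 < g ^ (c - 1) := Real.one_lt_rpow hg (by linarith)
  unfold concD
  rw [e1, e2]
  rw [e3] at ht ⊢
  generalize g ^ (c - 1) = Z at *
  have a1 : g - 1 ≠ 0 := by linarith
  have a2 : 0 < g ^ 2 - 1 := by nlinarith
  have d1 : (((g * Z) ^ 2 - g * Z) / (g ^ 2 - g) - (g * Z - 1) / (g - 1)) / (g ^ 2 - 1) =
      ((g * Z - 1) * (Z - 1)) / ((g - 1) * (g ^ 2 - 1)) := by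
    have : g ^ 2 - g = g * (g - 1) := by ring
    rw [this]
    field_simp
  have d2 : c / 2 * ((Z ^ 2 - 1) / (g ^ 2 - 1)) =
      (c * ((g - 1) * (Z + 1)) / 2 * (Z - 1)) / ((g - 1) * (g ^ 2 - 1)) := by
    field_simp
    ring
  rw [d1, d2]
  apply div_lt_div_of_pos_right
  · apply mul_lt_mul_of_pos_right
    · linarith
    · linarith
  · exact mul_pos (by linarith) a2

end B1p

open B1p in
theorem t_b1' (h : S_conc) : S_b1' := by
  intro s ρ hs hs4 hρ
  have hc : 1 < s / 2 := by linarith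
  have hc2 : s / 2 < 2 := by linarith
  obtain ⟨hconc, -⟩ := h (s / 2) ρ hc hc2 hρ
  have hconc' : ConcaveOn ℝ (Ioo 1 ρ) (fun w => (concD (s / 2) ρ w)⁻¹) := hconc
  set g : ℝ := √ρ with hgdef
  have hg : 1 < g := by
    rw [hgdef, Real.lt_sqrt (by norm_num)]; simpa using hρ
  have hgρ : ρ = g ^ 2 := (Real.sq_sqrt (by linarith)).symm
  have hgI : g ∈ Ioo 1 ρ := ⟨hg, by rw [hgρ]; nlinarith⟩
  obtain ⟨κ, hκ⟩ := support hconc' hgI
  have hD : 0 < concD (s / 2) ρ g := concD_pos _ _ _ hc hgI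
  set Δ : ℝ := (ρ ^ (s / 2 - 1) - 1) / (ρ - 1) with hΔ
  have hΔ0 : 0 < Δ := by
    apply div_pos _ (by linarith)
    have := Real.one_lt_rpow hρ (z := s / 2 - 1) (by linarith)
    linarith
  set x0 : ℝ := Δ * (concD (s / 2) ρ g)⁻¹ with hx0
  have hx0p : 0 < x0 := by positivity
  have hsx0 : 0 < √x0 := Real.sqrt_pos.2 hx0p
  -- pointwise bound
  have hpt : ∀ ψ ∈ Ioo 0 Real.pi, 1 / √(Rr ((s - 2) / 2) ρ (yy ρ ψ)) ≤
      √x0 + Δ * κ * g / (2 * √x0) * (g / yy ρ ψ - 1) := by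
    intro ψ hψ
    have hy := yy_mem ρ ψ hρ hψ
    have hy0 : 0 < yy ρ ψ := yy_pos ρ ψ hρ
    have hw : ρ / yy ρ ψ ∈ Ioo 1 ρ := by
      constructor
      · rw [lt_div_iff₀ hy0]; linarith [hy.2]
      · rw [div_lt_iff₀ hy0]; nlinarith [hy.1]
    have hDw : 0 < concD (s / 2) ρ (ρ / yy ρ ψ) := concD_pos _ _ _ hc hw
    have hk := hκ _ hw
    rw [Rr_eq s ρ _ hs hy, ← hΔ, one_div, ← Real.sqrt_inv, inv_div]
    set x : ℝ := Δ / concD (s / 2) ρ (ρ / yy ρ ψ) with hx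
    have hx' : x ≤ x0 + Δ * κ * (ρ / yy ρ ψ - g) := by
      rw [hx, div_eq_mul_inv, hx0]
      nlinarith
    have hxp : 0 < x := by positivity
    have h1 : 2 * √x * √x0 ≤ x + x0 := by
      have := sq_nonneg (√x - √x0)
      rw [sub_sq, Real.sq_sqrt hxp.le, Real.sq_sqrt hx0p.le] at this
      linarith
    have h2 : √x * (2 * √x0) ≤ 2 * x0 + Δ * κ * (ρ / yy ρ ψ - g) := by linarith
    have h3 : √x ≤ (2 * x0 + Δ * κ * (ρ / yy ρ ψ - g)) / (2 * √x0) := by
      rw [le_div_iff₀ (by positivity)]; exact h2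
    refine h3.trans (le_of_eq ?_)
    have h4 : ρ / yy ρ ψ - g = g * (g / yy ρ ψ - 1) := by
      rw [mul_sub, mul_one, ← mul_div_assoc, ← sq, ← hgρ]
    rw [h4]
    have h5 : x0 = √x0 * √x0 := (Real.mul_self_sqrt hx0p.le).symm
    rw [add_div]
    congr 1
    · rw [div_eq_iff (by positivity)]
      linear_combination 2 * h5
    · field_simp
  -- integral bound
  have hint2 : IntervalIntegrable (fun ψ => g / yy ρ ψ) volume 0 Real.pi := by
    apply Continuous.intervalIntegrable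
    have : Continuous (fun ψ => yy ρ ψ) := by unfold yy; fun_prop
    exact continuous_const.div this fun ψ => (yy_pos _ ψ hρ).ne'
  have hI := integral_yy g hg
  rw [← hgρ] at hI
  have hval : ∫ ψ in (0 : ℝ)..Real.pi, (√x0 + Δ * κ * g / (2 * √x0) * (g / yy ρ ψ - 1)) =
      Real.pi * √x0 := by
    rw [intervalIntegral.integral_add (by simp)
      ((hint2.sub (by simp)).const_mul _), intervalIntegral.integral_const_mul,
      intervalIntegral.integral_sub hint2 (by simp), hI]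
    simp
  have hbound : ∫ ψ in (0 : ℝ)..Real.pi, 1 / √(Rr ((s - 2) / 2) ρ (yy ρ ψ)) ≤ Real.pi * √x0 := by
    by_cases hi : IntervalIntegrable (fun ψ => 1 / √(Rr ((s - 2) / 2) ρ (yy ρ ψ))) volume 0 Real.pi
    · rw [← hval]
      refine intervalIntegral.integral_mono_on_of_le_Ioo Real.pi_pos.le hi ?_ hpt
      exact (by simp : IntervalIntegrable (fun _ : ℝ => √x0) volume 0 Real.pi).add
        ((hint2.sub (by simp)).const_mul _)
    · rw [intervalIntegral.integral_undef hi]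
      positivity
  -- the value of `x0`
  have hlt : x0 < 4 / s := by
    have h1 := key_val (s / 2) g hc hc2 hg
    rw [← hgρ, ← hΔ] at h1
    rw [hx0, ← div_eq_mul_inv, div_lt_div_iff₀ hD (by linarith)]
    linarith
  have hfin : √x0 < 2 / √s := by
    have h1 : √x0 < √(4 / s) := Real.sqrt_lt_sqrt hx0p.le hlt
    rwa [Real.sqrt_div (by norm_num), show (4 : ℝ) = 2 ^ 2 by norm_num,
      Real.sqrt_sq (by norm_num)] at h1
  unfold tau
  calc (1 / 2) * ∫ ψ in (0 : ℝ)..Real.pi, 1 / √(Rr ((s - 2) / 2) ρ (yy ρ ψ))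
      ≤ (1 / 2) * (Real.pi * √x0) := by linarith
    _ < (1 / 2) * (Real.pi * (2 / √s)) := by
        have := mul_lt_mul_of_pos_left hfin Real.pi_pos
        linarith
    _ = Real.pi / √s := by ring

end Pool.Agent.R963.CA
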