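import Pool.Agent.R963.CA.Stm

set_option autoImplicit false
set_option maxHeartbeats 400000

/-!
# CA-10: comparison of `tau` with `π / 2` (helper507)

For `e > 0` and `y` in `(1, ρ)` one has `Rr e ρ y = 1 + (e - 1) t` with `0 < t < 1`.
-/

open scoped ContDiff Topology
open Set Filter MeasureTheory

namespace Pool.Agent.R963.CA

theorem yy_mem {ρ ψ : ℝ} (hρ : 1 < ρ) (h : ψ ∈ Ioo 0 Real.pi) : yy ρ ψ ∈ Ioo 1 ρ := by
  have h1 : Real.cos ψ < 1 := by
    rw [← Real.cos_zero]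
    exact Real.cos_lt_cos_of_nonneg_of_le_pi le_rfl h.2.le h.1
  have h2 : -1 < Real.cos ψ := by
    rw [← Real.cos_pi]
    exact Real.cos_lt_cos_of_nonneg_of_le_pi h.1.le le_rfl h.2
  unfold yy
  constructor <;> nlinarith

/-- mean value theorem for `x ^ (1 - e)` -/
theorem rpow_mvt {e a b : ℝ} (ha : 0 < a) (hab : a < b) :
    ∃ ξ ∈ Ioo a b, (1 - e) * ξ ^ (-e) = (b ^ (1 - e) - a ^ (1 - e)) / (b - a) := by
  obtain ⟨c, hc, h⟩ := exists_hasDerivAt_eq_slope (fun x : ℝ => x ^ (1 - e))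
    (fun x => (1 - e) * x ^ (-e)) hab
    (fun x hx => (Real.continuousAt_rpow_const x _ (Or.inl (by
      have := hx.1
      linarith))).continuousWithinAt)
    (fun x hx => by
      have h := Real.hasDerivAt_rpow_const (x := x) (p := 1 - e) (Or.inl (by
        have := hx.1
        linarith))
      have h2 : (1 : ℝ) - e - 1 = -e := by ring
      rw [h2] at h
      exact h)
  exact ⟨c, hc, h⟩

/-- the values of `Rr` lie strictly between `1` and `e` -/
theorem Rr_eq {e ρ y : ℝ} (he : 0 < e) (hy : y ∈ Ioo 1 ρ) :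
    ∃ t : ℝ, 0 < t ∧ t < 1 ∧ Rr e ρ y = 1 + (e - 1) * t := by
  obtain ⟨hy1, hy2⟩ := hy
  have hρ : 1 < ρ := hy1.trans hy2
  obtain ⟨ξ₁, h1, e1⟩ := rpow_mvt (e := e) one_pos hy1
  obtain ⟨ξ₂, h2, e2⟩ := rpow_mvt (e := e) (one_pos.trans hy1) hy2
  rw [Real.one_rpow] at e1
  have p1 : 0 < ξ₁ := by linarith [h1.1]
  have p2 : 0 < ξ₂ := by linarith [h2.1]
  have q1 : ξ₁ ^ (-e) < 1 := Real.rpow_lt_one_of_one_lt_of_neg h1.1 (by linarith)
  have q2 : ξ₂ ^ (-e) < ξ₁ ^ (-e) :=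
    Real.rpow_lt_rpow_of_neg p1 (h1.2.trans h2.1) (by linarith)
  have q3 : ρ ^ (-e) < ξ₂ ^ (-e) := Real.rpow_lt_rpow_of_neg p2 h2.2 (by linarith)
  have hA : 0 < 1 - ρ ^ (-e) := by linarith
  refine ⟨(ξ₁ ^ (-e) - ξ₂ ^ (-e)) / (1 - ρ ^ (-e)), div_pos (by linarith) hA, ?_, ?_⟩
  · rw [div_lt_one hA]
    linarith
  · unfold Rr
    rw [← e1, ← e2]
    field_simp
    ring

theorem Rr_gt {e ρ y : ℝ} (he : 1 < e) (hy : y ∈ Ioo 1 ρ) : 1 < Rr e ρ y := by
  obtain ⟨t, h0, h1, h⟩ := Rr_eq (by linarith) hy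
  rw [h]
  nlinarith

theorem Rr_le {e ρ y : ℝ} (he : 1 < e) (hy : y ∈ Ioo 1 ρ) : Rr e ρ y ≤ e := by
  obtain ⟨t, h0, h1, h⟩ := Rr_eq (by linarith) hy
  rw [h]
  nlinarith

theorem Rr_lt {e ρ y : ℝ} (he : 0 < e) (he1 : e < 1) (hy : y ∈ Ioo 1 ρ) : Rr e ρ y < 1 := by
  obtain ⟨t, h0, h1, h⟩ := Rr_eq he hy
  rw [h]
  nlinarith

theorem Rr_ge {e ρ y : ℝ} (he : 0 < e) (he1 : e < 1) (hy : y ∈ Ioo 1 ρ) : e ≤ Rr e ρ y := by
  obtain ⟨t, h0, h1, h⟩ := Rr_eq he hy
  rw [h]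
  nlinarith

/-- uniform lower bound -/
theorem Rr_min {e ρ y : ℝ} (he : 0 < e) (hy : y ∈ Ioo 1 ρ) : min 1 e ≤ Rr e ρ y := by
  obtain ⟨t, h0, h1, h⟩ := Rr_eq he hy
  rw [h]
  rcases le_total 1 e with h2 | h2
  · rw [min_eq_left h2]
    nlinarith
  · rw [min_eq_right h2]
    nlinarith

theorem Rr_pos {e ρ y : ℝ} (he : 0 < e) (hy : y ∈ Ioo 1 ρ) : 0 < Rr e ρ y :=
  lt_of_lt_of_le (lt_min one_pos he) (Rr_min he hy)

/-- the integrand is measurable -/
theorem meas_integrand (e ρ : ℝ) : Measurable fun ψ : ℝ => 1 / √(Rr e ρ (yy ρ ψ)) := by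
  unfold Rr yy
  fun_prop

/-- uniform bound of the integrand -/
theorem integrand_le {e ρ ψ : ℝ} (he : 0 < e) (hρ : 1 < ρ) (h : ψ ∈ Ioo 0 Real.pi) :
    ‖1 / √(Rr e ρ (yy ρ ψ))‖ ≤ 1 / √(min 1 e) := by
  rw [Real.norm_of_nonneg (by positivity)]
  have h0 : 0 < √(min 1 e) := Real.sqrt_pos.2 (lt_min one_pos he)
  exact one_div_le_one_div_of_le h0 (Real.sqrt_le_sqrt (Rr_min he (yy_mem hρ h)))

/-- the integrand is integrable -/
theorem integrable_integrand {e ρ : ℝ} (he : 0 < e) (hρ : 1 < ρ) :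
    IntervalIntegrable (fun ψ : ℝ => 1 / √(Rr e ρ (yy ρ ψ))) volume 0 Real.pi := by
  rw [intervalIntegrable_iff_integrableOn_Ioo_of_le Real.pi_pos.le]
  refine Measure.integrableOn_of_bounded (M := 1 / √(min 1 e)) (by simp)
    (meas_integrand e ρ).aestronglyMeasurable ?_
  rw [ae_restrict_iff' measurableSet_Ioo]
  exact Eventually.of_forall fun ψ h => integrand_le he hρ h

/-- CA-10 -/
theorem t_b2 : S_b2 := by
  intro s ρ hρ
  have hpi := Real.pi_pos
  constructor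
  · intro hs
    have he : 1 < (s - 2) / 2 := by linarith
    have hi := integrable_integrand (e := (s - 2) / 2) (by linarith) hρ
    have hpos := intervalIntegral.intervalIntegral_pos_of_pos_on
      (f := fun ψ => 1 - 1 / √(Rr ((s - 2) / 2) ρ (yy ρ ψ))) (a := 0) (b := Real.pi)
      (intervalIntegrable_const.sub hi) (fun ψ h => by
        have h1 := Rr_gt he (yy_mem hρ h)
        have h2 : 1 < √(Rr ((s - 2) / 2) ρ (yy ρ ψ)) := by
          rw [Real.lt_sqrt (by norm_num)]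
          linarith
        have h3 : 1 / √(Rr ((s - 2) / 2) ρ (yy ρ ψ)) < 1 := by
          rw [div_lt_one (by linarith)]
          exact h2
        linarith) hpi
    rw [intervalIntegral.integral_sub intervalIntegrable_const hi,
      intervalIntegral.integral_const, sub_zero, smul_eq_mul, mul_one] at hpos
    unfold tau
    linarith
  · intro hs hs4
    have he : 0 < (s - 2) / 2 := by linarith
    have he1 : (s - 2) / 2 < 1 := by linarith
    have hi := integrable_integrand he hρ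
    have hpos := intervalIntegral.intervalIntegral_pos_of_pos_on
      (f := fun ψ => 1 / √(Rr ((s - 2) / 2) ρ (yy ρ ψ)) - 1) (a := 0) (b := Real.pi)
      (hi.sub intervalIntegrable_const) (fun ψ h => by
        have h1 := Rr_lt he he1 (yy_mem hρ h)
        have h0 := Rr_pos he (yy_mem hρ h)
        have h2 : √(Rr ((s - 2) / 2) ρ (yy ρ ψ)) < 1 := by
          rw [Real.sqrt_lt' (by norm_num)]
          linarith
        have h3 : 1 < 1 / √(Rr ((s - 2) / 2) ρ (yy ρ ψ)) := by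
          rw [one_lt_div (Real.sqrt_pos.2 h0)]
          exact h2
        linarith) hpi
    rw [intervalIntegral.integral_sub hi intervalIntegrable_const,
      intervalIntegral.integral_const, sub_zero, smul_eq_mul, mul_one] at hpos
    unfold tau
    linarith

end Pool.Agent.R963.CA
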