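import Pool.Agent.R963.CA.Stm

set_option maxHeartbeats 400000

open scoped ContDiff Topology
open Set Filter MeasureTheory

namespace Pool.Agent.R963.CA

noncomputable section

/-! ### The function `R` -/

/-- continuous extension of `G(y) / ((y-b)(y-a))` -/
def conR (e b a y : ℝ) : ℝ :=
  1 + (b ^ (-e) - a ^ (-e))⁻¹ *
    (dslope (fun z : ℝ => z ^ (1 - e)) a y - dslope (fun z : ℝ => z ^ (1 - e)) b y)

section R

variable {e c b a q : ℝ}

lemma con_dslope (e : ℝ) {x : ℝ} (hx : 0 < x) :
    ContinuousOn (dslope (fun z : ℝ => z ^ (1 - e)) x) (Ioi 0) := by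
  rw [continuousOn_dslope (Ioi_mem_nhds hx)]
  refine ⟨fun y hy => ?_, ?_⟩
  · exact (Real.continuousAt_rpow_const _ _ (Or.inl (ne_of_gt hy))).continuousWithinAt
  · exact (Real.hasDerivAt_rpow_const (Or.inl hx.ne')).differentiableAt

lemma conR_cont (hb : 0 < b) (ha : 0 < a) : ContinuousOn (conR e b a) (Ioi 0) := by
  unfold conR
  exact continuousOn_const.add (continuousOn_const.mul
    ((con_dslope e ha).sub (con_dslope e hb)))

lemma con_D (hq : 0 < q) (hab : b < a) (hE : q * (b ^ (-e) - a ^ (-e)) = a - b) :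
    0 < b ^ (-e) - a ^ (-e) := by
  by_contra h
  have : q * (b ^ (-e) - a ^ (-e)) ≤ 0 := mul_nonpos_of_nonneg_of_nonpos hq.le (not_lt.1 h)
  linarith

lemma pow1 {x : ℝ} (hx : 0 < x) : x ^ (1 - e) = x * x ^ (-e) := by
  rw [sub_eq_add_neg, Real.rpow_add hx, Real.rpow_one]

lemma conR_mul (hb : 0 < b) (hab : b < a) (hq : 0 < q)
    (hE : q * (b ^ (-e) - a ^ (-e)) = a - b) {y : ℝ} (hy : y ∈ Ioo b a) :
    conR e b a y * ((y - b) * (a - y)) =
      -(y * (y + q * y ^ (-e) - (b + q * b ^ (-e)))) := by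
  have ha : 0 < a := hb.trans hab
  have hy0 : 0 < y := hb.trans hy.1
  have hD := con_D hq hab hE
  unfold conR
  rw [dslope_of_ne _ hy.2.ne, dslope_of_ne _ hy.1.ne', slope_def_field, slope_def_field,
    pow1 hb, pow1 ha, pow1 hy0]
  set A := a ^ (-e)
  set B := b ^ (-e)
  set F := y ^ (-e)
  have h1 : (y * F - a * A) / (y - a) * (y - a) = y * F - a * A :=
    div_mul_cancel₀ _ (by have := hy.2; intro h; linarith)
  have h2 : (y * F - b * B) / (y - b) * (y - b) = y * F - b * B :=
    div_mul_cancel₀ _ (by have := hy.1; intro h; linarith)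
  have hk : (B - A)⁻¹ * (B - A) = 1 := inv_mul_cancel₀ hD.ne'
  set κ := (B - A)⁻¹
  set s1 := (y * F - a * A) / (y - a)
  set s2 := (y * F - b * B) / (y - b)
  have hq' : q = κ * (a - b) := by
    rw [← hE]
    linear_combination (-q) * hk
  linear_combination (-κ * (y - b)) * h1 + (-κ * (a - y)) * h2 + (y * F - B * y) * hq' +
    (a * b - a * y) * hk

lemma con_g_deriv (hqe : q * e = c) {x : ℝ} (hx : 0 < x) (E : ℝ) :
    HasDerivAt (fun y : ℝ => y + q * y ^ (-e) - E) (1 - c * x ^ (-e - 1)) x := by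
  have h1 := ((hasDerivAt_id x).add ((Real.hasDerivAt_rpow_const (p := -e)
    (Or.inl hx.ne')).const_mul q)).sub_const E
  refine h1.congr_deriv ?_
  rw [← hqe]; ring

lemma con_dec (he : 0 < e) (hc : 0 < c) {x y : ℝ} (hx : 0 < x) (hxy : x < y) :
    1 - c * x ^ (-e - 1) < 1 - c * y ^ (-e - 1) := by
  have := Real.rpow_lt_rpow_of_neg hx hxy (by linarith : -e - 1 < 0)
  have := mul_lt_mul_of_pos_left this hc
  linarith

lemma con_mvt (hqe : q * e = c) (E : ℝ) {x y : ℝ} (hx : 0 < x) (hxy : x < y) :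
    ∃ ξ ∈ Ioo x y, (1 - c * ξ ^ (-e - 1)) * (y - x) =
      (y + q * y ^ (-e) - E) - (x + q * x ^ (-e) - E) := by
  obtain ⟨ξ, h1, h2⟩ := exists_hasDerivAt_eq_slope (fun y : ℝ => y + q * y ^ (-e) - E)
    (fun x => 1 - c * x ^ (-e - 1)) hxy
    (fun z hz => (con_g_deriv hqe (hx.trans_le hz.1) E).continuousAt.continuousWithinAt)
    (fun z hz => con_g_deriv hqe (hx.trans hz.1) E)
  refine ⟨ξ, h1, ?_⟩
  rw [h2, div_mul_cancel₀]
  intro h; linarith

lemma conR_pos (he : 0 < e) (hc : 0 < c) (hb : 0 < b) (hab : b < a) (hqe : q * e = c)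
    (hE : q * (b ^ (-e) - a ^ (-e)) = a - b) {y : ℝ} (hy : y ∈ Icc b a) :
    0 < conR e b a y := by
  have hq : 0 < q := by
    by_contra h
    have : q * e ≤ 0 := mul_nonpos_of_nonpos_of_nonneg (not_lt.1 h) he.le
    linarith
  have ha : 0 < a := hb.trans hab
  have hD := con_D hq hab hE
  have hpow : ∀ x : ℝ, 0 < x → x * x ^ (-e - 1) = x ^ (-e) := by
    intro x hx
    rw [Real.rpow_sub_one hx.ne']
    field_simp
  obtain ⟨ξ, hξ, hξ2⟩ := con_mvt (e := e) hqe (b + q * b ^ (-e)) hb hab
  have hga : a + q * a ^ (-e) - (b + q * b ^ (-e)) = 0 := by linarith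
  rw [hga] at hξ2
  have hξ0 : 1 - c * ξ ^ (-e - 1) = 0 := by
    have h1 : (1 - c * ξ ^ (-e - 1)) * (a - b) = 0 := by rw [hξ2]; ring
    rcases mul_eq_zero.1 h1 with h | h
    · exact h
    · linarith
  have hk : (b ^ (-e) - a ^ (-e))⁻¹ * (b ^ (-e) - a ^ (-e)) = 1 := inv_mul_cancel₀ hD.ne'
  have hq' : q = (b ^ (-e) - a ^ (-e))⁻¹ * (a - b) := by
    rw [← hE]
    linear_combination (-q) * hk
  rcases eq_or_lt_of_le hy.1 with h | h
  · -- `y = b`
    subst h
    have h1 := con_dec (c := c) he hc hb hξ.1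
    rw [hξ0] at h1
    have h2 : 0 < -b + c * b ^ (-e) := by
      rw [← hpow b hb]
      have := mul_neg_of_pos_of_neg hb h1
      linarith
    have h3 : conR e b a b * (a - b) = -b + c * b ^ (-e) := by
      unfold conR
      rw [dslope_of_ne _ hab.ne, dslope_same, slope_def_field,
        (Real.hasDerivAt_rpow_const (p := 1 - e) (Or.inl hb.ne')).deriv, pow1 hb, pow1 ha,
        show (1 - e - 1 : ℝ) = -e by ring]
      have h1 : (b * b ^ (-e) - a * a ^ (-e)) / (b - a) * (b - a) =
        b * b ^ (-e) - a * a ^ (-e) := div_mul_cancel₀ _ (by intro h; linarith)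
      set s1 := (b * b ^ (-e) - a * a ^ (-e)) / (b - a)
      set A := a ^ (-e)
      set B := b ^ (-e)
      set κ := (B - A)⁻¹
      rw [← hqe]
      linear_combination (-κ) * h1 - a * hk + (-e * B) * hq'
    by_contra hcon
    have := mul_nonpos_of_nonpos_of_nonneg (not_lt.1 hcon) (sub_pos.2 hab).le
    linarith
  · rcases eq_or_lt_of_le hy.2 with h' | h'
    · subst h'
      have h1 := con_dec (c := c) he hc (hb.trans hξ.1) hξ.2
      rw [hξ0] at h1
      have h2 : 0 < y - c * y ^ (-e) := by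
        rw [← hpow y ha]
        have := mul_pos ha h1
        linarith
      have h3 : conR e b y y * (y - b) = y - c * y ^ (-e) := by
        unfold conR
        rw [dslope_of_ne _ hab.ne', dslope_same, slope_def_field,
          (Real.hasDerivAt_rpow_const (p := 1 - e) (Or.inl ha.ne')).deriv, pow1 hb, pow1 ha,
          show (1 - e - 1 : ℝ) = -e by ring]
        have h1 : (y * y ^ (-e) - b * b ^ (-e)) / (y - b) * (y - b) =
          y * y ^ (-e) - b * b ^ (-e) := div_mul_cancel₀ _ (by intro h; linarith)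
        set s1 := (y * y ^ (-e) - b * b ^ (-e)) / (y - b)
        set A := y ^ (-e)
        set B := b ^ (-e)
        set κ := (B - A)⁻¹
        rw [← hqe]
        linear_combination (-κ) * h1 + b * hk + (e * A) * hq'
      by_contra hcon
      have := mul_nonpos_of_nonpos_of_nonneg (not_lt.1 hcon) (sub_pos.2 hab).le
      linarith
    · -- interior
      have hy0 : 0 < y := hb.trans h
      have hg : y + q * y ^ (-e) - (b + q * b ^ (-e)) < 0 := by
        by_contra hcon
        push Not at hcon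
        obtain ⟨ξ1, k1, k2⟩ := con_mvt (e := e) hqe (b + q * b ^ (-e)) hb h
        obtain ⟨ξ2, k3, k4⟩ := con_mvt (e := e) hqe (b + q * b ^ (-e)) hy0 h'
        rw [hga] at k4
        have k5 : 0 ≤ 1 - c * ξ1 ^ (-e - 1) := by
          by_contra h5
          have := mul_neg_of_neg_of_pos (not_le.1 h5) (sub_pos.2 h)
          linarith
        have k6 : 1 - c * ξ2 ^ (-e - 1) ≤ 0 := by
          by_contra h5
          have := mul_pos (not_le.1 h5) (sub_pos.2 h')
          linarith
        have k7 := con_dec (c := c) he hc (hb.trans k1.1) (k1.2.trans k3.1)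
        linarith
      have h1 := conR_mul hb hab hq hE ⟨h, h'⟩
      have h2 : 0 < conR e b a y * ((y - b) * (a - y)) := by
        rw [h1]
        have := mul_neg_of_pos_of_neg hy0 hg
        linarith
      exact pos_of_mul_pos_left h2 (mul_pos (sub_pos.2 h) (sub_pos.2 h')).le

lemma conR_Rr (hb : 0 < b) (hab : b < a) (hq : 0 < q)
    (hE : q * (b ^ (-e) - a ^ (-e)) = a - b) {y : ℝ} (hy : y ∈ Ioo b a) :
    conR e b a y = Rr e (a / b) (y / b) := by
  have ha : 0 < a := hb.trans hab
  have hy0 : 0 < y := hb.trans hy.1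
  have hD := con_D hq hab hE
  unfold conR Rr
  rw [dslope_of_ne _ hy.2.ne, dslope_of_ne _ hy.1.ne', slope_def_field, slope_def_field]
  rw [Real.div_rpow ha.le hb.le, Real.div_rpow hy0.le hb.le, Real.div_rpow ha.le hb.le,
    pow1 hb, pow1 ha, pow1 hy0]
  have hB : 0 < b ^ (-e) := Real.rpow_pos_of_pos hb _
  set A := a ^ (-e)
  set B := b ^ (-e)
  set F := y ^ (-e)
  have h1 : a - y ≠ 0 := by have := hy.2; intro h; linarith
  have h2 : y - b ≠ 0 := by have := hy.1; intro h; linarith
  have h3 : y - a ≠ 0 := by have := hy.2; intro h; linarith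
  have h4 : B - A ≠ 0 := hD.ne'
  have e1 : 1 - A / B = (B - A) / B := by field_simp
  have e2 : a / b - y / b = (a - y) / b := by ring
  have e3 : y / b - 1 = (y - b) / b := by field_simp
  rw [e1, e2, e3]
  have e4 : (a * A / (b * B) - y * F / (b * B)) / ((a - y) / b) = (y * F - a * A) / (y - a) / B := by
    field_simp
    ring
  have e5 : (y * F / (b * B) - 1) / ((y - b) / b) = (y * F - b * B) / (y - b) / B := by
    field_simp
  rw [e4, e5]
  field_simp

end R

end

end Pool.Agent.R963.CA
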