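import Pool.Agent.R963.CA.Stm

set_option maxHeartbeats 400000

open scoped ContDiff Topology
open Set Filter MeasureTheory

namespace Pool.Agent.R963.CA

/-- inverse of the integral of a positive periodic even function -/
lemma con_angle (K : ℝ → ℝ) (hK : Continuous K) (hpos : ∀ x, 0 < K x)
    (hper : ∀ x, K (x + 2 * Real.pi) = K x) (hev : ∀ x, K (2 * Real.pi - x) = K x) :
    ∃ φ : ℝ → ℝ, φ 0 = 0 ∧ (∀ θ, HasDerivAt φ (1 / K (φ θ)) θ) ∧
      (∀ θ, φ (θ + 2 * ∫ x in (0:ℝ)..Real.pi, K x) = φ θ + 2 * Real.pi) ∧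
      Function.Bijective φ := by
  set Θ : ℝ → ℝ := fun x => ∫ t in (0:ℝ)..x, K t with hΘ
  have hint : ∀ u v, IntervalIntegrable K volume u v := fun u v => hK.intervalIntegrable u v
  have hd : ∀ x, HasDerivAt Θ (K x) x := fun x =>
    intervalIntegral.integral_hasDerivAt_right (hint 0 x)
      (hK.stronglyMeasurableAtFilter _ _) hK.continuousAt
  have hmono : StrictMono Θ := strictMono_of_deriv_pos (fun x => by
    rw [(hd x).deriv]; exact hpos x)
  have hP : ∫ t in (0:ℝ)..(2*Real.pi), K t = 2 * ∫ x in (0:ℝ)..Real.pi, K x := by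
    have h1 : ∫ t in Real.pi..(2*Real.pi), K t = ∫ x in (0:ℝ)..Real.pi, K x := by
      have h := intervalIntegral.integral_comp_sub_left (a := 0) (b := Real.pi) K (2 * Real.pi)
      simp only [hev] at h
      rw [h]
      congr 1 <;> ring
    rw [← intervalIntegral.integral_add_adjacent_intervals (hint 0 Real.pi) (hint _ _), h1]; ring
  have hKp : Function.Periodic K (2 * Real.pi) := hper
  have hΘper : ∀ x, Θ (x + 2 * Real.pi) = Θ x + 2 * ∫ x in (0:ℝ)..Real.pi, K x := by
    intro x
    simp only [hΘ]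
    rw [← intervalIntegral.integral_add_adjacent_intervals (hint 0 x) (hint x _),
      hKp.intervalIntegral_add_eq x 0, zero_add, hP]
  have hsurj : Function.Surjective Θ := by
    have hc : Continuous Θ := continuous_iff_continuousAt.2 fun x => (hd x).continuousAt
    refine hc.surjective ?_ ?_
    · exact hKp.tendsto_atTop_intervalIntegral_of_pos' (hint _ _) hpos Real.two_pi_pos
    · exact hKp.tendsto_atBot_intervalIntegral_of_pos' (hint _ _) hpos Real.two_pi_pos
  let I := hmono.orderIsoOfSurjective Θ hsurj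
  have hI : ∀ x, I x = Θ x := fun x => rfl
  have h1 : ∀ θ, Θ (I.symm θ) = θ := fun θ => I.apply_symm_apply θ
  have h2 : ∀ x, I.symm (Θ x) = x := fun x => I.symm_apply_apply x
  refine ⟨I.symm, ?_, ?_, ?_, I.symm.bijective⟩
  · have h0 : Θ 0 = 0 := by simp [hΘ]
    have := h2 0
    rwa [h0] at this
  · intro θ
    rw [one_div]
    exact HasDerivAt.of_local_left_inverse I.symm.continuous.continuousAt (hd _) (hpos _).ne'
      (Eventually.of_forall h1)
  · intro θ
    have : θ + 2 * ∫ x in (0:ℝ)..Real.pi, K x = Θ (I.symm θ + 2 * Real.pi) := by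
      rw [hΘper, h1]
    rw [this, h2]

/-- derivative of a continuous function from its square -/
lemma con_sq {V F : ℝ → ℝ} {F' θ : ℝ} (hV : ContinuousAt V θ) (h0 : V θ ≠ 0)
    (hF : HasDerivAt F F' θ) (h : ∀ t, V t ^ 2 = F t) : HasDerivAt V (F' / (2 * V θ)) θ := by
  rcases lt_or_gt_of_ne h0 with h1 | h1
  · have hF0 : F θ ≠ 0 := by rw [← h]; exact pow_ne_zero _ h0
    have h2 := (hF.sqrt hF0).neg
    have h3 : √(F θ) = -V θ := by
      rw [← h, Real.sqrt_sq_eq_abs, abs_of_neg h1]
    rw [h3] at h2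
    have h4 : ∀ᶠ t in 𝓝 θ, V t < 0 := hV.eventually (gt_mem_nhds h1)
    refine (h2.congr_of_eventuallyEq ?_).congr_deriv ?_
    · filter_upwards [h4] with t ht
      show V t = -√(F t)
      rw [← h, Real.sqrt_sq_eq_abs, abs_of_neg ht, neg_neg]
    · field_simp
  · have hF0 : F θ ≠ 0 := by rw [← h]; exact pow_ne_zero _ h0
    have h2 := (hF.sqrt hF0)
    have h3 : √(F θ) = V θ := by
      rw [← h, Real.sqrt_sq_eq_abs, abs_of_pos h1]
    rw [h3] at h2
    have h4 : ∀ᶠ t in 𝓝 θ, 0 < V t := hV.eventually (lt_mem_nhds h1)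
    refine (h2.congr_of_eventuallyEq ?_)
    filter_upwards [h4] with t ht
    show V t = √(F t)
    rw [← h, Real.sqrt_sq_eq_abs, abs_of_pos ht]

/-- derivative off a countable set -/
lemma con_off {V W : ℝ → ℝ} {S : Set ℝ} (hS : S.Countable) (hV : Continuous V)
    (hW : Continuous W) (h : ∀ θ, θ ∉ S → HasDerivAt V (W θ) θ) (θ : ℝ) :
    HasDerivAt V (W θ) θ := by
  have h1 : ∀ t, V t = V 0 + ∫ x in (0:ℝ)..t, W x := by
    intro t
    have := MeasureTheory.integral_eq_of_hasDerivAt_off_countable (a := 0) (b := t) V W hS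
      hV.continuousOn (fun x hx => h x hx.2) (hW.intervalIntegrable _ _)
    linarith
  have h2 : HasDerivAt (fun t => V 0 + ∫ x in (0:ℝ)..t, W x) (W θ) θ :=
    (intervalIntegral.integral_hasDerivAt_right (hW.intervalIntegrable _ _)
      (hW.stronglyMeasurableAtFilter _ _) hW.continuousAt).const_add _
  have h3 : V = fun t => V 0 + ∫ x in (0:ℝ)..t, W x := funext h1
  rw [h3]
  simpa using h2

end Pool.Agent.R963.CA
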