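import Pool.Agent.R963.CA.Stm

/-!
# CA-12a: concavity of `1/D`
-/

open Set MeasureTheory

namespace Pool.Agent.R963.CA

/-- the kernel of the second divided difference of `x ↦ x^c` -/
noncomputable def concK (c ρ t w : ℝ) : ℝ := t ^ (c - 1) * t / ((t + 1) * (t + w) * (t + ρ))

/-- the second divided difference -/
noncomputable def concD (c ρ w : ℝ) : ℝ :=
  ((ρ ^ c - w ^ c) / (ρ - w) - (w ^ c - 1) / (w - 1)) / (ρ - 1)

theorem concD_repr (c ρ : ℝ) (hc : 1 < c) (hc2 : c < 2) :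
    ∃ μ : Measure ℝ, ∀ w ∈ Ioo 1 ρ, IntegrableOn (fun t => concK c ρ t w) (Ioi 0) μ ∧
      concD c ρ w = ∫ t in Ioi 0, concK c ρ t w ∂μ := by
  obtain ⟨μ, hμ⟩ := Real.exists_measure_rpow_eq_integral_rpowIntegrand₁₂ (p := c) ⟨hc, hc2⟩
  refine ⟨μ, fun w hw => ?_⟩
  obtain ⟨hw1, hw2⟩ := hw
  have h1 := hμ 1 (by simp)
  have hw' := hμ w (by rw [mem_Ici]; linarith)
  have hρ' := hμ ρ (by rw [mem_Ici]; linarith)
  rw [Real.one_rpow] at h1
  set g : ℝ → ℝ → ℝ := fun x t => Real.rpowIntegrand₁₂ c t x with hg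
  have i1 : Integrable (g 1) (μ.restrict (Ioi 0)) := h1.1
  have iw : Integrable (g w) (μ.restrict (Ioi 0)) := hw'.1
  have iρ : Integrable (g ρ) (μ.restrict (Ioi 0)) := hρ'.1
  have e1 : (1 : ℝ) = ∫ t in Ioi 0, g 1 t ∂μ := h1.2
  have ew : w ^ c = ∫ t in Ioi 0, g w t ∂μ := hw'.2
  have eρ : ρ ^ c = ∫ t in Ioi 0, g ρ t ∂μ := hρ'.2
  have hA : Integrable (fun t => (g ρ t - g w t) / (ρ - w)) (μ.restrict (Ioi 0)) :=
    (iρ.sub iw).div_const _
  have hB : Integrable (fun t => (g w t - g 1 t) / (w - 1)) (μ.restrict (Ioi 0)) :=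
    (iw.sub i1).div_const _
  have hG : Integrable (fun t => ((g ρ t - g w t) / (ρ - w) - (g w t - g 1 t) / (w - 1)) / (ρ - 1))
      (μ.restrict (Ioi 0)) := (hA.sub hB).div_const _
  have hcongr : ∀ t ∈ Ioi (0 : ℝ),
      ((g ρ t - g w t) / (ρ - w) - (g w t - g 1 t) / (w - 1)) / (ρ - 1) = concK c ρ t w := by
    intro t ht
    rw [mem_Ioi] at ht
    have a1 : ρ - w ≠ 0 := by linarith
    have a2 : w - 1 ≠ 0 := by linarith
    have a3 : ρ - 1 ≠ 0 := by linarith
    have a4 : t + 1 ≠ 0 := by linarith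
    have a5 : t + w ≠ 0 := by linarith
    have a6 : t + ρ ≠ 0 := by linarith
    have a7 : t ≠ 0 := ht.ne'
    simp only [hg, Real.rpowIntegrand₁₂, concK]
    generalize t ^ (c - 1) = P
    field_simp
    ring
  constructor
  · exact hG.congr (by
      filter_upwards [ae_restrict_mem measurableSet_Ioi] with t ht
      exact hcongr t ht)
  · rw [← setIntegral_congr_fun measurableSet_Ioi hcongr, integral_div, integral_sub hA hB,
      integral_div, integral_div, integral_sub iρ iw, integral_sub iw i1, ← eρ, ← ew, ← e1]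
    rfl

theorem concD_pos (c ρ w : ℝ) (hc : 1 < c) (hw : w ∈ Ioo 1 ρ) : 0 < concD c ρ w := by
  obtain ⟨h1, h2⟩ := hw
  have h := (strictConvexOn_rpow hc).slope_strict_mono_adjacent (x := 1) (y := w) (z := ρ)
    (by simp) (by rw [mem_Ici]; linarith) h1 h2
  rw [Real.one_rpow] at h
  unfold concD
  apply div_pos
  · linarith
  · linarith

theorem t_conc : S_conc := by
  intro c ρ hc hc2 _
  refine ⟨⟨convex_Ioo 1 ρ, ?_⟩, fun w hw => concD_pos c ρ w hc hw⟩
  intro w₁ hw₁ w₂ hw₂ a b ha hb hab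
  obtain ⟨μ, hμ⟩ := concD_repr c ρ hc hc2
  set w : ℝ := a • w₁ + b • w₂ with hw
  have hwI : w ∈ Ioo 1 ρ := convex_Ioo 1 ρ hw₁ hw₂ ha hb hab
  obtain ⟨i1, e1⟩ := hμ w₁ hw₁
  obtain ⟨i2, e2⟩ := hμ w₂ hw₂
  obtain ⟨iw, ew⟩ := hμ w hwI
  have p1 := concD_pos c ρ w₁ hc hw₁
  have p2 := concD_pos c ρ w₂ hc hw₂
  have pw := concD_pos c ρ w hc hwI
  show a • (concD c ρ w₁)⁻¹ + b • (concD c ρ w₂)⁻¹ ≤ (concD c ρ w)⁻¹
  simp only [smul_eq_mul]
  set A : ℝ := (concD c ρ w₁)⁻¹ with hA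
  set B : ℝ := (concD c ρ w₂)⁻¹ with hB
  set W : ℝ := (concD c ρ w)⁻¹ with hW
  have hint : 0 ≤ ∫ t in Ioi 0, (a * A ^ 2 * concK c ρ t w₁ + b * B ^ 2 * concK c ρ t w₂ +
      (W ^ 2 - 2 * (a * A + b * B) * W) * concK c ρ t w) ∂μ := by
    refine setIntegral_nonneg measurableSet_Ioi fun t ht => ?_
    rw [mem_Ioi] at ht
    have hk : 0 < t ^ (c - 1) * t / ((t + 1) * (t + ρ)) := by
      have := Real.rpow_pos_of_pos ht (c - 1)
      positivity
    have q1 : 0 < t + w₁ := by linarith [hw₁.1]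
    have q2 : 0 < t + w₂ := by linarith [hw₂.1]
    have qw : 0 < t + w := by linarith [hwI.1]
    have qe : t + w = a * (t + w₁) + b * (t + w₂) := by
      rw [hw, smul_eq_mul, smul_eq_mul]
      linear_combination (-t) * hab
    have hid : a * A ^ 2 * concK c ρ t w₁ + b * B ^ 2 * concK c ρ t w₂ +
        (W ^ 2 - 2 * (a * A + b * B) * W) * concK c ρ t w =
        t ^ (c - 1) * t / ((t + 1) * (t + ρ)) *
          (a * ((A - (t + w₁) * (W / (t + w))) ^ 2 / (t + w₁)) +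
            b * ((B - (t + w₂) * (W / (t + w))) ^ 2 / (t + w₂))) := by
      have r1 : a * ((A - (t + w₁) * (W / (t + w))) ^ 2 / (t + w₁)) +
            b * ((B - (t + w₂) * (W / (t + w))) ^ 2 / (t + w₂)) =
          a * A ^ 2 / (t + w₁) + b * B ^ 2 / (t + w₂) - 2 * (a * A + b * B) * (W / (t + w)) +
            (a * (t + w₁) + b * (t + w₂)) * (W / (t + w)) ^ 2 := by
        field_simp
        ring
      rw [r1, ← qe]
      unfold concK
      generalize t ^ (c - 1) = P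
      have q3 : t + 1 ≠ 0 := by linarith
      have q4 : t + ρ ≠ 0 := by linarith
      field_simp
      ring
    rw [hid]
    positivity
  have j1 : Integrable (fun t => a * A ^ 2 * concK c ρ t w₁) (μ.restrict (Ioi 0)) :=
    i1.const_mul _
  have j2 : Integrable (fun t => b * B ^ 2 * concK c ρ t w₂) (μ.restrict (Ioi 0)) :=
    i2.const_mul _
  have jw : Integrable (fun t => (W ^ 2 - 2 * (a * A + b * B) * W) * concK c ρ t w)
    (μ.restrict (Ioi 0)) := iw.const_mul _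
  have j12 : Integrable (fun t => a * A ^ 2 * concK c ρ t w₁ + b * B ^ 2 * concK c ρ t w₂)
    (μ.restrict (Ioi 0)) := j1.add j2
  rw [integral_add j12 jw, integral_add j1 j2, integral_const_mul, integral_const_mul,
    integral_const_mul, ← e1, ← e2, ← ew] at hint
  have f1 : A ^ 2 * concD c ρ w₁ = A := by rw [hA]; field_simp
  have f2 : B ^ 2 * concD c ρ w₂ = B := by rw [hB]; field_simp
  have f3 : W * concD c ρ w = 1 := by rw [hW]; field_simp
  have f4 : a * A ^ 2 * concD c ρ w₁ + b * B ^ 2 * concD c ρ w₂ +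
      (W ^ 2 - 2 * (a * A + b * B) * W) * concD c ρ w = W - (a * A + b * B) := by
    linear_combination a * f1 + b * f2 + (W - 2 * (a * A + b * B)) * f3
  rw [f4] at hint
  linarith

end Pool.Agent.R963.CA
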