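import Pool.Agent.R963.CA.ConA
import Pool.Agent.R963.CA.ConB

set_option maxHeartbeats 400000

open scoped ContDiff Topology
open Set Filter MeasureTheory

namespace Pool.Agent.R963.CA

theorem t_con : S_con := by
  intro s c b a hs hc hb hab hE0
  have ha : 0 < a := hb.trans hab
  obtain ⟨e, he⟩ : ∃ e, e = (s - 2) / 2 := ⟨_, rfl⟩
  obtain ⟨q, hq⟩ : ∃ q, q = c / e := ⟨_, rfl⟩
  have he0 : 0 < e := by rw [he]; linarith
  have hq0 : 0 < q := by rw [hq]; exact div_pos hc he0
  have hqe : q * e = c := by rw [hq]; field_simp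
  rw [← he, ← hq] at hE0
  have hE : q * (b ^ (-e) - a ^ (-e)) = a - b := hE0
  obtain ⟨h, hh⟩ : ∃ h, h = (a - b) / 2 := ⟨_, rfl⟩
  obtain ⟨M, hM⟩ : ∃ M, M = (a + b) / 2 := ⟨_, rfl⟩
  have hh0 : 0 < h := by rw [hh]; linarith
  have hMb : M - h = b := by rw [hM, hh]; ring
  have hMa : M + h = a := by rw [hM, hh]; ring
  set Y : ℝ → ℝ := fun ψ => M - h * Real.cos ψ with hY
  have hYc : Continuous Y := by fun_prop
  have hYb : ∀ ψ, Y ψ ∈ Icc b a := by
    intro ψ
    have h1 := Real.cos_le_one ψ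
    have h2 := Real.neg_one_le_cos ψ
    constructor
    · show b ≤ M - h * Real.cos ψ
      nlinarith
    · show M - h * Real.cos ψ ≤ a
      nlinarith
  have hY0 : ∀ ψ, 0 < Y ψ := fun ψ => hb.trans_le (hYb ψ).1
  set R : ℝ → ℝ := fun ψ => conR e b a (Y ψ) with hR
  have hRpos : ∀ ψ, 0 < R ψ := fun ψ => conR_pos he0 hc hb hab hqe hE (hYb ψ)
  have hRc : Continuous R :=
    (conR_cont (e := e) hb ha).comp_continuous hYc (fun ψ => hY0 ψ)
  set K : ℝ → ℝ := fun ψ => 1 / (2 * √(R ψ)) with hK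
  have hsq : ∀ ψ, 0 < √(R ψ) := fun ψ => Real.sqrt_pos.2 (hRpos ψ)
  have hKc : Continuous K := by
    refine continuous_const.div (continuous_const.mul hRc.sqrt) (fun ψ => ?_)
    have := hsq ψ
    positivity
  have hKpos : ∀ ψ, 0 < K ψ := fun ψ => by
    have := hsq ψ
    show 0 < 1 / (2 * √(R ψ))
    positivity
  have hKper : ∀ x, K (x + 2 * Real.pi) = K x := by
    intro x
    simp only [hK, hR, hY, Real.cos_add_two_pi]
  have hKev : ∀ x, K (2 * Real.pi - x) = K x := by
    intro x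
    simp only [hK, hR, hY, Real.cos_two_pi_sub]
  -- `τ`
  have htau : ∫ x in (0:ℝ)..Real.pi, K x = tau s (a / b) := by
    unfold tau
    rw [← he, ← intervalIntegral.integral_const_mul]
    refine intervalIntegral.integral_congr_uIoo (fun ψ hψ => ?_)
    rw [uIoo_of_le Real.pi_pos.le] at hψ
    have h1 : Y ψ ∈ Ioo b a := by
      have h2 : Real.cos ψ < 1 := by
        simpa using Real.cos_lt_cos_of_nonneg_of_le_pi le_rfl hψ.2.le hψ.1
      have h3 : -1 < Real.cos ψ := by
        simpa using Real.cos_lt_cos_of_nonneg_of_le_pi hψ.1.le le_rfl hψ.2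
      constructor
      · show b < M - h * Real.cos ψ
        nlinarith
      · show M - h * Real.cos ψ < a
        nlinarith
    have h2 : Y ψ / b = yy (a / b) ψ := by
      simp only [hY, yy, hM, hh]
      field_simp
      ring
    show 1 / (2 * √(conR e b a (Y ψ))) = 1 / 2 * (1 / √(Rr e (a / b) (yy (a / b) ψ)))
    rw [conR_Rr hb hab hq0 hE h1, h2, one_div_mul_one_div]
  have htpos : 0 < tau s (a / b) := by
    rw [← htau]
    exact intervalIntegral.intervalIntegral_pos_of_pos (hKc.intervalIntegrable _ _) hKpos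
      Real.pi_pos
  obtain ⟨φ, hφ0, hφd, hφp, hφb⟩ := con_angle K hKc hKpos hKper hKev
  rw [htau] at hφp
  have hφc : Continuous φ := continuous_iff_continuousAt.2 fun θ => (hφd θ).continuousAt
  -- the solution
  set y : ℝ → ℝ := fun θ => Y (φ θ) with hy
  have hyc : Continuous y := hYc.comp hφc
  have hy0 : ∀ θ, 0 < y θ := fun θ => hY0 _
  set V : ℝ → ℝ := fun θ => h * Real.sin (φ θ) * √(R (φ θ)) / √(y θ) with hV
  have hVc : Continuous V := by
    refine Continuous.div ?_ hyc.sqrt (fun θ => (Real.sqrt_pos.2 (hy0 θ)).ne')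
    exact (continuous_const.mul (Real.continuous_sin.comp hφc)).mul (hRc.comp hφc).sqrt
  have hyd : ∀ θ, HasDerivAt y (2 * √(y θ) * V θ) θ := by
    intro θ
    have h1 : HasDerivAt Y (h * Real.sin (φ θ)) (φ θ) := by
      have := ((Real.hasDerivAt_cos (φ θ)).const_mul h).const_sub M
      refine this.congr_deriv ?_
      ring
    have h2 := h1.comp θ (hφd θ)
    refine h2.congr_deriv ?_
    have h3 := Real.sqrt_pos.2 (hy0 θ)
    have h4 := hsq (φ θ)
    simp only [hV, hK]
    field_simp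
  have hUd : ∀ θ, HasDerivAt (fun θ => √(y θ)) (V θ) θ := by
    intro θ
    refine ((hyd θ).sqrt (hy0 θ).ne').congr_deriv ?_
    have h3 := Real.sqrt_pos.2 (hy0 θ)
    field_simp
  have hV2 : ∀ θ, V θ ^ 2 = -(y θ + q * y θ ^ (-e) - (b + q * b ^ (-e))) := by
    intro θ
    have h3 := hy0 θ
    have h1 : V θ ^ 2 * y θ = R (φ θ) * ((y θ - b) * (a - y θ)) := by
      have hs1 : √(R (φ θ)) ^ 2 = R (φ θ) := Real.sq_sqrt (hRpos _).le
      have hs2 : √(y θ) ^ 2 = y θ := Real.sq_sqrt h3.le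
      have h5 : (y θ - b) * (a - y θ) = h ^ 2 * Real.sin (φ θ) ^ 2 := by
        rw [Real.sin_sq]
        show (M - h * Real.cos (φ θ) - b) * (a - (M - h * Real.cos (φ θ))) = _
        rw [hM, hh]
        ring
      rw [h5]
      simp only [hV]
      rw [div_pow, mul_pow, mul_pow, hs1, hs2]
      field_simp
    have hg : R (φ θ) * ((y θ - b) * (a - y θ)) =
        -(y θ * (y θ + q * y θ ^ (-e) - (b + q * b ^ (-e)))) := by
      rcases eq_or_lt_of_le (hYb (φ θ)).1 with k | k
      · have k' : y θ = b := k.symm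
        rw [k']; ring
      · rcases eq_or_lt_of_le (hYb (φ θ)).2 with k2 | k2
        · have k' : y θ = a := k2
          rw [k']
          linear_combination (-a) * hE
        · exact conR_mul hb hab hq0 hE ⟨k, k2⟩
    have h6 : V θ ^ 2 * y θ = -(y θ + q * y θ ^ (-e) - (b + q * b ^ (-e))) * y θ := by
      rw [h1, hg]; ring
    exact mul_right_cancel₀ h3.ne' h6
  have hF : ∀ θ, HasDerivAt (fun θ => -(y θ + q * y θ ^ (-e) - (b + q * b ^ (-e))))
      (-((1 - c * y θ ^ (-e - 1)) * (2 * √(y θ) * V θ))) θ := by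
    intro θ
    exact ((con_g_deriv hqe (hy0 θ) (b + q * b ^ (-e))).comp θ (hyd θ)).neg
  have hVd0 : ∀ θ, V θ ≠ 0 → HasDerivAt V (-√(y θ) + c * (√(y θ)) ^ (1 - s)) θ := by
    intro θ hθ
    refine (con_sq hVc.continuousAt hθ (hF θ) hV2).congr_deriv ?_
    have h3 := hy0 θ
    have h4 : √(y θ) ^ (1 - s) = y θ ^ (-e - 1) * √(y θ) := by
      rw [Real.sqrt_eq_rpow, ← Real.rpow_mul h3.le, ← Real.rpow_add h3]
      congr 1
      rw [he]; ring
    rw [h4]
    field_simp
    ring
  have hcount : {θ | V θ = 0}.Countable := by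
    have h1 : {θ | V θ = 0} ⊆ φ ⁻¹' (range (fun n : ℤ => (n:ℝ) * Real.pi)) := by
      intro θ hθ
      have h2 : h * Real.sin (φ θ) * √(R (φ θ)) / √(y θ) = 0 := hθ
      have h3 := Real.sqrt_pos.2 (hy0 θ)
      have h4 := hsq (φ θ)
      have h5 : Real.sin (φ θ) = 0 := by
        rcases div_eq_zero_iff.1 h2 with h6 | h6
        · rcases mul_eq_zero.1 h6 with h7 | h7
          · rcases mul_eq_zero.1 h7 with h8 | h8
            · exact absurd h8 hh0.ne'
            · exact h8
          · exact absurd h7 h4.ne'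
        · exact absurd h6 h3.ne'
      obtain ⟨n, hn⟩ := Real.sin_eq_zero_iff.1 h5
      exact ⟨n, hn⟩
    exact ((countable_range _).preimage_of_injOn hφb.1.injOn).mono h1
  have hVd : ∀ θ, HasDerivAt V (-√(y θ) + c * (√(y θ)) ^ (1 - s)) θ := by
    refine con_off hcount hVc ?_ (fun θ hθ => hVd0 θ hθ)
    refine hyc.sqrt.neg.add (continuous_const.mul ?_)
    exact hyc.sqrt.rpow_const (fun θ => Or.inl (Real.sqrt_pos.2 (hy0 θ)).ne')
  refine ⟨htpos, fun θ => √(y θ), V, ⟨fun θ => Real.sqrt_pos.2 (hy0 θ), hUd, hVd⟩,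
    ?_, ?_, ?_, ?_, ?_⟩
  · show √(M - h * Real.cos (φ 0)) = √b
    rw [hφ0, Real.cos_zero, mul_one, hMb]
  · show h * Real.sin (φ 0) * √(R (φ 0)) / √(y 0) = 0
    rw [hφ0, Real.sin_zero]; simp
  · intro θ
    show √(M - h * Real.cos (φ (θ + 2 * tau s (a / b)))) = √(M - h * Real.cos (φ θ))
    rw [hφp, Real.cos_add_two_pi]
  · have hper' : Function.Periodic (fun θ => φ θ - θ * (Real.pi / tau s (a/b)))
        (2 * tau s (a/b)) := by
      intro θ
      simp only [hφp]
      field_simp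
      ring
    have hφm : ∀ m : ℤ, φ (2 * m * tau s (a / b)) = m * (2 * Real.pi) := by
      intro m
      have h1 := hper'.int_mul m 0
      simp only [hφ0, zero_add] at h1
      have h2 : (m:ℝ) * (2 * tau s (a/b)) = 2 * m * tau s (a/b) := by ring
      rw [h2] at h1
      have h3 : 2 * (m:ℝ) * tau s (a/b) * (Real.pi / tau s (a/b)) = m * (2 * Real.pi) := by
        field_simp
      rw [h3] at h1
      linarith
    intro θ
    constructor
    · intro hU
      have h1 : y θ = b := (Real.sqrt_inj (hy0 θ).le hb.le).1 hU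
      have h2 : Real.cos (φ θ) = 1 := by
        have h3 : M - h * Real.cos (φ θ) = b := h1
        have h4 : h * (Real.cos (φ θ) - 1) = 0 := by linear_combination hMb - h3
        rcases mul_eq_zero.1 h4 with h5 | h5
        · exact absurd h5 hh0.ne'
        · linarith
      obtain ⟨m, hm⟩ := (Real.cos_eq_one_iff _).1 h2
      refine ⟨m, hφb.1 ?_⟩
      rw [hφm, hm]
    · rintro ⟨m, rfl⟩
      show √(M - h * Real.cos (φ (2 * m * tau s (a / b)))) = √b
      rw [hφm, Real.cos_int_mul_two_pi, mul_one, hMb]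
  · obtain ⟨θ, hθ⟩ := hφb.2 (Real.pi / 2)
    refine ⟨θ, ?_⟩
    show h * Real.sin (φ θ) * √(R (φ θ)) / √(y θ) ≠ 0
    rw [hθ, Real.sin_pi_div_two]
    have h3 := Real.sqrt_pos.2 (hy0 θ)
    have h4 := hsq (Real.pi / 2)
    positivity

end Pool.Agent.R963.CA
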