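import Pool.Agent.R963.CA.Lim1

/-!
CA-13a: `t_cont : S_cont` is proved in `Lim1.lean` (same namespace), together with `t_lim1`.
-/

namespace Pool.Agent.R963.CA

theorem t_cont_ok : S_cont := t_cont

end Pool.Agent.R963.CA
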