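import Pool.Agent.R963.CA.Stm

/-!
# Duality of power laws (piece CA-14)
-/

open scoped ContDiff Topology
open Set Filter MeasureTheory

namespace Pool.Agent.R963.CA

namespace DualAux

/-- the energy -/
noncomputable def En (s c : ℝ) (u v : ℝ → ℝ) (θ : ℝ) : ℝ :=
  v θ ^ 2 / 2 + u θ ^ 2 / 2 + c / (s - 2) * (u θ) ^ (-(s - 2))

theorem En_deriv {s c : ℝ} {u v : ℝ → ℝ} (hs : s ≠ 2) (hS : Sol s c u v) (θ : ℝ) :
    HasDerivAt (En s c u v) 0 θ := by
  have h1 := ((hS.dv θ).pow 2).div_const 2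
  have h2 := ((hS.du θ).pow 2).div_const 2
  have h3 := ((hS.du θ).rpow_const (p := -(s - 2)) (Or.inl (hS.pos θ).ne')).const_mul (c / (s - 2))
  have h := (h1.add h2).add h3
  have hs' : s - 2 ≠ 0 := sub_ne_zero.2 hs
  refine HasDerivAt.congr_deriv h ?_
  have e : -(s - 2) - 1 = 1 - s := by ring
  rw [e]
  field_simp
  ring

theorem En_const {s c : ℝ} {u v : ℝ → ℝ} (hs : s ≠ 2) (hS : Sol s c u v) (θ θ' : ℝ) :
    En s c u v θ = En s c u v θ' := by
  apply is_const_of_deriv_eq_zero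
  · exact fun x => (En_deriv hs hS x).differentiableAt
  · exact fun x => (En_deriv hs hS x).deriv

theorem min_exists {u : ℝ → ℝ} {P : ℝ} (hP : 0 < P) (hu : Continuous u)
    (hper : ∀ θ, u (θ + P) = u θ) : ∃ θ₁, ∀ θ, u θ₁ ≤ u θ := by
  obtain ⟨θ₁, -, h⟩ := (isCompact_Icc (a := (0:ℝ)) (b := P)).exists_isMinOn
    (nonempty_Icc.2 hP.le) hu.continuousOn
  refine ⟨θ₁, fun θ => ?_⟩
  have hp : Function.Periodic u P := hper
  obtain ⟨y, hy, he⟩ := hp.exists_mem_Ico₀ hP θ
  rw [he]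
  exact h ⟨hy.1, hy.2.le⟩

theorem min_facts {s c : ℝ} {u v : ℝ → ℝ} (hS : Sol s c u v) {θ₁ : ℝ}
    (hmin : ∀ θ, u θ₁ ≤ u θ) : v θ₁ = 0 ∧ 0 ≤ -u θ₁ + c * (u θ₁) ^ (1 - s) := by
  have hv0 : v θ₁ = 0 := by
    have hl : IsLocalMin u θ₁ := Filter.Eventually.of_forall hmin
    exact hl.hasDerivAt_eq_zero (hS.du θ₁)
  refine ⟨hv0, ?_⟩
  by_contra hneg
  rw [not_le] at hneg
  have hd := hS.dv θ₁
  rw [hasDerivAt_iff_tendsto_slope] at hd
  have hev : ∀ᶠ x in 𝓝[≠] θ₁, slope v θ₁ x < 0 := hd.eventually (gt_mem_nhds hneg)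
  have hev2 : ∀ᶠ x in 𝓝[>] θ₁, slope v θ₁ x < 0 :=
    hev.filter_mono (nhdsWithin_mono _ (fun x hx => ne_of_gt hx))
  obtain ⟨b, hb, hb'⟩ := (mem_nhdsGT_iff_exists_Ioo_subset).1 hev2
  rw [mem_Ioi] at hb
  set y := (θ₁ + b) / 2 with hy
  have hy1 : θ₁ < y := by rw [hy]; linarith
  have hy2 : y < b := by rw [hy]; linarith
  obtain ⟨ξ, hξ, he⟩ := exists_hasDerivAt_eq_slope u v hy1
    (fun x _ => (hS.du x).continuousAt.continuousWithinAt) (fun x _ => hS.du x)
  have h1 : slope v θ₁ ξ < 0 := hb' ⟨hξ.1, hξ.2.trans hy2⟩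
  rw [slope_def_field, hv0, sub_zero] at h1
  have h2 : 0 < ξ - θ₁ := sub_pos.2 hξ.1
  have h3 : v ξ < 0 := by
    rw [div_neg_iff] at h1
    rcases h1 with h1 | h1
    · linarith [h1.2]
    · exact h1.1
  have h4 : 0 ≤ (u y - u θ₁) / (y - θ₁) := div_nonneg (sub_nonneg.2 (hmin y)) (by linarith)
  linarith

/-- the sign of the energy -/
theorem En_sign {s c P : ℝ} {u v : ℝ → ℝ} (hs0 : 0 < s) (hs : s ≠ 2) (hc : 0 < c) (hP : 0 < P)
    (hS : Sol s c u v) (hper : ∀ θ, u (θ + P) = u θ) : 0 < (s - 2) * En s c u v 0 := by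
  rcases lt_or_gt_of_ne hs with h | h
  · obtain ⟨θ₁, hmin⟩ := min_exists hP
      (continuous_iff_continuousAt.2 fun x => (hS.du x).continuousAt) hper
    obtain ⟨hv, hq⟩ := min_facts hS hmin
    rw [En_const hs hS 0 θ₁]
    unfold En
    rw [hv]
    have hu := hS.pos θ₁
    set w := u θ₁ with hw
    have e1 : w ^ (-(s - 2)) = w * w ^ (1 - s) := by
      rw [← Real.rpow_one_add' hu.le (by intro h0; linarith)]
      congr 1; ring
    rw [e1]
    have hz : 0 < w ^ (1 - s) := Real.rpow_pos_of_pos hu _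
    set z := w ^ (1 - s) with hzdef
    have hs' : s - 2 ≠ 0 := sub_ne_zero.2 hs
    have e2 : (s - 2) * ((0:ℝ) ^ 2 / 2 + w ^ 2 / 2 + c / (s - 2) * (w * z)) =
        (s - 2) * (w ^ 2 / 2) + c * (w * z) := by
      field_simp
      ring
    rw [e2]
    have h5 : w ≤ c * z := by linarith
    have h6 : w * w ≤ w * (c * z) := mul_le_mul_of_nonneg_left h5 hu.le
    have h7 : 0 < w * w := mul_pos hu hu
    nlinarith
  · have hb : 0 < s - 2 := by linarith
    have hu := hS.pos 0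
    have hz : 0 < (u 0) ^ (-(s - 2)) := Real.rpow_pos_of_pos hu _
    have : 0 < En s c u v 0 := by
      unfold En
      positivity
    positivity

end DualAux

open DualAux in
theorem t_dual : S_dual := by
  intro s P hs hs2 hP hosc
  obtain ⟨c, u, v, hc, hS, ⟨θ₀, hθ₀⟩, hper⟩ := hosc
  have hκ : 0 < s / 2 := by positivity
  have hs' : s - 2 ≠ 0 := sub_ne_zero.2 hs2
  have hE := En_sign hs hs2 hc hP hS hper
  set E := En s c u v 0 with hEdef
  refine ⟨2 * ((s - 2) * E) / s, fun x => (u (x / (s / 2))) ^ (s / 2),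
    fun x => (u (x / (s / 2))) ^ (s / 2 - 1) * v (x / (s / 2)), by positivity, ?_, ?_, ?_⟩
  · constructor
    · intro x
      exact Real.rpow_pos_of_pos (hS.pos _) _
    · intro x
      have h1 : HasDerivAt (fun x : ℝ => x / (s / 2)) (1 / (s / 2)) x :=
        (hasDerivAt_id x).div_const _
      have h2 : HasDerivAt (fun x : ℝ => u (x / (s / 2))) (v (x / (s / 2)) * (1 / (s / 2))) x :=
        (hS.du (x / (s / 2))).comp x h1
      have h3 := h2.rpow_const (p := s / 2) (Or.inl (hS.pos _).ne')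
      refine h3.congr_deriv ?_
      field_simp
    · intro x
      have h1 : HasDerivAt (fun x : ℝ => x / (s / 2)) (1 / (s / 2)) x :=
        (hasDerivAt_id x).div_const _
      have h2 : HasDerivAt (fun x : ℝ => u (x / (s / 2))) (v (x / (s / 2)) * (1 / (s / 2))) x :=
        (hS.du (x / (s / 2))).comp x h1
      have h3 := h2.rpow_const (p := s / 2 - 1) (Or.inl (hS.pos _).ne')
      have h4 := (hS.dv (x / (s / 2))).comp x h1
      have h5 := h3.mul h4
      refine h5.congr_deriv ?_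
      have hen : En s c u v (x / (s / 2)) = E := En_const hs2 hS _ _
      unfold En at hen
      have hu := hS.pos (x / (s / 2))
      simp only [Function.comp_apply]
      set w := u (x / (s / 2)) with hw
      set z := v (x / (s / 2)) with hz
      -- express all powers by `w` and `w ^ (s/2)`
      have hq : 0 < w ^ (s / 2) := Real.rpow_pos_of_pos hu _
      set q := w ^ (s / 2) with hqdef
      have e1 : w ^ (s / 2 - 1) = q / w := by
        rw [Real.rpow_sub hu, Real.rpow_one]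
      have e2 : w ^ (s / 2 - 1 - 1) = q / w ^ 2 := by
        rw [show s / 2 - 1 - 1 = s / 2 - 2 by ring, Real.rpow_sub hu, Real.rpow_two]
      have e3 : w ^ s = q ^ 2 := by
        rw [hqdef, ← Real.rpow_two, ← Real.rpow_mul hu.le]
        congr 1; ring
      have e4 : w ^ (1 - s) = w / q ^ 2 := by
        rw [Real.rpow_sub hu, Real.rpow_one, e3]
      have e5 : w ^ (-(s - 2)) = w ^ 2 / q ^ 2 := by
        rw [show -(s - 2) = 2 - s by ring, Real.rpow_sub hu, e3, Real.rpow_two]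
      have e6 : q ^ (1 - 4 / s) = q / w ^ 2 := by
        rw [hqdef, ← Real.rpow_mul hu.le,
          show s / 2 * (1 - 4 / s) = s / 2 - 2 by field_simp; ring, Real.rpow_sub hu, Real.rpow_two]
      rw [e1, e2, e4, e6]
      rw [e5] at hen
      rw [← hen]
      field_simp
      ring
  · refine ⟨s / 2 * θ₀, ?_⟩
    have e : s / 2 * θ₀ / (s / 2) = θ₀ := by field_simp
    simp only [e]
    exact mul_ne_zero (Real.rpow_pos_of_pos (hS.pos _) _).ne' hθ₀
  · intro x
    have e : (x + s / 2 * P) / (s / 2) = x / (s / 2) + P := by field_simp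
    simp only [e, hper]

end Pool.Agent.R963.CA
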