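import Pool.Agent.R963.CA.Stm

open scoped ContDiff Topology
open Set Filter MeasureTheory

namespace Pool.Agent.R963.CA

set_option maxHeartbeats 400000

/-- CA-6 -/
theorem t_ell : S_ell := by
  intro s c u v hc hs1 hs4 hS hE
  obtain ⟨x₀, y₀, a₁, a₂, b₁, b₂, hΔ, hR⟩ := hE
  obtain ⟨P, hP⟩ : ∃ P, P = b₂ ^ 2 + b₁ ^ 2 := ⟨_, rfl⟩
  obtain ⟨R, hRd⟩ : ∃ R, R = -(a₂ * b₂ + a₁ * b₁) := ⟨_, rfl⟩
  obtain ⟨S, hSd⟩ : ∃ S, S = a₂ ^ 2 + a₁ ^ 2 := ⟨_, rfl⟩
  obtain ⟨D, hD⟩ : ∃ D, D = (a₁ * b₂ - a₂ * b₁) ^ 2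
    - (P * x₀ ^ 2 + 2 * R * x₀ * y₀ + S * y₀ ^ 2) := ⟨_, rfl⟩
  obtain ⟨β₁, hβ₁⟩ : ∃ β₁, β₁ = P * x₀ + R * y₀ := ⟨_, rfl⟩
  obtain ⟨β₂, hβ₂⟩ : ∃ β₂, β₂ = R * x₀ + S * y₀ := ⟨_, rfl⟩
  have hpos := hS.pos
  -- the equation of the ellipse
  have key : ∀ θ, D * u θ ^ 2 + 2 * (β₁ * Real.cos θ + β₂ * Real.sin θ) * u θ
      - (P * Real.cos θ ^ 2 + 2 * R * Real.cos θ * Real.sin θ + S * Real.sin θ ^ 2) = 0 := by
    intro θ
    have hm : (Real.cos θ / u θ, Real.sin θ / u θ) ∈ {v : ℝ × ℝ | ∃ φ : ℝ,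
        v = (x₀ + a₁ * Real.cos φ + a₂ * Real.sin φ, y₀ + b₁ * Real.cos φ + b₂ * Real.sin φ)} := by
      rw [← hR]
      exact ⟨θ, rfl⟩
    obtain ⟨φ, hφ⟩ := hm
    have h1 := congrArg Prod.fst hφ
    have h2 := congrArg Prod.snd hφ
    simp only at h1 h2
    have hu := (hpos θ).ne'
    rw [div_eq_iff hu] at h1 h2
    have e1 : b₂ * (Real.cos θ - x₀ * u θ) - a₂ * (Real.sin θ - y₀ * u θ)
        = u θ * Real.cos φ * (a₁ * b₂ - a₂ * b₁) := by
      rw [h1, h2]; ring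
    have e2 : a₁ * (Real.sin θ - y₀ * u θ) - b₁ * (Real.cos θ - x₀ * u θ)
        = u θ * Real.sin φ * (a₁ * b₂ - a₂ * b₁) := by
      rw [h1, h2]; ring
    have e3 : (b₂ * (Real.cos θ - x₀ * u θ) - a₂ * (Real.sin θ - y₀ * u θ)) ^ 2
        + (a₁ * (Real.sin θ - y₀ * u θ) - b₁ * (Real.cos θ - x₀ * u θ)) ^ 2
        = u θ ^ 2 * (a₁ * b₂ - a₂ * b₁) ^ 2 := by
      rw [e1, e2]
      linear_combination (u θ ^ 2 * (a₁ * b₂ - a₂ * b₁) ^ 2) * (Real.sin_sq_add_cos_sq φ)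
    rw [hD, hβ₁, hβ₂, hP, hRd, hSd]
    linear_combination -e3
  -- positivity of the quadratic form
  have hq : ∀ θ, 0 < P * Real.cos θ ^ 2 + 2 * R * Real.cos θ * Real.sin θ + S * Real.sin θ ^ 2 := by
    intro θ
    have e : P * Real.cos θ ^ 2 + 2 * R * Real.cos θ * Real.sin θ + S * Real.sin θ ^ 2
        = (b₂ * Real.cos θ - a₂ * Real.sin θ) ^ 2 + (a₁ * Real.sin θ - b₁ * Real.cos θ) ^ 2 := by
      rw [hP, hRd, hSd]; ring
    rw [e]
    by_contra hcon
    have h1 := sq_nonneg (b₂ * Real.cos θ - a₂ * Real.sin θ)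
    have h2 := sq_nonneg (a₁ * Real.sin θ - b₁ * Real.cos θ)
    have h3 : b₂ * Real.cos θ - a₂ * Real.sin θ = 0 := by
      have : (b₂ * Real.cos θ - a₂ * Real.sin θ) ^ 2 = 0 := by linarith
      exact pow_eq_zero_iff (two_ne_zero) |>.1 this
    have h4 : a₁ * Real.sin θ - b₁ * Real.cos θ = 0 := by
      have : (a₁ * Real.sin θ - b₁ * Real.cos θ) ^ 2 = 0 := by linarith
      exact pow_eq_zero_iff (two_ne_zero) |>.1 this
    have h5 : (a₁ * b₂ - a₂ * b₁) * Real.cos θ = 0 := by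
      linear_combination a₁ * h3 + a₂ * h4
    have h6 : (a₁ * b₂ - a₂ * b₁) * Real.sin θ = 0 := by
      linear_combination b₂ * h4 + b₁ * h3
    have h7 := (mul_eq_zero.1 h5).resolve_left hΔ
    have h8 := (mul_eq_zero.1 h6).resolve_left hΔ
    have h9 := Real.sin_sq_add_cos_sq θ
    rw [h7, h8] at h9
    norm_num at h9
  -- the opposite point
  have key2 : ∀ θ, D * u (θ + Real.pi) ^ 2
      - 2 * (β₁ * Real.cos θ + β₂ * Real.sin θ) * u (θ + Real.pi)
      - (P * Real.cos θ ^ 2 + 2 * R * Real.cos θ * Real.sin θ + S * Real.sin θ ^ 2) = 0 := by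
    intro θ
    have h := key (θ + Real.pi)
    rw [Real.cos_add_pi, Real.sin_add_pi] at h
    linear_combination h
  have hDpos : 0 < D := by
    by_contra hcon
    push Not at hcon
    have h1 := key 0
    have h2 := key2 0
    have h3 := hq 0
    have u1 := hpos 0
    have u2 := hpos (0 + Real.pi)
    have h4 : D * u 0 ^ 2 ≤ 0 := mul_nonpos_of_nonpos_of_nonneg hcon (sq_nonneg _)
    have h5 : D * u (0 + Real.pi) ^ 2 ≤ 0 := mul_nonpos_of_nonpos_of_nonneg hcon (sq_nonneg _)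
    have h6 : 0 < 2 * (β₁ * Real.cos 0 + β₂ * Real.sin 0) * u 0 := by linarith
    have h7 : 2 * (β₁ * Real.cos 0 + β₂ * Real.sin 0) * u (0 + Real.pi) < 0 := by linarith
    have h8 : 0 < 2 * (β₁ * Real.cos 0 + β₂ * Real.sin 0) := (mul_pos_iff_of_pos_right u1).1 h6
    have h9 := mul_pos h8 u2
    linarith
  -- the difference
  have hdiff : ∀ θ, D * (u θ - u (θ + Real.pi)) + 2 * (β₁ * Real.cos θ + β₂ * Real.sin θ) = 0 := by
    intro θ
    have u1 := hpos θ
    have u2 := hpos (θ + Real.pi)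
    have h : (u θ + u (θ + Real.pi)) * (D * (u θ - u (θ + Real.pi))
        + 2 * (β₁ * Real.cos θ + β₂ * Real.sin θ)) = 0 := by
      linear_combination key θ - key2 θ
    exact (mul_eq_zero.1 h).resolve_left (by linarith)
  -- `z`
  obtain ⟨z, hz⟩ : ∃ z : ℝ → ℝ, z = fun θ => u θ + (β₁ * Real.cos θ + β₂ * Real.sin θ) / D := ⟨_, rfl⟩
  have hzpi : ∀ θ, z (θ + Real.pi) = z θ := by
    intro θ
    have h := hdiff θ
    rw [hz]
    simp only [Real.cos_add_pi, Real.sin_add_pi]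
    field_simp
    linear_combination -h
  have hz2 : ∀ θ, 2 * z θ = u θ + u (θ + Real.pi) := by
    intro θ
    have h := hdiff θ
    rw [hz]
    simp only
    field_simp
    linear_combination h
  have hzpos : ∀ θ, 0 < z θ := by
    intro θ
    have h := hz2 θ
    have u1 := hpos θ
    have u2 := hpos (θ + Real.pi)
    linarith
  obtain ⟨A, hA⟩ : ∃ A, A = P / D + β₁ ^ 2 / D ^ 2 := ⟨_, rfl⟩
  obtain ⟨B, hB⟩ : ∃ B, B = R / D + β₁ * β₂ / D ^ 2 := ⟨_, rfl⟩
  obtain ⟨C, hC⟩ : ∃ C, C = S / D + β₂ ^ 2 / D ^ 2 := ⟨_, rfl⟩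
  have hzsq : ∀ θ, z θ * z θ = A * Real.cos θ ^ 2 + 2 * B * (Real.sin θ * Real.cos θ)
      + C * Real.sin θ ^ 2 := by
    intro θ
    have h := key θ
    rw [hz, hA, hB, hC]
    simp only
    field_simp
    linear_combination D * h
  -- derivatives
  have dz : ∀ θ, HasDerivAt z (v θ + (β₁ * -Real.sin θ + β₂ * Real.cos θ) / D) θ := by
    intro θ
    rw [hz]
    exact (hS.du θ).add ((((Real.hasDerivAt_cos θ).const_mul β₁).add
      ((Real.hasDerivAt_sin θ).const_mul β₂)).div_const D)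
  obtain ⟨y, hy⟩ : ∃ y : ℝ → ℝ, y = fun θ => v θ + (β₁ * -Real.sin θ + β₂ * Real.cos θ) / D :=
    ⟨_, rfl⟩
  have dz' : ∀ θ, HasDerivAt z (y θ) θ := by
    intro θ
    rw [hy]
    exact dz θ
  have dy : ∀ θ, HasDerivAt y (-z θ + c * u θ ^ (1 - s)) θ := by
    intro θ
    have h : HasDerivAt y ((-u θ + c * u θ ^ (1 - s))
        + (β₁ * -Real.cos θ + β₂ * -Real.sin θ) / D) θ := by
      rw [hy]
      exact (hS.dv θ).add ((((Real.hasDerivAt_sin θ).neg.const_mul β₁).add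
        ((Real.hasDerivAt_cos θ).const_mul β₂)).div_const D)
    convert h using 1
    rw [hz]
    ring
  have hzy : ∀ θ, z θ * y θ = (C - A) * (Real.sin θ * Real.cos θ)
      + B * (Real.cos θ ^ 2 - Real.sin θ ^ 2) := by
    intro θ
    have h1 : HasDerivAt (fun θ => z θ * z θ) (y θ * z θ + z θ * y θ) θ := (dz' θ).mul (dz' θ)
    have h2 : HasDerivAt (fun θ => A * Real.cos θ ^ 2 + 2 * B * (Real.sin θ * Real.cos θ)
        + C * Real.sin θ ^ 2) (A * (2 * Real.cos θ * -Real.sin θ)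
          + 2 * B * (Real.cos θ * Real.cos θ + Real.sin θ * -Real.sin θ)
          + C * (2 * Real.sin θ * Real.cos θ)) θ := by
      have c1 := (Real.hasDerivAt_cos θ).pow 2
      have s1 := (Real.hasDerivAt_sin θ).pow 2
      have m1 := (Real.hasDerivAt_sin θ).mul (Real.hasDerivAt_cos θ)
      refine HasDerivAt.congr_deriv (((c1.const_mul A).add (m1.const_mul (2 * B))).add
        (s1.const_mul C)) ?_
      norm_num
    have h3 : (fun θ => z θ * z θ) = fun θ => A * Real.cos θ ^ 2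
        + 2 * B * (Real.sin θ * Real.cos θ) + C * Real.sin θ ^ 2 := funext hzsq
    rw [h3] at h1
    have h4 := h1.unique h2
    linear_combination (1 / 2) * h4
  have hzz : ∀ θ, y θ * y θ + z θ * (-z θ + c * u θ ^ (1 - s))
      = (C - A) * (Real.cos θ ^ 2 - Real.sin θ ^ 2) - 4 * B * (Real.sin θ * Real.cos θ) := by
    intro θ
    have h1 : HasDerivAt (fun θ => z θ * y θ) (y θ * y θ + z θ * (-z θ + c * u θ ^ (1 - s))) θ :=
      (dz' θ).mul (dy θ)
    have h2 : HasDerivAt (fun θ => (C - A) * (Real.sin θ * Real.cos θ)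
        + B * (Real.cos θ ^ 2 - Real.sin θ ^ 2))
        ((C - A) * (Real.cos θ * Real.cos θ + Real.sin θ * -Real.sin θ)
          + B * (2 * Real.cos θ * -Real.sin θ - 2 * Real.sin θ * Real.cos θ)) θ := by
      have c1 := (Real.hasDerivAt_cos θ).pow 2
      have s1 := (Real.hasDerivAt_sin θ).pow 2
      have m1 := (Real.hasDerivAt_sin θ).mul (Real.hasDerivAt_cos θ)
      refine HasDerivAt.congr_deriv ((m1.const_mul (C - A)).add ((c1.sub s1).const_mul B)) ?_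
      norm_num
    have h3 : (fun θ => z θ * y θ) = fun θ => (C - A) * (Real.sin θ * Real.cos θ)
      + B * (Real.cos θ ^ 2 - Real.sin θ ^ 2) := funext hzy
    rw [h3] at h1
    have h4 := h1.unique h2
    linear_combination h4
  have hd : ∀ θ, z θ ^ 3 * (c * u θ ^ (1 - s)) = A * C - B ^ 2 := by
    intro θ
    have h1 := hzsq θ
    have h2 := hzy θ
    have h3 := hzz θ
    have h4 := Real.sin_sq_add_cos_sq θ
    set w := c * u θ ^ (1 - s) with hw
    set sn := Real.sin θ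
    set cs := Real.cos θ
    have e1 : z θ ^ 3 * w = (z θ * z θ) * ((C - A) * (cs ^ 2 - sn ^ 2) - 4 * B * (sn * cs))
        - (z θ * y θ) ^ 2 + (z θ * z θ) ^ 2 := by
      linear_combination (z θ * z θ) * h3
    rw [e1, h1, h2]
    linear_combination (A * C - B ^ 2) * (sn ^ 2 + cs ^ 2 + 1) * h4
  -- the two values agree
  have hs1' : 1 - s ≠ 0 := fun h => hs1 (by linarith)
  have huu : ∀ θ, u θ = u (θ + Real.pi) := by
    intro θ
    have h1 := hd θ
    have h2 := hd (θ + Real.pi)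
    rw [hzpi θ] at h2
    have h3 : z θ ^ 3 * (c * u θ ^ (1 - s)) = z θ ^ 3 * (c * u (θ + Real.pi) ^ (1 - s)) := by
      rw [h1, h2]
    have h4 := mul_left_cancel₀ (pow_pos (hzpos θ) 3).ne' h3
    have h5 := mul_left_cancel₀ hc.ne' h4
    exact (Real.rpow_left_inj (hpos θ).le (hpos _).le hs1').1 h5
  have hzu : ∀ θ, z θ = u θ := by
    intro θ
    have h := hz2 θ
    rw [← huu θ] at h
    linarith
  have h4s : 4 - s ≠ 0 := fun h => hs4 (by linarith)
  have hconst : ∀ θ, u θ = u 0 := by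
    intro θ
    have e : ∀ θ, u θ ^ (4 - s) = (A * C - B ^ 2) / c := by
      intro θ
      have h1 := hd θ
      rw [hzu θ] at h1
      have h2 : u θ ^ (4 - s) = u θ ^ 3 * u θ ^ (1 - s) := by
        rw [← Real.rpow_natCast, ← Real.rpow_add (hpos θ)]
        congr 1
        push_cast
        ring
      rw [h2, eq_div_iff hc.ne']
      linear_combination h1
    exact (Real.rpow_left_inj (hpos θ).le (hpos _).le h4s).1 ((e θ).trans (e 0).symm)
  intro θ
  have h1 := hS.du θ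
  have h2 : u = fun _ => u 0 := funext hconst
  rw [h2] at h1
  exact h1.unique (hasDerivAt_const θ (u 0))

end Pool.Agent.R963.CA
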