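import Pool.Agent.R963.CA.Stm

open scoped ContDiff Topology
open Set Filter MeasureTheory

namespace Pool.Agent.R963.CA

noncomputable section

set_option maxHeartbeats 400000

/-- `x` lies strictly between `p` and `q` -/
def Btw (x p q : ℝ) : Prop := (p < x ∧ x < q) ∨ (q < x ∧ x < p)

lemma Btw.symm {x p q : ℝ} (h : Btw x p q) : Btw x q p := h.elim Or.inr Or.inl

lemma btw_mul {x p q c : ℝ} (hc : 0 < c) : Btw (c * x) (c * p) (c * q) ↔ Btw x p q := by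
  unfold Btw
  simp only [mul_lt_mul_iff_right₀ hc]

lemma btw_inv {x p q : ℝ} (hx : 0 < x) (hp : 0 < p) (hq : 0 < q) :
    Btw x⁻¹ p⁻¹ q⁻¹ ↔ Btw x p q := by
  unfold Btw
  rw [inv_lt_inv₀ hp hx, inv_lt_inv₀ hx hq, inv_lt_inv₀ hq hx, inv_lt_inv₀ hx hp]
  tauto

lemma tau_surj (hc : S_cont) (h1 : S_lim1) (h2 : S_limi) {s : ℝ} (hs : 2 < s) (hs4 : s ≠ 4)
    {x : ℝ} (hx : Btw x (Real.pi / √s) (Real.pi / 2)) : ∃ ρ, 1 < ρ ∧ tau s ρ = x := by
  have hcont := hc s hs hs4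
  have hl1 := h1 s hs hs4
  have hl2 := h2 s hs hs4
  rcases hx with ⟨hx1, hx2⟩ | ⟨hx1, hx2⟩
  · obtain ⟨ρ1, hρ1, hm1⟩ := ((hl1.eventually (gt_mem_nhds hx1)).and self_mem_nhdsWithin).exists
    obtain ⟨ρ2, hρ2, hm2⟩ := ((hl2.eventually (lt_mem_nhds hx2)).and (eventually_gt_atTop 1)).exists
    have := isPreconnected_Ioi.intermediate_value (a := ρ1) (b := ρ2) (s := Ioi (1:ℝ)) hm1 hm2 hcont
    obtain ⟨ρ, hρ, he⟩ := this ⟨le_of_lt hρ1, le_of_lt hρ2⟩
    exact ⟨ρ, hρ, he⟩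
  · obtain ⟨ρ1, hρ1, hm1⟩ := ((hl1.eventually (lt_mem_nhds hx2)).and self_mem_nhdsWithin).exists
    obtain ⟨ρ2, hρ2, hm2⟩ := ((hl2.eventually (gt_mem_nhds hx1)).and (eventually_gt_atTop 1)).exists
    have := isPreconnected_Ioi.intermediate_value (a := ρ2) (b := ρ1) (s := Ioi (1:ℝ)) hm2 hm1 hcont
    obtain ⟨ρ, hρ, he⟩ := this ⟨le_of_lt hρ2, le_of_lt hρ1⟩
    exact ⟨ρ, hρ, he⟩

lemma tau_btw (h2 : S_b2) (h1 : S_b1) (h1' : S_b1') {s : ℝ} (hs : 2 < s) (hs4 : s ≠ 4)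
    {ρ : ℝ} (hρ : 1 < ρ) : Btw (tau s ρ) (Real.pi / √s) (Real.pi / 2) := by
  rcases lt_or_gt_of_ne hs4 with h | h
  · exact Or.inr ⟨(h2 s ρ hρ).2 hs h, h1' s ρ hs h hρ⟩
  · exact Or.inl ⟨h1 s ρ h hρ, (h2 s ρ hρ).1 h⟩

lemma char_gt (hper : S_per) (hosc : S_osc) (h2 : S_b2) (h1 : S_b1) (h1' : S_b1')
    (hc : S_cont) (hl1 : S_lim1) (hl2 : S_limi) {s P : ℝ} (hs : 2 < s) (hs4 : s ≠ 4) (hP : 0 < P) :
    OscP s P ↔ ∃ k : ℕ, 1 ≤ k ∧ Btw (P / (2 * k)) (Real.pi / √s) (Real.pi / 2) := by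
  constructor
  · intro h
    obtain ⟨ρ, k, hρ, hk, hPk⟩ := hper s P hs hP h
    refine ⟨k, hk, ?_⟩
    have hk' : (0 : ℝ) < k := by exact_mod_cast hk
    have : P / (2 * k) = tau s ρ := by rw [hPk]; field_simp
    rw [this]
    exact tau_btw h2 h1 h1' hs hs4 hρ
  · rintro ⟨k, hk, hb⟩
    obtain ⟨ρ, hρ, he⟩ := tau_surj hc hl1 hl2 hs hs4 hb
    have hk' : (0 : ℝ) < k := by exact_mod_cast hk
    have := hosc s ρ k hs hρ hk
    rw [he] at this
    convert this using 1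
    field_simp

lemma char_n (hd : S_dual) (hper : S_per) (hosc : S_osc) (h2 : S_b2) (h1 : S_b1) (h1' : S_b1')
    (hc : S_cont) (hl1 : S_lim1) (hl2 : S_limi) {s : ℝ} (hs0 : 0 < s) (hs2 : s ≠ 2) (hs1 : s ≠ 1)
    (hs4 : s ≠ 4) {n : ℕ} (hn : 1 ≤ n) :
    OscP s (2 * Real.pi * n) ↔ ∃ k : ℕ, 1 ≤ k ∧ Btw (k : ℝ) (n * √s) (n * min 2 s) := by
  have hn' : (0 : ℝ) < n := by exact_mod_cast hn
  have hpi := Real.pi_pos
  have hsq : 0 < √s := Real.sqrt_pos.mpr hs0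
  have hP : 0 < 2 * Real.pi * n := by positivity
  rcases lt_or_gt_of_ne hs2 with h | h
  · -- s < 2
    have hs' : 0 < 4 / s := by positivity
    have h4s : 2 < 4 / s := by rw [lt_div_iff₀ hs0]; linarith
    have h4s4 : 4 / s ≠ 4 := by
      intro h'
      rw [div_eq_iff hs0.ne'] at h'
      apply hs1
      linarith
    have e1 : OscP s (2 * Real.pi * n) ↔ OscP (4 / s) (s / 2 * (2 * Real.pi * n)) := by
      constructor
      · exact hd s _ hs0 hs2 hP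
      · intro h'
        have := hd (4 / s) _ hs' (by linarith) (by positivity) h'
        have e : 4 / (4 / s) = s := by field_simp
        have e' : 4 / s / 2 * (s / 2 * (2 * Real.pi * n)) = 2 * Real.pi * n := by
          field_simp
          ring
        rwa [e, e'] at this
    rw [e1, char_gt hper hosc h2 h1 h1' hc hl1 hl2 h4s h4s4 (by positivity)]
    apply exists_congr
    intro k
    apply and_congr_right
    intro hk
    have hk' : (0 : ℝ) < k := by exact_mod_cast hk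
    have hmin : min 2 s = s := min_eq_right h.le
    have hss : √s * √s = s := Real.mul_self_sqrt hs0.le
    have hsq4 : √(4 / s) = 2 / √s := by
      rw [Real.sqrt_div (by norm_num)]
      congr 1
      rw [show (4 : ℝ) = 2 ^ 2 by norm_num, Real.sqrt_sq (by norm_num)]
    rw [hsq4, hmin]
    rw [← btw_inv (by positivity) (by positivity) (by positivity)]
    rw [← btw_mul (c := Real.pi * s * n / 2) (by positivity)]
    have a1 : Real.pi * s * n / 2 * (s / 2 * (2 * Real.pi * n) / (2 * k))⁻¹ = k := by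
      field_simp
    have a2 : Real.pi * s * n / 2 * (Real.pi / (2 / √s))⁻¹ = n * √s := by
      field_simp
      linarith
    have a3 : Real.pi * s * n / 2 * (Real.pi / 2)⁻¹ = n * s := by
      field_simp
    rw [a1, a2, a3]
  · rw [char_gt hper hosc h2 h1 h1' hc hl1 hl2 h hs4 hP]
    apply exists_congr
    intro k
    apply and_congr_right
    intro hk
    have hk' : (0 : ℝ) < k := by exact_mod_cast hk
    have hmin : min 2 s = 2 := min_eq_left h.le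
    rw [hmin]
    rw [← btw_inv (by positivity) (by positivity) (by positivity)]
    rw [← btw_mul (c := Real.pi * n) (by positivity)]
    have a1 : Real.pi * n * (2 * Real.pi * n / (2 * k))⁻¹ = k := by
      field_simp
    have a2 : Real.pi * n * (Real.pi / √s)⁻¹ = n * √s := by
      field_simp
    have a3 : Real.pi * n * (Real.pi / 2)⁻¹ = n * 2 := by
      field_simp
    rw [a1, a2, a3]

lemma ss_facts {a : ℝ} (ha0 : a ≠ 0) (ha3 : a ≠ 1 / 3) (h : a < 1 / 2 ∨ 1 < a) :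
    0 < ss a ∧ ss a ≠ 2 ∧ ss a ≠ 1 ∧ ss a ≠ 4 ∧ a ≠ 1 := by
  have ha1 : a ≠ 1 := by rcases h with h | h <;> intro h' <;> rw [h'] at h <;> linarith
  have hne : a - 1 ≠ 0 := sub_ne_zero.mpr ha1
  refine ⟨?_, ?_, ?_, ?_, ha1⟩
  · unfold ss
    rcases h with h | h
    · exact div_pos_of_neg_of_neg (by linarith) (by linarith)
    · exact div_pos (by linarith) (by linarith)
  · unfold ss; intro h'
    rw [div_eq_iff hne] at h'
    apply ha0; linarith
  · unfold ss; intro h'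
    rw [div_eq_iff hne] at h'
    apply ha3; linarith
  · unfold ss; intro h'
    rw [div_eq_iff hne] at h'
    linarith

/-- the characterisation of the rotation numbers -/
theorem rot_iff (hg1 : S_geo1) (htr : S_triv) (hg2 : S_geo2) (hell : S_ell)
    (hd : S_dual) (hper : S_per) (hosc : S_osc) (h2 : S_b2) (h1 : S_b1) (h1' : S_b1')
    (hc : S_cont) (hl1 : S_lim1) (hl2 : S_limi) {a : ℝ} (ha0 : a ≠ 0) (ha3 : a ≠ 1 / 3)
    (ha : a < 1 / 2 ∨ 1 < a) (n : ℕ) :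
    n ∈ rotSet a ↔ 1 ≤ n ∧ ∃ k : ℕ, 1 ≤ k ∧ Btw (k : ℝ) (n * √(ss a)) (n * min 2 (ss a)) := by
  obtain ⟨f0, f2, f1, f4, ha1⟩ := ss_facts ha0 ha3 ha
  constructor
  · rintro ⟨T, γ, hE, hne⟩
    have hnc : ∃ t, deriv (pp γ) t ≠ 0 := by
      by_contra hcon
      push Not at hcon
      exact hne (htr a T n γ hE hcon)
    obtain ⟨hn, hO⟩ := hg1 a T n γ ha1 hE hnc
    exact ⟨hn, (char_n hd hper hosc h2 h1 h1' hc hl1 hl2 f0 f2 f1 f4 hn).mp hO⟩
  · rintro ⟨hn, hk⟩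
    obtain ⟨c, u, v, hc0, hsol, ⟨θ, hθ⟩, hp⟩ :=
      (char_n hd hper hosc h2 h1 h1' hc hl1 hl2 f0 f2 f1 f4 hn).mpr hk
    obtain ⟨T, γ, hE, hr⟩ := hg2 a c n u v ha1 hc0 hn hsol hp
    refine ⟨T, γ, hE, ?_⟩
    rw [hr]
    intro h
    exact hθ (hell (ss a) c u v hc0 f1 f4 hsol h θ)

lemma ss_gt {a : ℝ} (ha : 1 < a) : 4 < ss a := by
  unfold ss
  rw [lt_div_iff₀ (by linarith)]; linarith

lemma ss_mid {a : ℝ} (ha : a < 0) : 2 < ss a ∧ ss a < 4 := by
  unfold ss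
  constructor
  · rw [lt_div_iff_of_neg (by linarith)]; linarith
  · rw [div_lt_iff_of_neg (by linarith)]; linarith

/-- arithmetic for `a > 1` -/
lemma least_gt {q : ℝ} (hq : 2 < q) :
    IsLeast {n : ℕ | 1 ≤ n ∧ ∃ k : ℕ, 1 ≤ k ∧ Btw (k : ℝ) (n * q) (n * 2)} (⌊1 / (q - 2)⌋₊ + 1) := by
  have hq' : 0 < q - 2 := by linarith
  constructor
  · refine ⟨by omega, 2 * (⌊1 / (q - 2)⌋₊ + 1) + 1, by omega, Or.inr ⟨by push_cast; linarith, ?_⟩⟩
    have h1 : 1 / (q - 2) < (⌊1 / (q - 2)⌋₊ : ℝ) + 1 := Nat.lt_floor_add_one _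
    rw [div_lt_iff₀ hq'] at h1
    push_cast
    nlinarith
  · rintro n ⟨hn, k, hk, hb⟩
    have hn' : (0 : ℝ) < n := by exact_mod_cast hn
    rcases hb with ⟨h1, h2⟩ | ⟨h1, h2⟩
    · exfalso; nlinarith
    · have hk2 : n * 2 + 1 ≤ k := by
        have : n * 2 < k := by exact_mod_cast h1
        omega
      have hk3 : (n : ℝ) * 2 + 1 ≤ k := by exact_mod_cast hk2
      have h3 : 1 / (q - 2) < n := by
        rw [div_lt_iff₀ hq']; nlinarith
      have := (Nat.floor_lt (by positivity)).mpr h3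
      omega

/-- arithmetic for `a < 0` -/
lemma least_lt {q : ℝ} (hq : q < 2) (hq0 : 1 < q) :
    IsLeast {n : ℕ | 1 ≤ n ∧ ∃ k : ℕ, 1 ≤ k ∧ Btw (k : ℝ) (n * q) (n * 2)} (⌊1 / (2 - q)⌋₊ + 1) := by
  have hq' : 0 < 2 - q := by linarith
  constructor
  · have h1 : 1 / (2 - q) < (⌊1 / (2 - q)⌋₊ : ℝ) + 1 := Nat.lt_floor_add_one _
    rw [div_lt_iff₀ hq'] at h1
    refine ⟨by omega, 2 * (⌊1 / (2 - q)⌋₊ + 1) - 1, by omega, Or.inl ⟨?_, ?_⟩⟩
    · rw [Nat.cast_sub (by omega)]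
      push_cast
      nlinarith
    · rw [Nat.cast_sub (by omega)]
      push_cast
      linarith
  · rintro n ⟨hn, k, hk, hb⟩
    have hn' : (0 : ℝ) < n := by exact_mod_cast hn
    rcases hb with ⟨h1, h2⟩ | ⟨h1, h2⟩
    · have hk2 : k + 1 ≤ n * 2 := by
        have : k < n * 2 := by exact_mod_cast h2
        omega
      have hk3 : (k : ℝ) + 1 ≤ n * 2 := by exact_mod_cast hk2
      have h3 : 1 / (2 - q) < n := by
        rw [div_lt_iff₀ hq']; nlinarith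
      have := (Nat.floor_lt (by positivity)).mpr h3
      omega
    · exfalso; nlinarith

/-- for distinct positive reals there is always some `n` and an integer strictly between
`n p` and `n q` -/
lemma exists_between {p q : ℝ} (hp : 0 < p) (hpq : p < q) :
    ∃ n : ℕ, 1 ≤ n ∧ ∃ k : ℕ, 1 ≤ k ∧ (n : ℝ) * p < k ∧ (k : ℝ) < n * q := by
  obtain ⟨n, hn⟩ := exists_nat_gt (1 / (q - p))
  have hqp : 0 < q - p := by linarith
  have hn0 : (0 : ℝ) < n := lt_trans (by positivity) hn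
  rw [div_lt_iff₀ hqp] at hn
  refine ⟨n, by exact_mod_cast hn0, ⌊(n : ℝ) * p⌋₊ + 1, by omega, ?_, ?_⟩
  · push_cast
    exact Nat.lt_floor_add_one _
  · push_cast
    have := Nat.floor_le (show (0:ℝ) ≤ n * p by positivity)
    nlinarith

end

end Pool.Agent.R963.CA
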