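import Pool.Agent.R963.CA.Stm

/-!
# CA-3: an extremal curve gives an oscillator
-/

open scoped ContDiff Topology
open Set Filter MeasureTheory

namespace Pool.Agent.R963.CA

set_option maxHeartbeats 400000

theorem t_geo1 (h : S_norm) : S_geo1 := by
  intro a T n γ ha hE hne
  obtain ⟨hn, k, x, y, r, φ, hk, -, -, hr, hφ, hr0, -, -, hφ', hF, hr'', hrT, hφT⟩ :=
    h a T n γ hE
  refine ⟨hn, ?_⟩
  have ha1 : a - 1 ≠ 0 := sub_ne_zero.2 ha
  have hφd : ∀ t, HasDerivAt φ (1 / r t ^ 2) t := fun t => by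
    rw [← hφ' t]
    exact ((contDiff_infty_iff_deriv.1 hφ).1 t).hasDerivAt
  have hrd : ∀ t, HasDerivAt r (deriv r t) t := fun t =>
    ((contDiff_infty_iff_deriv.1 hr).1 t).hasDerivAt
  have hrdd : ∀ t, HasDerivAt (deriv r) (1 / r t ^ 3 - pp γ t * r t) t := by
    intro t
    rw [← hr'' t]
    exact ((contDiff_infty_iff_deriv.1 (contDiff_infty_iff_deriv.1 hr).2).1 t).hasDerivAt
  have hmono : StrictMono φ := by
    apply strictMono_of_deriv_pos
    intro t
    rw [hφ' t]
    have := hr0 t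
    positivity
  have hcont : Continuous φ := hφ.continuous
  -- unboundedness
  have hup : ∀ m : ℕ, φ (m * T) = φ 0 + 2 * Real.pi * n * m := by
    intro m
    induction m with
    | zero => simp
    | succ m ih =>
      have : ((m + 1 : ℕ) : ℝ) * T = m * T + T := by push_cast; ring
      rw [this, hφT, ih]
      push_cast
      ring
  have hdown : ∀ m : ℕ, φ (-(m * T)) = φ 0 - 2 * Real.pi * n * m := by
    intro m
    induction m with
    | zero => simp
    | succ m ih =>
      have h1 := hφT (-(((m + 1 : ℕ) : ℝ) * T))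
      have : -(((m + 1 : ℕ) : ℝ) * T) + T = -(m * T) := by push_cast; ring
      rw [this, ih] at h1
      push_cast at h1 ⊢
      linarith
  have hnpos : (0 : ℝ) < 2 * Real.pi * n := by
    have : (0 : ℝ) < n := by exact_mod_cast hn
    positivity
  have hsurj : Function.Surjective φ := by
    intro c
    refine mem_range_of_exists_le_of_exists_ge hcont ?_ ?_
    · obtain ⟨m, hm⟩ := exists_nat_gt ((φ 0 - c) / (2 * Real.pi * n))
      rw [div_lt_iff₀ hnpos] at hm
      exact ⟨-(m * T), by rw [hdown m]; linarith⟩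
    · obtain ⟨m, hm⟩ := exists_nat_gt ((c - φ 0) / (2 * Real.pi * n))
      rw [div_lt_iff₀ hnpos] at hm
      exact ⟨m * T, by rw [hup m]; linarith⟩
  set e : ℝ ≃o ℝ := StrictMono.orderIsoOfSurjective φ hmono hsurj with he
  set τ : ℝ → ℝ := fun θ => e.symm θ with hτ
  have hφτ : ∀ θ, φ (τ θ) = θ := fun θ => e.apply_symm_apply θ
  have hτφ : ∀ t, τ (φ t) = t := fun t => e.symm_apply_apply t
  have hτc : Continuous τ := e.symm.continuous
  have hτd : ∀ θ, HasDerivAt τ (r (τ θ) ^ 2) θ := by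
    intro θ
    have h1 := HasDerivAt.of_local_left_inverse (f := φ) (g := τ) (a := θ) hτc.continuousAt
      (hφd (τ θ)) (by have := hr0 (τ θ); positivity) (Eventually.of_forall hφτ)
    refine h1.congr_deriv ?_
    rw [one_div, inv_inv]
  have hτT : ∀ θ, τ (θ + 2 * Real.pi * n) = τ θ + T := by
    intro θ
    apply hmono.injective
    rw [hφτ, hφT, hφτ]
  -- the curvature
  set c : ℝ := k ^ (1 / (a - 1)) with hc
  have hcpos : 0 < c := Real.rpow_pos_of_pos hk _
  have hp : ∀ t, pp γ t = c * (r t ^ 2) ^ (1 / (a - 1)) := by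
    intro t
    have h1 := hF t
    unfold FF at h1
    have h2 : ((pp γ t) ^ (a - 1)) ^ (1 / (a - 1)) = pp γ t := by
      rw [← Real.rpow_mul (hE.p_pos t).le, mul_one_div_cancel ha1, Real.rpow_one]
    rw [← h2, h1, Real.mul_rpow hk.le (by positivity)]
  have hkey : ∀ t, pp γ t * r t ^ 3 = c * ((r t)⁻¹) ^ (1 - ss a) := by
    intro t
    rw [hp t]
    have h0 := hr0 t
    have e1 : (r t ^ 2) ^ (1 / (a - 1)) = r t ^ (2 / (a - 1)) := by
      rw [← Real.rpow_natCast (r t) 2, ← Real.rpow_mul h0.le]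
      congr 1
      push_cast
      ring
    have e2 : (r t) ^ 3 = (r t) ^ (3 : ℝ) := by
      rw [← Real.rpow_natCast (r t) 3]; norm_num
    rw [e1, e2, mul_assoc, ← Real.rpow_add h0, Real.inv_rpow h0.le, ← Real.rpow_neg h0.le]
    congr 2
    unfold ss
    field_simp
    ring
  refine ⟨c, fun θ => (r (τ θ))⁻¹, fun θ => -(deriv r (τ θ)), hcpos, ⟨?_, ?_, ?_⟩, ?_, ?_⟩
  · intro θ
    have := hr0 (τ θ)
    positivity
  · intro θ
    have h0 := hr0 (τ θ)
    have h1 : HasDerivAt (fun θ => r (τ θ)) (deriv r (τ θ) * r (τ θ) ^ 2) θ :=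
      (hrd (τ θ)).comp θ (hτd θ)
    refine (h1.inv h0.ne').congr_deriv ?_
    field_simp
  · intro θ
    have h0 := hr0 (τ θ)
    have h1 : HasDerivAt (fun θ => deriv r (τ θ))
        ((1 / r (τ θ) ^ 3 - pp γ (τ θ) * r (τ θ)) * r (τ θ) ^ 2) θ :=
      (hrdd (τ θ)).comp θ (hτd θ)
    refine h1.neg.congr_deriv ?_
    rw [← hkey (τ θ)]
    field_simp
    ring
  · by_contra hcon
    push Not at hcon
    have hd0 : ∀ t, deriv r t = 0 := by
      intro t
      have := hcon (φ t)
      rw [hτφ] at this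
      linarith
    have hconst : ∀ t, r t = r 0 := fun t =>
      is_const_of_deriv_eq_zero (contDiff_infty_iff_deriv.1 hr).1 hd0 t 0
    obtain ⟨t, ht⟩ := hne
    apply ht
    have : pp γ = fun _ => c * (r 0 ^ 2) ^ (1 / (a - 1)) := by
      funext t
      rw [hp t, hconst t]
    rw [this]
    exact deriv_const _ _
  · intro θ
    change (r (τ (θ + 2 * Real.pi * n)))⁻¹ = (r (τ θ))⁻¹
    rw [hτT, hrT]

end Pool.Agent.R963.CA
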