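import Pool.Agent.R963.CA.Stm

/-! CA-5: an oscillator gives an extremal curve (helper850). -/

set_option maxHeartbeats 400000

open scoped ContDiff Topology
open Set Filter MeasureTheory

namespace Pool.Agent.R963.CA

namespace Geo2

/-- the time change -/
theorem exists_time (u v : ℝ → ℝ) (hpos : ∀ x, 0 < u x) (hdu : ∀ x, HasDerivAt u (v x) x)
    (P : ℝ) (hP : 0 < P) (hper : ∀ x, u (x + P) = u x) :
    ∃ (Th : ℝ → ℝ) (T : ℝ), 0 < T ∧ (∀ t, HasDerivAt Th (u (Th t) ^ 2) t) ∧
      Function.Surjective Th ∧ (∀ t, Th (t + T) = Th t + P) := by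
  have hcont : Continuous u := continuous_iff_continuousAt.2 fun x => (hdu x).continuousAt
  have hc2 : Continuous (fun x => 1 / u x ^ 2) := by
    refine Continuous.div continuous_const (hcont.pow 2) fun x => ?_
    have := hpos x
    positivity
  obtain ⟨τ, hτdef⟩ : ∃ τ : ℝ → ℝ, τ = fun x => ∫ y in (0 : ℝ)..x, 1 / u y ^ 2 := ⟨_, rfl⟩
  have hτ : ∀ x, HasDerivAt τ (1 / u x ^ 2) x := by
    intro x
    rw [hτdef]
    exact intervalIntegral.integral_hasDerivAt_right (hc2.intervalIntegrable _ _)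
      (hc2.stronglyMeasurableAtFilter _ _) hc2.continuousAt
  have hτ0 : τ 0 = 0 := by
    rw [hτdef]
    simp
  have hτc : Continuous τ := continuous_iff_continuousAt.2 fun x => (hτ x).continuousAt
  have hmono : StrictMono τ := by
    refine strictMono_of_deriv_pos fun x => ?_
    rw [(hτ x).deriv]
    have := hpos x
    positivity
  -- a bound for `u`
  obtain ⟨C, hC0, hC⟩ : ∃ C : ℝ, 0 < C ∧ ∀ x, u x ≤ C := by
    obtain ⟨C, hC⟩ := (isCompact_Icc (a := (0 : ℝ)) (b := P)).bddAbove_image hcont.continuousOn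
    have hp : Function.Periodic u P := hper
    refine ⟨max C 1, by positivity, fun x => ?_⟩
    obtain ⟨y, hy, hxy⟩ := hp.exists_mem_Ico₀ hP x
    rw [hxy]
    exact (hC (mem_image_of_mem u ⟨hy.1, hy.2.le⟩)).trans (le_max_left _ _)
  have hm : ∀ x, 1 / C ^ 2 ≤ 1 / u x ^ 2 := by
    intro x
    have h1 := hpos x
    have h2 := hC x
    apply one_div_le_one_div_of_le (by positivity)
    exact pow_le_pow_left₀ h1.le h2 2
  have hC2 : 0 < 1 / C ^ 2 := by positivity
  have hlin : Monotone (fun x => τ x - 1 / C ^ 2 * x) := by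
    have hd : ∀ x, HasDerivAt (fun x => τ x - 1 / C ^ 2 * x) (1 / u x ^ 2 - 1 / C ^ 2 * 1) x :=
      fun x => (hτ x).sub ((hasDerivAt_id x).const_mul _)
    refine monotone_of_deriv_nonneg (fun x => (hd x).differentiableAt) fun x => ?_
    rw [(hd x).deriv]
    have := hm x
    linarith
  have htop : Tendsto τ atTop atTop := by
    refine tendsto_atTop_mono' atTop ?_ (Tendsto.const_mul_atTop hC2 tendsto_id)
    filter_upwards [eventually_ge_atTop 0] with x hx
    have := hlin hx
    simp only [hτ0, mul_zero, sub_zero] at this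
    change 1 / C ^ 2 * x ≤ τ x
    linarith
  have hbot : Tendsto τ atBot atBot := by
    refine tendsto_atBot_mono' atBot ?_ (Tendsto.const_mul_atBot hC2 tendsto_id)
    filter_upwards [eventually_le_atBot 0] with x hx
    have := hlin hx
    simp only [hτ0, mul_zero, sub_zero] at this
    change τ x ≤ 1 / C ^ 2 * x
    linarith
  have hsurj : Function.Surjective τ := hτc.surjective htop hbot
  obtain ⟨e, he⟩ : ∃ e : ℝ ≃o ℝ, ∀ x, e x = τ x :=
    ⟨StrictMono.orderIsoOfSurjective τ hmono hsurj, fun _ => rfl⟩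
  have hinv : ∀ t, τ (e.symm t) = t := fun t => by rw [← he, e.apply_symm_apply]
  have hquasi : ∀ x, τ (x + P) = τ x + τ P := by
    have hd : ∀ x, HasDerivAt (fun x => τ (x + P) - τ x) (1 / u (x + P) ^ 2 - 1 / u x ^ 2) x := by
      intro x
      exact ((hτ (x + P)).comp_add_const x P).sub (hτ x)
    intro x
    have h := is_const_of_deriv_eq_zero (fun x => (hd x).differentiableAt)
      (fun x => by rw [(hd x).deriv, hper, sub_self]) x 0
    simp only [zero_add, hτ0, sub_zero] at h
    linarith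
  refine ⟨e.symm, τ P, ?_, fun t => ?_, e.symm.surjective, fun t => ?_⟩
  · rw [← hτ0]
    exact hmono hP
  · have h1 := HasDerivAt.of_local_left_inverse (f := τ) (g := e.symm) (a := t)
      e.symm.continuous.continuousAt (hτ (e.symm t))
      (by have := hpos (e.symm t); positivity) (Eventually.of_forall hinv)
    have h2 : (1 / u (e.symm t) ^ 2)⁻¹ = u (e.symm t) ^ 2 := by
      rw [one_div, inv_inv]
    rwa [h2] at h1
  · apply hmono.injective
    rw [hinv, hquasi, hinv]

theorem contDiff_succ_of {f g : ℝ → ℝ} {m : ℕ} (h : ∀ x, HasDerivAt f (g x) x)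
    (hg : ContDiff ℝ m g) : ContDiff ℝ ((m + 1 : ℕ) : ℕ∞) f := by
  have h1 : deriv f = g := funext fun x => (h x).deriv
  have h2 : ContDiff ℝ ((m : WithTop ℕ∞) + 1) f := by
    rw [contDiff_succ_iff_deriv]
    refine ⟨fun x => (h x).differentiableAt, fun h => ?_, by rw [h1]; exact hg⟩
    exact absurd h (by simp)
  exact_mod_cast h2

theorem smooth_sol {s c : ℝ} {u v : ℝ → ℝ} (h : Sol s c u v) (m : ℕ) :
    ContDiff ℝ (m : ℕ∞) u ∧ ContDiff ℝ (m : ℕ∞) v := by
  induction m with
  | zero =>
    have h1 : Continuous u := continuous_iff_continuousAt.2 fun x => (h.du x).continuousAt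
    have h2 : Continuous v := continuous_iff_continuousAt.2 fun x => (h.dv x).continuousAt
    exact ⟨by simpa using h1, by simpa using h2⟩
  | succ m ih =>
    obtain ⟨h1, h2⟩ := ih
    refine ⟨contDiff_succ_of h.du h2, contDiff_succ_of h.dv ?_⟩
    exact h1.neg.add (contDiff_const.mul (h1.rpow_const_of_ne fun x => (h.pos x).ne'))

theorem smooth_time {u Th : ℝ → ℝ} (hu : ∀ m : ℕ, ContDiff ℝ (m : ℕ∞) u)
    (hTh : ∀ t, HasDerivAt Th (u (Th t) ^ 2) t) (m : ℕ) : ContDiff ℝ (m : ℕ∞) Th := by
  induction m with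
  | zero =>
    have h1 : Continuous Th := continuous_iff_continuousAt.2 fun x => (hTh x).continuousAt
    simpa using h1
  | succ m ih => exact contDiff_succ_of hTh (((hu m).comp ih).pow 2)

end Geo2

theorem t_geo2 : S_geo2 := by
  intro a c n u v ha hc hn hsol hper
  obtain ⟨s, hs⟩ : ∃ s, s = ss a := ⟨_, rfl⟩
  rw [← hs] at hsol
  have hP : 0 < 2 * Real.pi * n := by
    have : (0 : ℝ) < n := by exact_mod_cast hn
    positivity
  have hpos := hsol.pos
  obtain ⟨Th, T, hT, hTh, hThs, hThp⟩ := Geo2.exists_time u v hpos hsol.du _ hP hper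
  -- smoothness
  have hus : ContDiff ℝ ∞ u := contDiff_infty.2 fun m => (Geo2.smooth_sol hsol m).1
  have hThc : ContDiff ℝ ∞ Th := contDiff_infty.2 fun m =>
    Geo2.smooth_time (fun m => (Geo2.smooth_sol hsol m).1) hTh m
  -- the auxiliary function `w = u ^ (1 - s)`
  obtain ⟨w, hw⟩ : ∃ w : ℝ → ℝ, w = fun x => u x ^ (1 - s) := ⟨_, rfl⟩
  have hwd : ∀ x, HasDerivAt w ((1 - s) * (w x / u x) * v x) x := by
    intro x
    have h1 := (hsol.du x).rpow_const (p := 1 - s) (Or.inl (hpos x).ne')
    have h2 : u x ^ (1 - s - 1) = w x / u x := by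
      rw [hw, Real.rpow_sub_one (hpos x).ne']
    rw [h2] at h1
    rw [hw]
    refine h1.congr_deriv ?_
    rw [hw]
    ring
  have hvd : ∀ x, HasDerivAt v (-u x + c * w x) x := by
    intro x
    have := hsol.dv x
    rw [hw]
    exact this
  have hwpos : ∀ x, 0 < w x := fun x => by
    rw [hw]
    exact Real.rpow_pos_of_pos (hpos x) _
  -- composition with the time change
  have comp : ∀ (h h' : ℝ → ℝ), (∀ x, HasDerivAt h (h' x) x) → ∀ t,
      HasDerivAt (fun t => h (Th t)) (h' (Th t) * u (Th t) ^ 2) t := fun h h' hh t =>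
    (hh (Th t)).comp t (hTh t)
  -- the curve
  obtain ⟨γ, hγ⟩ : ∃ γ : ℝ → ℝ × ℝ, γ = fun t => (Real.cos (Th t) / u (Th t),
    Real.sin (Th t) / u (Th t)) := ⟨_, rfl⟩
  have dx : ∀ t, HasDerivAt (fun t => Real.cos (Th t) / u (Th t))
      (-(v (Th t) * Real.cos (Th t)) - u (Th t) * Real.sin (Th t)) t := by
    intro t
    have h1 := comp (fun x => Real.cos x / u x)
      (fun x => (-Real.sin x * u x - Real.cos x * v x) / u x ^ 2)
      (fun x => (Real.hasDerivAt_cos x).div (hsol.du x) (hpos x).ne') t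
    refine h1.congr_deriv ?_
    have := (hpos (Th t)).ne'
    field_simp
    ring
  have dy : ∀ t, HasDerivAt (fun t => Real.sin (Th t) / u (Th t))
      (-(v (Th t) * Real.sin (Th t)) + u (Th t) * Real.cos (Th t)) t := by
    intro t
    have h1 := comp (fun x => Real.sin x / u x)
      (fun x => (Real.cos x * u x - Real.sin x * v x) / u x ^ 2)
      (fun x => (Real.hasDerivAt_sin x).div (hsol.du x) (hpos x).ne') t
    refine h1.congr_deriv ?_
    have := (hpos (Th t)).ne'
    field_simp
    ring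
  have d1 : deriv γ = fun t => (-(v (Th t) * Real.cos (Th t)) - u (Th t) * Real.sin (Th t),
      -(v (Th t) * Real.sin (Th t)) + u (Th t) * Real.cos (Th t)) := by
    funext t
    rw [hγ]
    exact ((dx t).prodMk (dy t)).deriv
  have ddx : ∀ t, HasDerivAt
      (fun t => -(v (Th t) * Real.cos (Th t)) - u (Th t) * Real.sin (Th t))
      (-(c * w (Th t) * u (Th t) ^ 2 * Real.cos (Th t))) t := by
    intro t
    have h1 := comp (fun x => -(v x * Real.cos x) - u x * Real.sin x)
      (fun x => -((-u x + c * w x) * Real.cos x + v x * -Real.sin x) -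
        (v x * Real.sin x + u x * Real.cos x))
      (fun x => (((hvd x).mul (Real.hasDerivAt_cos x)).neg).sub
        ((hsol.du x).mul (Real.hasDerivAt_sin x))) t
    refine h1.congr_deriv ?_
    ring
  have ddy : ∀ t, HasDerivAt
      (fun t => -(v (Th t) * Real.sin (Th t)) + u (Th t) * Real.cos (Th t))
      (-(c * w (Th t) * u (Th t) ^ 2 * Real.sin (Th t))) t := by
    intro t
    have h1 := comp (fun x => -(v x * Real.sin x) + u x * Real.cos x)
      (fun x => -((-u x + c * w x) * Real.sin x + v x * Real.cos x) +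
        (v x * Real.cos x + u x * -Real.sin x))
      (fun x => (((hvd x).mul (Real.hasDerivAt_sin x)).neg).add
        ((hsol.du x).mul (Real.hasDerivAt_cos x))) t
    refine h1.congr_deriv ?_
    ring
  have d2 : deriv (deriv γ) = fun t => (-(c * w (Th t) * u (Th t) ^ 2 * Real.cos (Th t)),
      -(c * w (Th t) * u (Th t) ^ 2 * Real.sin (Th t))) := by
    funext t
    rw [d1]
    exact ((ddx t).prodMk (ddy t)).deriv
  have hpp : pp γ = fun t => c * u (Th t) ^ 3 * w (Th t) := by
    funext t
    unfold pp crs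
    rw [d2, d1]
    have h1 := Real.sin_sq_add_cos_sq (Th t)
    linear_combination (c * u (Th t) ^ 3 * w (Th t)) * h1
  have hpppos : ∀ t, 0 < pp γ t := by
    intro t
    rw [hpp]
    have h1 := hpos (Th t)
    have h2 := hwpos (Th t)
    positivity
  obtain ⟨K, hK⟩ : ∃ K : ℝ, K = c ^ (a - 1) := ⟨_, rfl⟩
  have hFF : FF a γ = fun t => K / u (Th t) ^ 2 := by
    funext t
    unfold FF
    rw [hpp]
    have h1 := hpos (Th t)
    have e1 : u (Th t) ^ 3 * w (Th t) = u (Th t) ^ (4 - s) := by
      rw [hw]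
      have : (4 - s) = ((3 : ℕ) : ℝ) + (1 - s) := by push_cast; ring
      rw [this, Real.rpow_add h1, Real.rpow_natCast]
    have e2 : c * u (Th t) ^ 3 * w (Th t) = c * u (Th t) ^ (4 - s) := by
      rw [mul_assoc, e1]
    change (c * u (Th t) ^ 3 * w (Th t)) ^ (a - 1) = K / u (Th t) ^ 2
    rw [e2, Real.mul_rpow hc.le (Real.rpow_nonneg h1.le _), ← Real.rpow_mul h1.le]
    have e3 : (4 - s) * (a - 1) = -((2 : ℕ) : ℝ) := by
      rw [hs, ss]
      have : a - 1 ≠ 0 := sub_ne_zero.2 ha
      push_cast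
      field_simp
      ring
    rw [e3, Real.rpow_neg h1.le, Real.rpow_natCast, ← hK]
    rfl
  -- derivatives of `F` and `p`
  have f1 : deriv (FF a γ) = fun t => -2 * K * (v (Th t) / u (Th t)) := by
    funext t
    rw [hFF]
    have h1 := comp (fun x => K / u x ^ 2)
      (fun x => (0 * u x ^ 2 - K * (((2 : ℕ) : ℝ) * u x ^ (2 - 1) * v x)) / (u x ^ 2) ^ 2)
      (fun x => (hasDerivAt_const x K).div ((hsol.du x).pow 2) (pow_ne_zero 2 (hpos x).ne')) t
    rw [h1.deriv]
    have := (hpos (Th t)).ne'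
    field_simp
    push_cast
    ring
  have f2 : deriv (deriv (FF a γ)) = fun t =>
      2 * K * (u (Th t) ^ 2 + v (Th t) ^ 2 - c * (u (Th t) * w (Th t))) := by
    funext t
    rw [f1]
    have h1 := comp (fun x => -2 * K * (v x / u x))
      (fun x => -2 * K * (((-u x + c * w x) * u x - v x * v x) / u x ^ 2))
      (fun x => ((hvd x).div (hsol.du x) (hpos x).ne').const_mul _) t
    rw [h1.deriv]
    have := (hpos (Th t)).ne'
    field_simp
    ring
  have f3 : deriv (deriv (deriv (FF a γ))) = fun t =>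
      2 * K * (s * c * v (Th t) * w (Th t) * u (Th t) ^ 2) := by
    funext t
    rw [f2]
    have h1 := comp (fun x => 2 * K * (u x ^ 2 + v x ^ 2 - c * (u x * w x)))
      (fun x => 2 * K * (((2 : ℕ) : ℝ) * u x ^ (2 - 1) * v x +
        ((2 : ℕ) : ℝ) * v x ^ (2 - 1) * (-u x + c * w x) -
          c * (v x * w x + u x * ((1 - s) * (w x / u x) * v x))))
      (fun x => (((((hsol.du x).pow 2).add ((hvd x).pow 2))).sub
        (((hsol.du x).mul (hwd x)).const_mul c)).const_mul _) t
    rw [h1.deriv]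
    have := (hpos (Th t)).ne'
    field_simp
    push_cast
    ring
  have p1 : deriv (pp γ) = fun t => c * (4 - s) * u (Th t) ^ 4 * v (Th t) * w (Th t) := by
    funext t
    rw [hpp]
    have h1 := comp (fun x => c * u x ^ 3 * w x)
      (fun x => c * (((3 : ℕ) : ℝ) * u x ^ (3 - 1) * v x) * w x +
        c * u x ^ 3 * ((1 - s) * (w x / u x) * v x))
      (fun x => (((hsol.du x).pow 3).const_mul c).mul (hwd x)) t
    rw [h1.deriv]
    have := (hpos (Th t)).ne'
    field_simp
    push_cast
    ring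
  refine ⟨T, γ, ⟨?_, hT, ?_, ?_, hpppos, ?_, ?_⟩, ?_⟩
  · rw [hγ]
    have hu' : ContDiff ℝ ∞ (fun t => u (Th t)) := hus.comp hThc
    have hne : ∀ t, u (Th t) ≠ 0 := fun t => (hpos _).ne'
    exact ((Real.contDiff_cos.comp hThc).div hu' hne).prodMk
      ((Real.contDiff_sin.comp hThc).div hu' hne)
  · intro t
    rw [hγ]
    simp only [hThp, hper]
    have e1 : Th t + 2 * Real.pi * n = Th t + n * (2 * Real.pi) := by ring
    rw [e1, Real.cos_add_nat_mul_two_pi, Real.sin_add_nat_mul_two_pi]
  · intro t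
    rw [d1, hγ]
    unfold crs
    have h1 := Real.sin_sq_add_cos_sq (Th t)
    have := (hpos (Th t)).ne'
    simp only
    field_simp
    linear_combination (u (Th t)) * h1
  · intro t
    rw [f3, f1, p1, hFF, hpp]
    have := (hpos (Th t)).ne'
    simp only
    field_simp
    ring
  · refine ⟨fun t => 1 / u (Th t), Th, hThc.continuous, fun t => ?_, fun t => ?_, ?_⟩
    · have := hpos (Th t)
      positivity
    · rw [hγ]
      simp only [one_div]
      rw [div_eq_inv_mul, div_eq_inv_mul]
    · have := hThp 0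
      rw [zero_add] at this
      rw [this]
      ring
  · have e : γ = (fun θ => (Real.cos θ / u θ, Real.sin θ / u θ)) ∘ Th := hγ
    rw [e, hThs.range_comp]

end Pool.Agent.R963.CA
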