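import Pool.Agent.R963.CA.Stm

/-!
CA-13a, CA-13b: continuity of `tau` and its limit at `1`.
-/

set_option autoImplicit false
set_option maxHeartbeats 400000

open scoped Topology
open Set Filter MeasureTheory

namespace Pool.Agent.R963.CA

noncomputable section

/-- second divided differences of `α x² + β x^c` -/
theorem c13_dd {α β c ρ w : ℝ} (hw : w ∈ Ioo 1 ρ)
    (h : ∀ x ∈ Ioo 1 ρ, 0 ≤ 2 * α + β * (c * (c - 1) * x ^ (c - 2))) :
    0 ≤ α * (ρ - 1) + β * ((ρ ^ c - w ^ c) / (ρ - w) - (w ^ c - 1) / (w - 1)) := by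
  obtain ⟨hw1, hw2⟩ := hw
  have hρ : 1 < ρ := hw1.trans hw2
  have hconv : ConvexOn ℝ (Icc 1 ρ) (fun x => α * x ^ 2 + β * x ^ c) := by
    apply convexOn_of_hasDerivWithinAt2_nonneg (convex_Icc 1 ρ)
      (f' := fun x => α * (2 * x) + β * (c * x ^ (c - 1)))
      (f'' := fun x => 2 * α + β * (c * (c - 1) * x ^ (c - 2)))
    · apply ContinuousOn.add
      · fun_prop
      · apply ContinuousOn.mul continuousOn_const
        apply ContinuousOn.rpow_const continuousOn_id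
        intro x hx
        left
        have : 1 ≤ x := hx.1
        simp only [id]
        positivity
    · intro x hx
      rw [interior_Icc] at hx
      have hx0 : x ≠ 0 := by
        have := hx.1
        positivity
      have h1 : HasDerivAt (fun x : ℝ => α * x ^ 2) (α * (2 * x)) x := by
        have := (hasDerivAt_pow 2 x).const_mul α
        simpa using this
      have h2 : HasDerivAt (fun x : ℝ => β * x ^ c) (β * (c * x ^ (c - 1))) x :=
        (Real.hasDerivAt_rpow_const (Or.inl hx0)).const_mul β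
      exact (h1.add h2).hasDerivWithinAt
    · intro x hx
      rw [interior_Icc] at hx
      have hx0 : x ≠ 0 := by
        have := hx.1
        positivity
      have h1 : HasDerivAt (fun x : ℝ => α * (2 * x)) (α * (2 * 1)) x :=
        ((hasDerivAt_id x).const_mul 2).const_mul α
      have h2 : HasDerivAt (fun x : ℝ => β * (c * x ^ (c - 1)))
          (β * (c * ((c - 1) * x ^ (c - 1 - 1)))) x :=
        ((Real.hasDerivAt_rpow_const (Or.inl hx0)).const_mul c).const_mul β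
      have h3 := (h1.add h2).hasDerivWithinAt (s := interior (Icc 1 ρ))
      have heq : 2 * α + β * (c * (c - 1) * x ^ (c - 2)) =
          α * (2 * 1) + β * (c * ((c - 1) * x ^ (c - 1 - 1))) := by
        rw [show c - 1 - 1 = c - 2 by ring]
        ring
      change HasDerivWithinAt _ (2 * α + β * (c * (c - 1) * x ^ (c - 2))) _ x
      rw [heq]
      exact h3
    · intro x hx
      rw [interior_Icc] at hx
      exact h x hx
  have h1 := hconv.slope_mono_adjacent (x := 1) (y := w) (z := ρ)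
    ⟨le_refl _, hρ.le⟩ ⟨hρ.le, le_refl _⟩ hw1 hw2
  simp only [Real.one_rpow] at h1
  have ha : w - 1 ≠ 0 := (sub_pos.mpr hw1).ne'
  have hb : ρ - w ≠ 0 := (sub_pos.mpr hw2).ne'
  have e1 : (α * w ^ 2 + β * w ^ c - (α * 1 ^ 2 + β * 1)) / (w - 1) =
      α * (w + 1) + β * ((w ^ c - 1) / (w - 1)) := by
    field_simp
    ring
  have e2 : (α * ρ ^ 2 + β * ρ ^ c - (α * w ^ 2 + β * w ^ c)) / (ρ - w) =
      α * (ρ + w) + β * ((ρ ^ c - w ^ c) / (ρ - w)) := by
    field_simp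
    ring
  rw [e1, e2] at h1
  nlinarith

theorem c13_pow {k x ρ : ℝ} (hx : 1 ≤ x) (hxρ : x ≤ ρ) :
    ρ ^ (-|k|) ≤ x ^ k ∧ x ^ k ≤ ρ ^ |k| := by
  have hx0 : 0 < x := by linarith
  constructor
  · calc ρ ^ (-|k|) ≤ x ^ (-|k|) := by
          rw [Real.rpow_neg hx0.le, Real.rpow_neg (hx0.le.trans hxρ)]
          apply inv_anti₀ (Real.rpow_pos_of_pos hx0 _)
          exact Real.rpow_le_rpow hx0.le hxρ (abs_nonneg k)
      _ ≤ x ^ k := Real.rpow_le_rpow_of_exponent_le hx (neg_abs_le k)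
  · calc x ^ k ≤ x ^ |k| := Real.rpow_le_rpow_of_exponent_le hx (le_abs_self k)
      _ ≤ ρ ^ |k| := Real.rpow_le_rpow hx0.le hxρ (abs_nonneg k)

theorem c13_id {e ρ w : ℝ} (he : 0 < e) (hw : w ∈ Ioo 1 ρ) :
    Rr e ρ (ρ / w) = ((ρ ^ (e + 1) - w ^ (e + 1)) / (ρ - w) -
      (w ^ (e + 1) - 1) / (w - 1)) / (ρ ^ e - 1) := by
  obtain ⟨hw1, hw2⟩ := hw
  have hw0 : 0 < w := by linarith
  have hρ : 1 < ρ := hw1.trans hw2
  have hρ0 : 0 < ρ := by linarith
  have hP : 1 < ρ ^ e := Real.one_lt_rpow hρ he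
  have hW : 0 < w ^ e := Real.rpow_pos_of_pos hw0 _
  unfold Rr
  have e1 : ρ ^ (1 - e) = ρ / ρ ^ e := by rw [Real.rpow_sub hρ0, Real.rpow_one]
  have e2 : (ρ / w) ^ (1 - e) = (ρ / w) / (ρ ^ e / w ^ e) := by
    rw [Real.rpow_sub (div_pos hρ0 hw0), Real.rpow_one, Real.div_rpow hρ0.le hw0.le]
  have e3 : ρ ^ (-e) = 1 / ρ ^ e := by rw [Real.rpow_neg hρ0.le, one_div]
  have e4 : ρ ^ (e + 1) = ρ ^ e * ρ := by rw [Real.rpow_add hρ0, Real.rpow_one]
  have e5 : w ^ (e + 1) = w ^ e * w := by rw [Real.rpow_add hw0, Real.rpow_one]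
  rw [e1, e2, e3, e4, e5]
  generalize ρ ^ e = P at *
  generalize w ^ e = W at *
  have hP0 : P ≠ 0 := by linarith
  have hP1 : P - 1 ≠ 0 := by linarith
  have hW0 : W ≠ 0 := hW.ne'
  have ha : w - 1 ≠ 0 := (sub_pos.mpr hw1).ne'
  have hb : ρ - w ≠ 0 := (sub_pos.mpr hw2).ne'
  have hc : 1 - 1 / P = (P - 1) / P := by field_simp
  have hd : ρ - ρ / w = ρ * (w - 1) / w := by field_simp
  have hf : ρ / w - 1 = (ρ - w) / w := by field_simp
  rw [hc, hd, hf]
  field_simp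
  ring

theorem c13_bounds {e ρ y : ℝ} (he : 0 < e) (hy : y ∈ Ioo 1 ρ) :
    (e + 1) / 2 * (ρ ^ (-|e - 1|)) ^ 2 ≤ Rr e ρ y ∧
    Rr e ρ y ≤ (e + 1) / 2 * (ρ ^ |e - 1|) ^ 2 := by
  obtain ⟨hy1, hy2⟩ := hy
  have hy0 : 0 < y := by linarith
  have hρ : 1 < ρ := hy1.trans hy2
  have hρ0 : 0 < ρ := by linarith
  set w : ℝ := ρ / y with hwdef
  have hyw : y = ρ / w := by rw [hwdef]; field_simp
  have hw : w ∈ Ioo 1 ρ := by
    constructor
    · rw [hwdef, one_lt_div hy0]; exact hy2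
    · rw [hwdef, div_lt_iff₀ hy0]; nlinarith
  rw [hyw, c13_id he hw]
  set K : ℝ := ρ ^ |e - 1| with hK
  set k : ℝ := ρ ^ (-|e - 1|) with hk
  have hkpos : 0 < k := Real.rpow_pos_of_pos hρ0 _
  have hKk : K * k = 1 := by
    rw [hK, hk, ← Real.rpow_add hρ0, add_neg_cancel, Real.rpow_zero]
  have hKpos : 0 < K := Real.rpow_pos_of_pos hρ0 _
  have hlow := c13_dd (α := -((e + 1) * e * k / 2)) (β := 1) (c := e + 1) hw (by
    intro x hx
    have := (c13_pow (k := e - 1) hx.1.le hx.2.le).1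
    rw [show e + 1 - 1 = e by ring, show e + 1 - 2 = e - 1 by ring]
    have h2 : (e + 1) * e * k ≤ (e + 1) * e * x ^ (e - 1) :=
      mul_le_mul_of_nonneg_left this (by positivity)
    linarith)
  have hupp := c13_dd (α := (e + 1) * e * K / 2) (β := -1) (c := e + 1) hw (by
    intro x hx
    have := (c13_pow (k := e - 1) hx.1.le hx.2.le).2
    rw [show e + 1 - 1 = e by ring, show e + 1 - 2 = e - 1 by ring]
    have h2 : (e + 1) * e * x ^ (e - 1) ≤ (e + 1) * e * K :=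
      mul_le_mul_of_nonneg_left this (by positivity)
    linarith)
  obtain ⟨η, hη, hη2⟩ := exists_hasDerivAt_eq_slope (fun x : ℝ => x ^ e)
    (fun x : ℝ => e * x ^ (e - 1)) hρ
    (by
      apply ContinuousOn.rpow_const continuousOn_id
      intro x hx
      left
      have : 1 ≤ x := hx.1
      simp only [id]
      positivity)
    (by
      intro x hx
      have hx0 : x ≠ 0 := by
        have := hx.1
        positivity
      exact Real.hasDerivAt_rpow_const (Or.inl hx0))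
  simp only [Real.one_rpow] at hη2
  have hρ1 : 0 < ρ - 1 := by linarith
  rw [eq_div_iff hρ1.ne'] at hη2
  have hηb := c13_pow (k := e - 1) hη.1.le hη.2.le
  set DD : ℝ := (ρ ^ (e + 1) - w ^ (e + 1)) / (ρ - w) - (w ^ (e + 1) - 1) / (w - 1) with hDD
  have hΔpos : 0 < ρ ^ e - 1 := by
    have := Real.one_lt_rpow hρ he
    linarith
  have hL : e * k * (ρ - 1) ≤ ρ ^ e - 1 := by
    rw [← hη2]
    have : e * k ≤ e * η ^ (e - 1) := mul_le_mul_of_nonneg_left hηb.1 he.le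
    exact mul_le_mul_of_nonneg_right this hρ1.le
  have hU : ρ ^ e - 1 ≤ e * K * (ρ - 1) := by
    rw [← hη2]
    have : e * η ^ (e - 1) ≤ e * K := mul_le_mul_of_nonneg_left hηb.2 he.le
    exact mul_le_mul_of_nonneg_right this hρ1.le
  constructor
  · rw [le_div_iff₀ hΔpos]
    have h1 : (e + 1) / 2 * k ^ 2 * (ρ ^ e - 1) ≤ (e + 1) / 2 * k ^ 2 * (e * K * (ρ - 1)) :=
      mul_le_mul_of_nonneg_left hU (by positivity)
    have h2 : (e + 1) / 2 * k ^ 2 * (e * K * (ρ - 1)) =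
        (e + 1) * e * k / 2 * (ρ - 1) * (K * k) := by ring
    rw [h2, hKk] at h1
    linarith
  · rw [div_le_iff₀ hΔpos]
    have h1 : (e + 1) / 2 * K ^ 2 * (e * k * (ρ - 1)) ≤ (e + 1) / 2 * K ^ 2 * (ρ ^ e - 1) :=
      mul_le_mul_of_nonneg_left hL (by positivity)
    have h2 : (e + 1) / 2 * K ^ 2 * (e * k * (ρ - 1)) =
        (e + 1) * e * K / 2 * (ρ - 1) * (K * k) := by ring
    rw [h2, hKk] at h1
    linarith

theorem c13_yy {ρ ψ : ℝ} (hρ : 1 < ρ) (h0 : 0 < ψ) (h1 : ψ < Real.pi) :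
    yy ρ ψ ∈ Ioo 1 ρ := by
  have hc1 : Real.cos ψ < 1 := by
    have := Real.cos_lt_cos_of_nonneg_of_le_pi (le_refl 0) h1.le h0
    rwa [Real.cos_zero] at this
  have hc2 : -1 < Real.cos ψ := by
    have := Real.cos_lt_cos_of_nonneg_of_le_pi h0.le (le_refl _) h1
    rwa [Real.cos_pi] at this
  unfold yy
  constructor <;> nlinarith

theorem c13_meas (e ρ : ℝ) :
    Measurable (fun ψ : ℝ => 1 / √(Rr e ρ (yy ρ ψ))) := by
  unfold Rr yy
  fun_prop

/-- bound of the integrand -/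
theorem c13_bd {e ρ B ψ : ℝ} (he : 0 < e) (hρ : 1 < ρ) (hB : ρ ≤ B) (h0 : 0 < ψ)
    (h1 : ψ < Real.pi) :
    ‖1 / √(Rr e ρ (yy ρ ψ))‖ ≤ 1 / √((e + 1) / 2 * (B ^ (-|e - 1|)) ^ 2) := by
  have hy := c13_yy hρ h0 h1
  have hb := (c13_bounds he hy).1
  have hB0 : 0 < B := by linarith
  rw [Real.norm_of_nonneg (by positivity)]
  have h2 : B ^ (-|e - 1|) ≤ ρ ^ (-|e - 1|) := by
    rw [Real.rpow_neg hB0.le, Real.rpow_neg (by linarith)]
    apply inv_anti₀ (Real.rpow_pos_of_pos (by linarith) _)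
    exact Real.rpow_le_rpow (by linarith) hB (abs_nonneg _)
  have h3 : 0 < B ^ (-|e - 1|) := Real.rpow_pos_of_pos hB0 _
  apply one_div_le_one_div_of_le
  · apply Real.sqrt_pos.mpr
    positivity
  · apply Real.sqrt_le_sqrt
    refine le_trans ?_ hb
    apply mul_le_mul_of_nonneg_left _ (by positivity)
    exact pow_le_pow_left₀ h3.le h2 2

theorem c13_ptcont {e ρ₀ ψ : ℝ} (he : 0 < e) (hρ : 1 < ρ₀) (h0 : 0 < ψ) (h1 : ψ < Real.pi) :
    ContinuousAt (fun ρ : ℝ => 1 / √(Rr e ρ (yy ρ ψ))) ρ₀ := by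
  have hy := c13_yy hρ h0 h1
  have hb := (c13_bounds he hy).1
  have hρ0 : 0 < ρ₀ := by linarith
  have hpos : 0 < Rr e ρ₀ (yy ρ₀ ψ) := by
    refine lt_of_lt_of_le ?_ hb
    have := Real.rpow_pos_of_pos hρ0 (-|e - 1|)
    positivity
  have hyc : ContinuousAt (fun ρ : ℝ => yy ρ ψ) ρ₀ := by
    unfold yy
    fun_prop
  have hRc : ContinuousAt (fun ρ : ℝ => Rr e ρ (yy ρ ψ)) ρ₀ := by
    unfold Rr
    have hyp : yy ρ₀ ψ ≠ 0 := by
      have := hy.1
      intro h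
      rw [h] at this
      linarith
    have c1 : ContinuousAt (fun ρ : ℝ => ρ ^ (1 - e)) ρ₀ :=
      Real.continuousAt_rpow_const _ _ (Or.inl hρ0.ne')
    have c2 : ContinuousAt (fun ρ : ℝ => (yy ρ ψ) ^ (1 - e)) ρ₀ :=
      hyc.rpow_const (Or.inl hyp)
    have c3 : ContinuousAt (fun ρ : ℝ => ρ ^ (-e)) ρ₀ :=
      Real.continuousAt_rpow_const _ _ (Or.inl hρ0.ne')
    have n1 : ρ₀ - yy ρ₀ ψ ≠ 0 := (sub_pos.mpr hy.2).ne'
    have n2 : yy ρ₀ ψ - 1 ≠ 0 := (sub_pos.mpr hy.1).ne'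
    have n3 : 1 - ρ₀ ^ (-e) ≠ 0 := by
      have : ρ₀ ^ (-e) < 1 := Real.rpow_lt_one_of_one_lt_of_neg hρ (by linarith)
      linarith
    exact continuousAt_const.add ((((c1.sub c2).div (continuousAt_id.sub hyc) n1).sub
      ((c2.sub continuousAt_const).div (hyc.sub continuousAt_const) n2)).div
      (continuousAt_const.sub c3) n3)
  have hsq : ContinuousAt (fun ρ : ℝ => √(Rr e ρ (yy ρ ψ))) ρ₀ := hRc.sqrt
  exact continuousAt_const.div hsq (Real.sqrt_pos.mpr hpos).ne'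

theorem c13_ae : ∀ᵐ ψ : ℝ, ψ ∈ Set.uIoc 0 Real.pi → 0 < ψ ∧ ψ < Real.pi := by
  have h : ∀ᵐ ψ : ℝ, ψ ≠ Real.pi := by
    have : volume ({Real.pi} : Set ℝ) = 0 := measure_singleton _
    rw [ae_iff]
    simp
  filter_upwards [h] with ψ hψ hm
  rw [uIoc_of_le Real.pi_pos.le] at hm
  exact ⟨hm.1, lt_of_le_of_ne hm.2 hψ⟩

theorem t_cont : S_cont := by
  intro s hs _
  have he : 0 < (s - 2) / 2 := by linarith
  intro ρ₀ hρ₀
  have hρ₀' : 1 < ρ₀ := hρ₀
  apply ContinuousAt.continuousWithinAt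
  unfold tau
  apply ContinuousAt.mul continuousAt_const
  apply intervalIntegral.continuousAt_of_dominated_interval
    (bound := fun _ => 1 / √(((s - 2) / 2 + 1) / 2 * ((ρ₀ + 1) ^ (-|(s - 2) / 2 - 1|)) ^ 2))
  · exact Eventually.of_forall fun ρ => (c13_meas _ ρ).aestronglyMeasurable
  · have h1 : ∀ᶠ ρ in 𝓝 ρ₀, 1 < ρ ∧ ρ < ρ₀ + 1 :=
      (eventually_gt_nhds hρ₀').and (eventually_lt_nhds (by linarith))
    filter_upwards [h1] with ρ hρ
    filter_upwards [c13_ae] with ψ hψ hm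
    exact c13_bd he hρ.1 hρ.2.le (hψ hm).1 (hψ hm).2
  · exact intervalIntegrable_const
  · filter_upwards [c13_ae] with ψ hψ hm
    exact c13_ptcont he hρ₀' (hψ hm).1 (hψ hm).2

theorem t_lim1 : S_lim1 := by
  intro s hs _
  have he : 0 < (s - 2) / 2 := by linarith
  set e : ℝ := (s - 2) / 2 with hedef
  have hs0 : 0 < s := by linarith
  have hlim : Tendsto (fun ρ : ℝ => ∫ ψ in (0 : ℝ)..Real.pi, 1 / √(Rr e ρ (yy ρ ψ)))
      (𝓝[>] 1) (𝓝 (∫ _ in (0 : ℝ)..Real.pi, 1 / √((e + 1) / 2))) := by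
    apply intervalIntegral.tendsto_integral_filter_of_dominated_convergence
      (fun _ => 1 / √((e + 1) / 2 * ((2 : ℝ) ^ (-|e - 1|)) ^ 2))
    · exact Eventually.of_forall fun ρ => (c13_meas _ ρ).aestronglyMeasurable
    · have h1 : ∀ᶠ ρ : ℝ in 𝓝[>] 1, ρ < 2 :=
        (eventually_lt_nhds (by norm_num : (1 : ℝ) < 2)).filter_mono nhdsWithin_le_nhds
      filter_upwards [h1, self_mem_nhdsWithin] with ρ hρ hρ1
      filter_upwards [c13_ae] with ψ hψ hm
      exact c13_bd he hρ1 hρ.le (hψ hm).1 (hψ hm).2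
    · exact intervalIntegrable_const
    · filter_upwards [c13_ae] with ψ hψ hm
      obtain ⟨h0, h1⟩ := hψ hm
      have hcpow : ∀ k : ℝ, Tendsto (fun ρ : ℝ => (e + 1) / 2 * (ρ ^ k) ^ 2) (𝓝[>] 1)
          (𝓝 ((e + 1) / 2)) := by
        intro k
        have h2 : ContinuousAt (fun ρ : ℝ => (e + 1) / 2 * (ρ ^ k) ^ 2) 1 := by
          apply ContinuousAt.mul continuousAt_const
          apply ContinuousAt.pow
          exact Real.continuousAt_rpow_const _ _ (Or.inl one_ne_zero)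
        have h3 := h2.tendsto
        simp only [Real.one_rpow, one_pow, mul_one] at h3
        exact h3.mono_left nhdsWithin_le_nhds
      have hR : Tendsto (fun ρ : ℝ => Rr e ρ (yy ρ ψ)) (𝓝[>] 1) (𝓝 ((e + 1) / 2)) := by
        apply tendsto_of_tendsto_of_tendsto_of_le_of_le' (hcpow (-|e - 1|)) (hcpow |e - 1|)
        · filter_upwards [self_mem_nhdsWithin] with ρ hρ
          exact (c13_bounds he (c13_yy hρ h0 h1)).1
        · filter_upwards [self_mem_nhdsWithin] with ρ hρ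
          exact (c13_bounds he (c13_yy hρ h0 h1)).2
      have hsq := hR.sqrt
      exact tendsto_const_nhds.div hsq (Real.sqrt_pos.mpr (by positivity)).ne'
  have h2 := hlim.const_mul (1 / 2)
  have hval : (1 / 2 : ℝ) * (∫ _ in (0 : ℝ)..Real.pi, 1 / √((e + 1) / 2)) = Real.pi / √s := by
    rw [intervalIntegral.integral_const, smul_eq_mul, sub_zero]
    have h3 : (e + 1) / 2 = s / 2 ^ 2 := by rw [hedef]; ring
    rw [h3, Real.sqrt_div hs0.le, Real.sqrt_sq (by norm_num : (0 : ℝ) ≤ 2)]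
    have h4 : √s ≠ 0 := (Real.sqrt_pos.mpr hs0).ne'
    field_simp
  rw [hval] at h2
  exact h2

end

end Pool.Agent.R963.CA
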