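import Pool.Agent.R963.CA.Stm

open scoped ContDiff Topology
open Set Filter MeasureTheory

set_option maxHeartbeats 400000

namespace Pool.Agent.R963.CA

namespace Limi

theorem bern {p t : ℝ} (hp : p ≤ 0) (ht : 0 < t) : 1 + p * (t - 1) ≤ t ^ p := by
  rw [Real.rpow_def_of_pos ht]
  have h1 := Real.log_le_sub_one_of_pos ht
  have h2 := Real.add_one_le_exp (Real.log t * p)
  nlinarith

theorem tang {p x y : ℝ} (hp : p ≤ 0) (hx : 0 < x) (hy : 0 < y) :
    y ^ p + p * y ^ (p - 1) * (x - y) ≤ x ^ p := by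
  have h := bern hp (div_pos hx hy)
  rw [Real.div_rpow hx.le hy.le] at h
  have hyp : 0 < y ^ p := Real.rpow_pos_of_pos hy p
  rw [le_div_iff₀ hyp] at h
  have e : y ^ (p - 1) = y ^ p / y := by rw [Real.rpow_sub_one hy.ne']
  rw [e]
  calc y ^ p + p * (y ^ p / y) * (x - y) = (1 + p * (x / y - 1)) * y ^ p := by field_simp
    _ ≤ x ^ p := h

theorem slope_le {e y ρ : ℝ} (he : 1 < e) (hy : 1 < y) (hyρ : y ≤ ρ) :
    (y ^ (1 - e) - 1) / (y - 1) ≤ (ρ ^ (1 - e) - y ^ (1 - e)) / (ρ - y) := by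
  have hp : 1 - e ≤ 0 := by linarith
  have h0 : 0 < y := by linarith
  rcases hyρ.eq_or_lt with h | h
  · subst h
    rw [sub_self, sub_self, zero_div]
    apply div_nonpos_of_nonpos_of_nonneg
    · have := Real.rpow_le_one_of_one_le_of_nonpos hy.le hp
      linarith
    · linarith
  · have h1 := tang hp (x := 1) one_pos h0
    have h2 := tang hp (x := ρ) (by linarith) h0
    rw [Real.one_rpow] at h1
    calc (y ^ (1 - e) - 1) / (y - 1) ≤ (1 - e) * y ^ (1 - e - 1) := by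
          rw [div_le_iff₀ (by linarith)]; nlinarith
      _ ≤ (ρ ^ (1 - e) - y ^ (1 - e)) / (ρ - y) := by
          rw [le_div_iff₀ (by linarith)]; linarith

theorem yy_one (ρ ψ : ℝ) : yy ρ ψ - 1 = (ρ - 1) * ((1 - Real.cos ψ) / 2) := by unfold yy; ring
theorem yy_rho (ρ ψ : ℝ) : ρ - yy ρ ψ = (ρ - 1) * ((1 + Real.cos ψ) / 2) := by unfold yy; ring

theorem yy_le {ρ : ℝ} (hρ : 1 < ρ) (ψ : ℝ) : yy ρ ψ ≤ ρ := by
  have h := yy_rho ρ ψ
  have h2 : 0 ≤ (ρ - 1) * ((1 + Real.cos ψ) / 2) :=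
    mul_nonneg (by linarith) (by linarith [Real.neg_one_le_cos ψ])
  linarith

theorem one_lt_yy {ρ ψ : ℝ} (hρ : 1 < ρ) (h0 : 0 < ψ) (h1 : ψ ≤ Real.pi) : 1 < yy ρ ψ := by
  have h := yy_one ρ ψ
  have hc : Real.cos ψ < 1 := by
    have := Real.cos_lt_cos_of_nonneg_of_le_pi le_rfl h1 h0
    simpa using this
  have h2 : 0 < (ρ - 1) * ((1 - Real.cos ψ) / 2) := mul_pos (by linarith) (by linarith)
  linarith

theorem pw {e y ρ : ℝ} (h1 : 1 ≤ y) (h2 : y ≤ ρ) : y ^ (1 - e) ≤ 1 + ρ ^ (1 - e) := by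
  rcases le_total 0 (1 - e) with h | h
  · have := Real.rpow_le_rpow (by linarith) h2 h
    linarith
  · have := Real.rpow_le_one_of_one_le_of_nonpos h1 h
    have h3 := Real.rpow_nonneg (show 0 ≤ ρ by linarith) (1 - e)
    linarith

theorem ev_small {e : ℝ} (he : 0 < e) : Tendsto (fun ρ : ℝ => ρ ^ (-e)) atTop (𝓝 0) :=
  tendsto_rpow_neg_atTop he

theorem q_tend {e : ℝ} (he : 0 < e) :
    Tendsto (fun ρ : ℝ => (1 + ρ ^ (1 - e)) / (ρ - 1)) atTop (𝓝 0) := by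
  have h1 : Tendsto (fun ρ : ℝ => 2 * (ρ⁻¹ + ρ ^ (-e))) atTop (𝓝 0) := by
    have := (tendsto_inv_atTop_zero.add (ev_small he)).const_mul 2
    simpa using this
  refine squeeze_zero' ?_ ?_ h1
  · filter_upwards [eventually_ge_atTop (2 : ℝ)] with ρ hρ
    apply div_nonneg
    · have := Real.rpow_nonneg (show 0 ≤ ρ by linarith) (1 - e)
      linarith
    · linarith
  · filter_upwards [eventually_ge_atTop (2 : ℝ)] with ρ hρ
    have h0 : 0 < ρ := by linarith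
    have e1 : ρ ^ (1 - e) = ρ * ρ ^ (-e) := by
      rw [sub_eq_add_neg, Real.rpow_add h0, Real.rpow_one]
    have h3 : 0 ≤ ρ ^ (-e) := Real.rpow_nonneg h0.le _
    rw [e1, div_le_iff₀ (by linarith)]
    have h4 : ρ⁻¹ * ρ = 1 := inv_mul_cancel₀ h0.ne'
    have h5 : 0 < ρ⁻¹ := inv_pos.2 h0
    nlinarith [mul_nonneg h3 (show 0 ≤ ρ - 2 by linarith), mul_nonneg h5.le (show 0 ≤ ρ - 2 by linarith)]

theorem quot_tend {e κ : ℝ} (he : 0 < e) (hκ : 0 < κ) (n d : ℝ → ℝ)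
    (hn : ∀ᶠ ρ in atTop, |n ρ| ≤ 1 + ρ ^ (1 - e)) (hd : ∀ᶠ ρ in atTop, d ρ = (ρ - 1) * κ) :
    Tendsto (fun ρ => n ρ / d ρ) atTop (𝓝 0) := by
  have h1 := (q_tend he).mul_const κ⁻¹
  rw [zero_mul] at h1
  refine squeeze_zero_norm' ?_ h1
  filter_upwards [hn, hd, eventually_ge_atTop (2 : ℝ)] with ρ h2 h3 h4
  rw [Real.norm_eq_abs, abs_div, h3, abs_mul, abs_of_pos hκ, abs_of_pos (show 0 < ρ - 1 by linarith),
    ← div_div, div_eq_mul_inv _ κ]
  have : 0 < ρ - 1 := by linarith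
  gcongr

theorem point {e ψ : ℝ} (he : 0 < e) (h0 : 0 < ψ) (h1 : ψ < Real.pi) :
    Tendsto (fun ρ => 1 / √(Rr e ρ (yy ρ ψ))) atTop (𝓝 1) := by
  have hc1 : Real.cos ψ < 1 := by
    have := Real.cos_lt_cos_of_nonneg_of_le_pi le_rfl h1.le h0
    simpa using this
  have hc2 : -1 < Real.cos ψ := by
    have := Real.cos_lt_cos_of_nonneg_of_le_pi h0.le le_rfl h1
    simpa using this
  have t1 := quot_tend he (κ := (1 + Real.cos ψ) / 2) (by linarith)
    (fun ρ => ρ ^ (1 - e) - (yy ρ ψ) ^ (1 - e)) (fun ρ => ρ - yy ρ ψ) (by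
      filter_upwards [eventually_gt_atTop (1 : ℝ)] with ρ hρ
      have a1 := one_lt_yy hρ h0 h1.le
      have a2 := yy_le hρ ψ
      have a3 := pw (e := e) a1.le a2
      have a4 := Real.rpow_nonneg (show 0 ≤ yy ρ ψ by linarith) (1 - e)
      have a5 := Real.rpow_nonneg (show 0 ≤ ρ by linarith) (1 - e)
      rw [abs_le]; constructor <;> linarith) (Eventually.of_forall fun ρ => yy_rho ρ ψ)
  have t2 := quot_tend he (κ := (1 - Real.cos ψ) / 2) (by linarith)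
    (fun ρ => (yy ρ ψ) ^ (1 - e) - 1) (fun ρ => yy ρ ψ - 1) (by
      filter_upwards [eventually_gt_atTop (1 : ℝ)] with ρ hρ
      have a1 := one_lt_yy hρ h0 h1.le
      have a2 := yy_le hρ ψ
      have a3 := pw (e := e) a1.le a2
      have a4 := Real.rpow_nonneg (show 0 ≤ yy ρ ψ by linarith) (1 - e)
      have a5 := Real.rpow_nonneg (show 0 ≤ ρ by linarith) (1 - e)
      rw [abs_le]; constructor <;> linarith) (Eventually.of_forall fun ρ => yy_one ρ ψ)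
  have t3 : Tendsto (fun ρ : ℝ => 1 - ρ ^ (-e)) atTop (𝓝 (1 - 0)) :=
    tendsto_const_nhds.sub (ev_small he)
  have t4 : Tendsto (fun ρ => Rr e ρ (yy ρ ψ)) atTop (𝓝 (1 + (0 - 0) / (1 - 0))) := by
    unfold Rr
    exact tendsto_const_nhds.add ((t1.sub t2).div t3 (by norm_num))
  have t5 := (t4.sqrt).inv₀ (by norm_num)
  simpa using t5

theorem low {e : ℝ} (he : 0 < e) (he1 : e ≠ 1) :
    ∀ᶠ ρ in atTop, ∀ ψ : ℝ, 0 < ψ → ψ ≤ Real.pi → min 1 (e / 2) ≤ Rr e ρ (yy ρ ψ) := by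
  have h1 : ∀ᶠ ρ : ℝ in atTop, ρ ^ (-e) ≤ min (e / 2) (1 / 2) := by
    have := (ev_small he).eventually (gt_mem_nhds (show (0 : ℝ) < min (e / 2) (1 / 2) by positivity))
    exact this.mono fun _ h => le_of_lt h
  filter_upwards [h1, eventually_gt_atTop (1 : ℝ)] with ρ h2 hρ ψ h3 h4
  have a1 := one_lt_yy hρ h3 h4
  have a2 := yy_le hρ ψ
  have d1 : ρ ^ (-e) ≤ e / 2 := h2.trans (min_le_left _ _)
  have d2 : ρ ^ (-e) ≤ 1 / 2 := h2.trans (min_le_right _ _)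
  have hD : 0 < 1 - ρ ^ (-e) := by linarith
  rcases lt_or_gt_of_ne he1 with h | h
  · refine (min_le_right _ _).trans ?_
    have b1 : (yy ρ ψ ^ (1 - e) - 1) / (yy ρ ψ - 1) ≤ 1 - e := by
      rw [div_le_iff₀ (by linarith)]
      have := rpow_one_add_le_one_add_mul_self (s := yy ρ ψ - 1) (by linarith) (p := 1 - e)
        (by linarith) (by linarith)
      rw [add_sub_cancel] at this
      linarith
    have b2 : 0 ≤ (ρ ^ (1 - e) - yy ρ ψ ^ (1 - e)) / (ρ - yy ρ ψ) := by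
      apply div_nonneg
      · have := Real.rpow_le_rpow (show 0 ≤ yy ρ ψ by linarith) a2 (show 0 ≤ 1 - e by linarith)
        linarith
      · linarith
    unfold Rr
    have b3 : -(1 - e) / (1 - ρ ^ (-e)) ≤ ((ρ ^ (1 - e) - yy ρ ψ ^ (1 - e)) / (ρ - yy ρ ψ) -
        (yy ρ ψ ^ (1 - e) - 1) / (yy ρ ψ - 1)) / (1 - ρ ^ (-e)) := by
      gcongr
      linarith
    have b4 : -(1 - e / 2) ≤ -(1 - e) / (1 - ρ ^ (-e)) := by
      rw [le_div_iff₀ hD]
      nlinarith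
    linarith
  · refine (min_le_left _ _).trans ?_
    have b1 := slope_le h a1 a2
    unfold Rr
    have : 0 ≤ ((ρ ^ (1 - e) - yy ρ ψ ^ (1 - e)) / (ρ - yy ρ ψ) -
        (yy ρ ψ ^ (1 - e) - 1) / (yy ρ ψ - 1)) / (1 - ρ ^ (-e)) :=
      div_nonneg (by linarith) hD.le
    linarith

theorem meas (e ρ : ℝ) : Measurable fun ψ => 1 / √(Rr e ρ (yy ρ ψ)) := by
  unfold Rr yy
  fun_prop

end Limi

open Limi in
theorem t_limi : S_limi := by
  intro s hs hs4
  have he : 0 < (s - 2) / 2 := by linarith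
  have he1 : (s - 2) / 2 ≠ 1 := by
    intro h; apply hs4; linarith
  have key : Tendsto (fun ρ => ∫ ψ in (0 : ℝ)..Real.pi, 1 / √(Rr ((s - 2) / 2) ρ (yy ρ ψ))) atTop
      (𝓝 (∫ ψ in (0 : ℝ)..Real.pi, (1 : ℝ))) := by
    set e := (s - 2) / 2 with hedef
    have hc : 0 < min 1 (e / 2) := by positivity
    refine intervalIntegral.tendsto_integral_filter_of_dominated_convergence
      (fun _ => 1 / √(min 1 (e / 2))) ?_ ?_ ?_ ?_
    · exact Eventually.of_forall fun ρ => (meas e ρ).aestronglyMeasurable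
    · filter_upwards [low he he1] with ρ h
      refine Eventually.of_forall fun ψ hψ => ?_
      rw [uIoc_of_le Real.pi_pos.le] at hψ
      rw [Real.norm_of_nonneg (by positivity)]
      exact one_div_le_one_div_of_le (Real.sqrt_pos.2 hc) (Real.sqrt_le_sqrt (h ψ hψ.1 hψ.2))
    · exact intervalIntegrable_const
    · have hne : ∀ᵐ x : ℝ, x ≠ Real.pi := by simp [ae_iff, measure_singleton]
      filter_upwards [hne] with ψ hψ' hψ
      rw [uIoc_of_le Real.pi_pos.le] at hψ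
      exact point he hψ.1 (lt_of_le_of_ne hψ.2 hψ')
  have h2 := key.const_mul (1 / 2)
  have e1 : (1 / 2 : ℝ) * ∫ ψ in (0 : ℝ)..Real.pi, (1 : ℝ) = Real.pi / 2 := by
    rw [intervalIntegral.integral_const]; simp; ring
  rw [e1] at h2
  exact h2

end Pool.Agent.R963.CA
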