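import Pool.Agent.R963.CA.Stm

/-!
# MP_1d3344_gt, piece CA-2: normalisation of extremal curves
-/

set_option autoImplicit false
set_option maxHeartbeats 400000

open scoped ContDiff Topology
open Set Filter MeasureTheory

namespace Pool.Agent.R963.CA

namespace NormAux

theorem cdd {f : ℝ → ℝ} (h : ContDiff ℝ ∞ f) : ContDiff ℝ ∞ (deriv f) :=
  (contDiff_infty_iff_deriv.1 h).2

theorem hd {f : ℝ → ℝ} (h : ContDiff ℝ ∞ f) (t : ℝ) : HasDerivAt f (deriv f t) t :=
  ((contDiff_infty_iff_deriv.1 h).1 t).hasDerivAt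

/-- a continuous function with integer values is constant -/
theorem const_of_int {f : ℝ → ℝ} (hf : Continuous f) (h : ∀ t, ∃ m : ℤ, f t = m) (a b : ℝ) :
    f a = f b := by
  have key : ∀ a b, ¬ f a < f b := by
    intro a b hab
    obtain ⟨m, hm⟩ := h a
    obtain ⟨k, hk⟩ := h b
    rw [hm, hk] at hab
    have hab' : m + 1 ≤ k := by exact_mod_cast hab
    have hab2 : (m : ℝ) + 1 ≤ k := by exact_mod_cast hab'
    obtain ⟨t, ht⟩ := mem_range_of_exists_le_of_exists_ge hf (c := (m : ℝ) + 1 / 2)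
      ⟨a, by rw [hm]; linarith⟩ ⟨b, by rw [hk]; linarith⟩
    obtain ⟨j, hj⟩ := h t
    rw [hj] at ht
    have h1 : (m : ℝ) < j := by linarith
    have h2 : (j : ℝ) < m + 1 := by linarith
    have h1' : m < j := by exact_mod_cast h1
    have h2' : j < m + 1 := by exact_mod_cast h2
    omega
  exact le_antisymm (not_lt.1 (key b a)) (not_lt.1 (key a b))

/-- a continuous function without integer values changes by less than one -/
theorem eq_zero_of_nonint {g : ℝ → ℝ} (hg : Continuous g) (h : ∀ t, ∀ j : ℤ, g t ≠ j) (a b : ℝ)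
    (i : ℤ) (hi : g b = g a + i) : i = 0 := by
  have key : ∀ a b, ¬ g a + 1 ≤ g b := by
    intro a b hab
    obtain ⟨t, ht⟩ := mem_range_of_exists_le_of_exists_ge hg (c := ((⌈g a⌉ : ℤ) : ℝ))
      ⟨a, Int.le_ceil _⟩ ⟨b, (Int.ceil_lt_add_one _).le.trans hab⟩
    exact h t _ ht
  have h1 := key a b
  have h2 := key b a
  rw [hi] at h1 h2
  have h3 : (i : ℝ) < 1 := by linarith
  have h4 : (-1 : ℝ) < i := by linarith
  have h3' : i < 1 := by exact_mod_cast h3
  have h4' : -1 < i := by exact_mod_cast h4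
  omega

/-- polar coordinates -/
theorem polar {x y : ℝ → ℝ} (hx : ContDiff ℝ ∞ x) (hy : ContDiff ℝ ∞ y)
    (h : ∀ t, x t * deriv y t - y t * deriv x t = 1) :
    ∃ r φ : ℝ → ℝ, ContDiff ℝ ∞ r ∧ ContDiff ℝ ∞ φ ∧ (∀ t, 0 < r t) ∧
      (∀ t, r t ^ 2 = x t ^ 2 + y t ^ 2) ∧ (∀ t, x t = r t * Real.cos (φ t)) ∧
      (∀ t, y t = r t * Real.sin (φ t)) ∧ ∀ t, deriv φ t = 1 / r t ^ 2 := by
  have hpos : ∀ t, 0 < x t ^ 2 + y t ^ 2 := by
    intro t
    rcases (add_nonneg (sq_nonneg (x t)) (sq_nonneg (y t))).eq_or_lt with h0 | h0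
    · exfalso
      have h1 : x t = 0 := by
        have : x t ^ 2 = 0 := by nlinarith [sq_nonneg (x t), sq_nonneg (y t)]
        exact pow_eq_zero_iff two_ne_zero |>.1 this
      have h2 : y t = 0 := by
        have : y t ^ 2 = 0 := by nlinarith [sq_nonneg (x t), sq_nonneg (y t)]
        exact pow_eq_zero_iff two_ne_zero |>.1 this
      have h3 := h t
      rw [h1, h2] at h3
      simp at h3
    · exact h0
  set q : ℝ → ℝ := fun t => x t ^ 2 + y t ^ 2 with hq
  have hqc : ContDiff ℝ ∞ q := (hx.pow 2).add (hy.pow 2)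
  have hqd : ∀ t, HasDerivAt q (2 * (x t * deriv x t + y t * deriv y t)) t := by
    intro t
    have h1 := ((hd hx t).pow 2).add ((hd hy t).pow 2)
    refine h1.congr_deriv ?_
    simp
    ring
  set r : ℝ → ℝ := fun t => √(q t) with hr
  have hrc : ContDiff ℝ ∞ r := hqc.sqrt fun t => (hpos t).ne'
  have hrpos : ∀ t, 0 < r t := fun t => Real.sqrt_pos.2 (hpos t)
  have hr2 : ∀ t, r t ^ 2 = q t := fun t => Real.sq_sqrt (hpos t).le
  have hrd : ∀ t, HasDerivAt r ((x t * deriv x t + y t * deriv y t) / r t) t := by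
    intro t
    have h1 := (hqd t).sqrt (hpos t).ne'
    refine h1.congr_deriv ?_
    have h2 : √(q t) ≠ 0 := (hrpos t).ne'
    change 2 * (x t * deriv x t + y t * deriv y t) / (2 * √(q t)) = _ / √(q t)
    field_simp
  set z : ℂ := ⟨x 0, y 0⟩ with hz
  set φ : ℝ → ℝ := fun t => z.arg + ∫ s in (0 : ℝ)..t, 1 / q s with hφ
  have hc : Continuous fun s => 1 / q s :=
    continuous_const.div hqc.continuous fun t => (hpos t).ne'
  have hφd : ∀ t, HasDerivAt φ (1 / q t) t := fun t =>
    ((hc.integral_hasStrictDerivAt 0 t).hasDerivAt).const_add _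
  have hφd' : deriv φ = fun t => 1 / q t := funext fun t => (hφd t).deriv
  have hφc : ContDiff ℝ ∞ φ := by
    refine contDiff_infty_iff_deriv.2 ⟨fun t => (hφd t).differentiableAt, ?_⟩
    rw [hφd']
    exact contDiff_const.div hqc fun t => (hpos t).ne'
  -- the two constant functions
  have hUd : ∀ t, HasDerivAt (fun t => (x t * Real.cos (φ t) + y t * Real.sin (φ t)) / r t)
      0 t := by
    intro t
    have h1 := (((hd hx t).mul (hφd t).cos).add ((hd hy t).mul (hφd t).sin)).div (hrd t)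
      (hrpos t).ne'
    refine h1.congr_deriv ?_
    have h2 := h t
    have h3 := hr2 t
    have h4 : q t ≠ 0 := (hpos t).ne'
    have h5 : r t ≠ 0 := (hrpos t).ne'
    simp only [Pi.add_apply, Pi.mul_apply]
    rw [← h3]
    have h6 : r t ^ 2 = x t ^ 2 + y t ^ 2 := h3
    field_simp
    have h7 : (deriv x t * r t ^ 2 + y t) = x t * (x t * deriv x t + y t * deriv y t) := by
      rw [h6]; linear_combination (-y t) * h2
    have h8 : (deriv y t * r t ^ 2 - x t) = y t * (x t * deriv x t + y t * deriv y t) := by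
      rw [h6]; linear_combination (x t) * h2
    linear_combination (Real.cos (φ t)) * h7 + (Real.sin (φ t)) * h8
  have hVd : ∀ t, HasDerivAt (fun t => (y t * Real.cos (φ t) - x t * Real.sin (φ t)) / r t)
      0 t := by
    intro t
    have h1 := (((hd hy t).mul (hφd t).cos).sub ((hd hx t).mul (hφd t).sin)).div (hrd t)
      (hrpos t).ne'
    refine h1.congr_deriv ?_
    have h2 := h t
    have h3 := hr2 t
    have h4 : q t ≠ 0 := (hpos t).ne'
    have h5 : r t ≠ 0 := (hrpos t).ne'
    simp only [Pi.sub_apply, Pi.mul_apply]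
    rw [← h3]
    have h6 : r t ^ 2 = x t ^ 2 + y t ^ 2 := h3
    field_simp
    have h7 : (deriv x t * r t ^ 2 + y t) = x t * (x t * deriv x t + y t * deriv y t) := by
      rw [h6]; linear_combination (-y t) * h2
    have h8 : (deriv y t * r t ^ 2 - x t) = y t * (x t * deriv x t + y t * deriv y t) := by
      rw [h6]; linear_combination (x t) * h2
    linear_combination (-Real.sin (φ t)) * h7 + (Real.cos (φ t)) * h8
  have hU : ∀ t, (x t * Real.cos (φ t) + y t * Real.sin (φ t)) / r t =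
      (x 0 * Real.cos (φ 0) + y 0 * Real.sin (φ 0)) / r 0 := fun t =>
    is_const_of_deriv_eq_zero (fun t => (hUd t).differentiableAt) (fun t => (hUd t).deriv) t 0
  have hV : ∀ t, (y t * Real.cos (φ t) - x t * Real.sin (φ t)) / r t =
      (y 0 * Real.cos (φ 0) - x 0 * Real.sin (φ 0)) / r 0 := fun t =>
    is_const_of_deriv_eq_zero (fun t => (hVd t).differentiableAt) (fun t => (hVd t).deriv) t 0
  have hφ0 : φ 0 = z.arg := by simp [hφ]
  have hzn : ‖z‖ = r 0 := by
    rw [Complex.norm_eq_sqrt_sq_add_sq]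
  have hx0 : x 0 = r 0 * Real.cos (φ 0) := by
    rw [hφ0, ← hzn, Complex.norm_mul_cos_arg]
  have hy0 : y 0 = r 0 * Real.sin (φ 0) := by
    rw [hφ0, ← hzn, Complex.norm_mul_sin_arg]
  have hU1 : ∀ t, x t * Real.cos (φ t) + y t * Real.sin (φ t) = r t := by
    intro t
    have h1 := hU t
    have h2 : (x 0 * Real.cos (φ 0) + y 0 * Real.sin (φ 0)) / r 0 = 1 := by
      rw [div_eq_one_iff_eq (hrpos 0).ne']
      rw [hx0, hy0]
      have := Real.sin_sq_add_cos_sq (φ 0)
      linear_combination (r 0) * this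
    rw [h2, div_eq_one_iff_eq (hrpos t).ne'] at h1
    exact h1
  have hV1 : ∀ t, y t * Real.cos (φ t) - x t * Real.sin (φ t) = 0 := by
    intro t
    have h1 := hV t
    have h2 : (y 0 * Real.cos (φ 0) - x 0 * Real.sin (φ 0)) / r 0 = 0 := by
      rw [hx0, hy0]
      have : r 0 * Real.sin (φ 0) * Real.cos (φ 0) - r 0 * Real.cos (φ 0) * Real.sin (φ 0) = 0 := by
        ring
      rw [this, zero_div]
    rw [h2, div_eq_zero_iff] at h1
    exact h1.resolve_right (hrpos t).ne'
  refine ⟨r, φ, hrc, hφc, hrpos, hr2, ?_, ?_, ?_⟩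
  · intro t
    have h1 := Real.sin_sq_add_cos_sq (φ t)
    linear_combination (Real.cos (φ t)) * hU1 t - (Real.sin (φ t)) * hV1 t - (x t) * h1
  · intro t
    have h1 := Real.sin_sq_add_cos_sq (φ t)
    linear_combination (Real.sin (φ t)) * hU1 t + (Real.cos (φ t)) * hV1 t - (y t) * h1
  · intro t
    rw [hφd', hr2]

/-- two angles with the same cosine and sine -/
theorem angle_int {θ ψ : ℝ} (h1 : Real.cos θ = Real.cos ψ) (h2 : Real.sin θ = Real.sin ψ) :
    ∃ m : ℤ, (θ - ψ) / (2 * Real.pi) = m := by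
  have h3 : (θ : Real.Angle) = ψ := Real.Angle.cos_sin_inj h1 h2
  obtain ⟨k, hk⟩ := Real.Angle.angle_eq_iff_two_pi_dvd_sub.1 h3
  refine ⟨k, ?_⟩
  rw [hk]
  have := Real.pi_ne_zero
  field_simp

/-- every direction is taken -/
theorem exists_dir {θ : ℝ → ℝ} (hθ : Continuous θ) {T : ℝ} {n : ℕ} (hn : 1 ≤ n)
    (h : θ T - θ 0 = 2 * Real.pi * n) (w : ℝ) : ∃ t, ∃ j : ℤ, θ t = w + j * (2 * Real.pi) := by
  have hpi := Real.two_pi_pos
  set j : ℤ := ⌈(θ 0 - w) / (2 * Real.pi)⌉ with hj
  have h1 : (θ 0 - w) / (2 * Real.pi) ≤ j := Int.le_ceil _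
  have h2 : (j : ℝ) < (θ 0 - w) / (2 * Real.pi) + 1 := Int.ceil_lt_add_one _
  have h1' : θ 0 ≤ w + j * (2 * Real.pi) := by
    rw [div_le_iff₀ hpi] at h1
    linarith
  have h2' : w + j * (2 * Real.pi) ≤ θ T := by
    have h3 : (j : ℝ) * (2 * Real.pi) < ((θ 0 - w) / (2 * Real.pi) + 1) * (2 * Real.pi) :=
      mul_lt_mul_of_pos_right h2 hpi
    have h4 : ((θ 0 - w) / (2 * Real.pi) + 1) * (2 * Real.pi) = θ 0 - w + 2 * Real.pi := by
      field_simp
    have h5 : (1 : ℝ) ≤ n := by exact_mod_cast hn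
    have h6 : 2 * Real.pi ≤ 2 * Real.pi * n := by nlinarith
    linarith
  obtain ⟨t, ht⟩ := mem_range_of_exists_le_of_exists_ge hθ (c := w + j * (2 * Real.pi))
    ⟨0, h1'⟩ ⟨T, h2'⟩
  exact ⟨t, j, ht⟩

/-- the normalisation, for the components of the curve -/
theorem core {X Y p F : ℝ → ℝ} {α β δ T : ℝ} {n : ℕ} (hX : ContDiff ℝ ∞ X)
    (hY : ContDiff ℝ ∞ Y)
    (hca : ∀ t, X t * deriv Y t - Y t * deriv X t = 1)
    (hX2 : ∀ t, deriv (deriv X) t = - p t * X t) (hY2 : ∀ t, deriv (deriv Y) t = - p t * Y t)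
    (hXT : ∀ t, X (t + T) = X t) (hYT : ∀ t, Y (t + T) = Y t) (hT : 0 < T)
    (hrot : ∃ r θ : ℝ → ℝ, Continuous θ ∧ (∀ t, 0 < r t) ∧
      (∀ t, X t = r t * Real.cos (θ t)) ∧ (∀ t, Y t = r t * Real.sin (θ t)) ∧
      θ T - θ 0 = 2 * Real.pi * n)
    (hF0 : ∀ t, 0 < F t)
    (hF : ∀ t, F t = α * X t ^ 2 + 2 * β * (X t * Y t) + δ * Y t ^ 2) :
    1 ≤ n ∧ ∃ (k : ℝ) (x y r φ : ℝ → ℝ), 0 < k ∧ ContDiff ℝ ∞ x ∧ ContDiff ℝ ∞ y ∧
    ContDiff ℝ ∞ r ∧ ContDiff ℝ ∞ φ ∧ (∀ t, 0 < r t) ∧
    (∀ t, x t = r t * Real.cos (φ t)) ∧ (∀ t, y t = r t * Real.sin (φ t)) ∧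
    (∀ t, deriv φ t = 1 / r t ^ 2) ∧ (∀ t, F t = k * r t ^ 2) ∧
    (∀ t, deriv (deriv r) t = 1 / r t ^ 3 - p t * r t) ∧
    (∀ t, r (t + T) = r t) ∧ (∀ t, φ (t + T) = φ t + 2 * Real.pi * n) := by
  have hpi := Real.two_pi_pos
  obtain ⟨r1, θ1, hr1c, hθ1c, hr1, hr1s, hX1, hY1, hθ1d⟩ := polar hX hY hca
  obtain ⟨r0, θ, hθc, hr0, hX0, hY0, hθT⟩ := hrot
  -- comparison of the two angles
  have hrr : ∀ t, r0 t = r1 t := by
    intro t
    have h1 : r0 t ^ 2 = r1 t ^ 2 := by
      rw [hr1s, hX0, hY0]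
      have := Real.sin_sq_add_cos_sq (θ t)
      linear_combination (-(r0 t) ^ 2) * this
    exact (pow_left_inj₀ (hr0 t).le (hr1 t).le two_ne_zero).1 h1
  have hint : ∀ t, ∃ m : ℤ, (θ t - θ1 t) / (2 * Real.pi) = m := by
    intro t
    apply angle_int
    · have h1 := (hX0 t).symm.trans (hX1 t)
      rw [hrr t] at h1
      exact mul_left_cancel₀ (hr1 t).ne' h1
    · have h1 := (hY0 t).symm.trans (hY1 t)
      rw [hrr t] at h1
      exact mul_left_cancel₀ (hr1 t).ne' h1
  have hconst := const_of_int (f := fun t => (θ t - θ1 t) / (2 * Real.pi))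
    ((hθc.sub hθ1c.continuous).div_const _) hint T 0
  have hθ1T : θ1 T - θ1 0 = 2 * Real.pi * n := by
    have h1 : θ T - θ1 T = θ 0 - θ1 0 := by
      have h2 : (θ T - θ1 T) / (2 * Real.pi) = (θ 0 - θ1 0) / (2 * Real.pi) := hconst
      have h3 : (θ T - θ1 T) / (2 * Real.pi) * (2 * Real.pi) =
          (θ 0 - θ1 0) / (2 * Real.pi) * (2 * Real.pi) := by rw [h2]
      rwa [div_mul_cancel₀ _ hpi.ne', div_mul_cancel₀ _ hpi.ne'] at h3
    linarith
  have hmono : StrictMono θ1 := by
    apply strictMono_of_deriv_pos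
    intro t
    rw [hθ1d t]
    have := hr1 t
    positivity
  have hn : 1 ≤ n := by
    have h1 := hmono hT
    rcases Nat.eq_zero_or_pos n with h0 | h0
    · rw [h0] at hθ1T
      simp at hθ1T
      linarith
    · exact h0
  refine ⟨hn, ?_⟩
  -- positivity of the quadratic form
  have hQ : ∀ u v : ℝ, (u ≠ 0 ∨ v ≠ 0) → 0 < α * u ^ 2 + 2 * β * (u * v) + δ * v ^ 2 := by
    intro u v huv
    set z : ℂ := ⟨u, v⟩ with hz
    have hz0 : z ≠ 0 := by
      intro h0
      have h1 : u = 0 := congrArg Complex.re h0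
      have h2 : v = 0 := congrArg Complex.im h0
      rcases huv with h | h
      · exact h h1
      · exact h h2
    obtain ⟨t, j, ht⟩ := exists_dir hθ1c.continuous hn hθ1T z.arg
    have hu : u = ‖z‖ * Real.cos z.arg := (Complex.norm_mul_cos_arg z).symm
    have hv : v = ‖z‖ * Real.sin z.arg := (Complex.norm_mul_sin_arg z).symm
    have hc : Real.cos (θ1 t) = Real.cos z.arg := by
      rw [ht, Real.cos_add_int_mul_two_pi]
    have hs : Real.sin (θ1 t) = Real.sin z.arg := by
      rw [ht, Real.sin_add_int_mul_two_pi]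
    have hF1 := hF0 t
    rw [hF t, hX1 t, hY1 t, hc, hs] at hF1
    have hzp : 0 < ‖z‖ := norm_pos_iff.2 hz0
    have hr := hr1 t
    have h5 : 0 < α * Real.cos z.arg ^ 2 + 2 * β * (Real.cos z.arg * Real.sin z.arg) +
        δ * Real.sin z.arg ^ 2 := by
      have h6 : α * (r1 t * Real.cos z.arg) ^ 2 + 2 * β * (r1 t * Real.cos z.arg *
          (r1 t * Real.sin z.arg)) + δ * (r1 t * Real.sin z.arg) ^ 2 =
          r1 t ^ 2 * (α * Real.cos z.arg ^ 2 + 2 * β * (Real.cos z.arg * Real.sin z.arg) +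
        δ * Real.sin z.arg ^ 2) := by ring
      rw [h6] at hF1
      exact (pos_iff_pos_of_mul_pos hF1).1 (by positivity)
    rw [hu, hv]
    have h7 : α * (‖z‖ * Real.cos z.arg) ^ 2 + 2 * β * (‖z‖ * Real.cos z.arg *
        (‖z‖ * Real.sin z.arg)) + δ * (‖z‖ * Real.sin z.arg) ^ 2 =
        ‖z‖ ^ 2 * (α * Real.cos z.arg ^ 2 + 2 * β * (Real.cos z.arg * Real.sin z.arg) +
        δ * Real.sin z.arg ^ 2) := by ring
    rw [h7]
    positivity
  have hα : 0 < α := by
    have := hQ 1 0 (Or.inl one_ne_zero)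
    simpa using this
  have hdisc : 0 < α * δ - β ^ 2 := by
    have h1 := hQ (-β) α (Or.inr hα.ne')
    have h2 : α * (-β) ^ 2 + 2 * β * (-β * α) + δ * α ^ 2 = α * (α * δ - β ^ 2) := by ring
    rw [h2] at h1
    exact (pos_iff_pos_of_mul_pos h1).1 hα
  set k : ℝ := √(α * δ - β ^ 2) with hk
  have hk0 : 0 < k := Real.sqrt_pos.2 hdisc
  have hk2 : k ^ 2 = α * δ - β ^ 2 := Real.sq_sqrt hdisc.le
  set c : ℝ := √(α * k) with hc
  have hc0 : 0 < c := Real.sqrt_pos.2 (mul_pos hα hk0)
  have hc2 : c ^ 2 = α * k := Real.sq_sqrt (mul_pos hα hk0).le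
  set x : ℝ → ℝ := fun t => (α * X t + β * Y t) / c with hx
  set y : ℝ → ℝ := fun t => k * Y t / c with hy
  have hxc : ContDiff ℝ ∞ x := ((contDiff_const.mul hX).add (contDiff_const.mul hY)).div_const c
  have hyc : ContDiff ℝ ∞ y := (contDiff_const.mul hY).div_const c
  have hxd : deriv x = fun t => (α * deriv X t + β * deriv Y t) / c := by
    funext t
    exact ((((hd hX t).const_mul α).add ((hd hY t).const_mul β)).div_const c).deriv
  have hyd : deriv y = fun t => k * deriv Y t / c := by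
    funext t
    exact (((hd hY t).const_mul k).div_const c).deriv
  have hxdd : ∀ t, deriv (deriv x) t = - p t * x t := by
    intro t
    rw [hxd]
    have h1 := ((((hd (cdd hX) t).const_mul α).add ((hd (cdd hY) t).const_mul β)).div_const
      c).deriv
    refine Eq.trans h1 ?_
    rw [hX2, hY2]
    simp only [hx]
    ring
  have hydd : ∀ t, deriv (deriv y) t = - p t * y t := by
    intro t
    rw [hyd]
    have h1 := (((hd (cdd hY) t).const_mul k).div_const c).deriv
    refine Eq.trans h1 ?_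
    rw [hY2]
    simp only [hy]
    ring
  have hdet : ∀ t, x t * deriv y t - y t * deriv x t = 1 := by
    intro t
    rw [hxd, hyd]
    simp only [hx, hy]
    have h1 : (α * X t + β * Y t) / c * (k * deriv Y t / c) -
        k * Y t / c * ((α * deriv X t + β * deriv Y t) / c) =
        (α * k) * (X t * deriv Y t - Y t * deriv X t) / c ^ 2 := by
      field_simp
      ring
    rw [h1, hca t, hc2, mul_one, div_self (mul_pos hα hk0).ne']
  obtain ⟨r, φ, hrc, hφc, hr, hrs, hxr, hyr, hφd⟩ := polar hxc hyc hdet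
  have hxT : ∀ t, x (t + T) = x t := fun t => by simp only [hx, hXT, hYT]
  have hyT : ∀ t, y (t + T) = y t := fun t => by simp only [hy, hYT]
  have hrT : ∀ t, r (t + T) = r t := by
    intro t
    have h1 : r (t + T) ^ 2 = r t ^ 2 := by rw [hrs, hrs, hxT, hyT]
    exact (pow_left_inj₀ (hr _).le (hr t).le two_ne_zero).1 h1
  refine ⟨k, x, y, r, φ, hk0, hxc, hyc, hrc, hφc, hr, hxr, hyr, hφd, ?_, ?_, hrT, ?_⟩
  · intro t
    rw [hF t, hrs t]
    simp only [hx, hy]
    have h1 : k * (((α * X t + β * Y t) / c) ^ 2 + (k * Y t / c) ^ 2) =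
        k * ((α * X t + β * Y t) ^ 2 + k ^ 2 * Y t ^ 2) / c ^ 2 := by
      field_simp
    rw [h1, hc2, hk2]
    field_simp
    ring
  · intro t
    -- derivative of `r`
    have hrd : ∀ t, r t * deriv r t = x t * deriv x t + y t * deriv y t := by
      intro t
      have h1 : HasDerivAt (fun t => r t ^ 2) (2 * (r t * deriv r t)) t := by
        refine ((hd hrc t).pow 2).congr_deriv ?_
        simp
        ring
      have h2 : HasDerivAt (fun t => r t ^ 2) (2 * (x t * deriv x t + y t * deriv y t)) t := by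
        have h3 := ((hd hxc t).pow 2).add ((hd hyc t).pow 2)
        have h4 : (fun t => r t ^ 2) = fun t => x t ^ 2 + y t ^ 2 := funext hrs
        rw [h4]
        refine h3.congr_deriv ?_
        simp
        ring
      have := h1.unique h2
      linarith
    have hrdd : deriv r t ^ 2 + r t * deriv (deriv r) t =
        deriv x t ^ 2 + deriv y t ^ 2 + (x t * deriv (deriv x) t + y t * deriv (deriv y) t) := by
      have h1 : HasDerivAt (fun t => r t * deriv r t)
          (deriv r t * deriv r t + r t * deriv (deriv r) t) t :=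
        (hd hrc t).mul (hd (cdd hrc) t)
      have h2 : HasDerivAt (fun t => r t * deriv r t)
          (deriv x t * deriv x t + x t * deriv (deriv x) t +
            (deriv y t * deriv y t + y t * deriv (deriv y) t)) t := by
        have h4 : (fun t => r t * deriv r t) = fun t => x t * deriv x t + y t * deriv y t :=
          funext hrd
        rw [h4]
        exact ((hd hxc t).mul (hd (cdd hxc) t)).add ((hd hyc t).mul (hd (cdd hyc) t))
      have := h1.unique h2
      linarith
    rw [hxdd, hydd] at hrdd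
    have h5 : r t ^ 2 * (deriv x t ^ 2 + deriv y t ^ 2) = (r t * deriv r t) ^ 2 + 1 := by
      rw [hrs, hrd]
      have h6 := hdet t
      linear_combination (x t * deriv y t - y t * deriv x t + 1) * h6
    have h0 := (hr t).ne'
    have h7 := hrs t
    have h8 : r t ^ 3 * deriv (deriv r) t = 1 - p t * r t ^ 4 := by
      linear_combination (r t ^ 2) * hrdd + h5 + (p t * r t ^ 2) * h7
    field_simp
    linear_combination h8
  · -- the winding number
    have hint2 : ∀ t, ∃ m : ℤ, (φ (t + T) - φ t) / (2 * Real.pi) = m := by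
      intro t
      apply angle_int
      · have h1 := hxT t
        rw [hxr, hxr, hrT] at h1
        exact mul_left_cancel₀ (hr t).ne' h1
      · have h1 := hyT t
        rw [hyr, hyr, hrT] at h1
        exact mul_left_cancel₀ (hr t).ne' h1
    have hφT : Continuous fun t => φ (t + T) :=
      hφc.continuous.comp (continuous_id.add continuous_const)
    have hconst2 := const_of_int (f := fun t => (φ (t + T) - φ t) / (2 * Real.pi))
      ((hφT.sub hφc.continuous).div_const _) hint2
    obtain ⟨m, hm⟩ := hint2 0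
    have hm' : ∀ t, φ (t + T) = φ t + 2 * Real.pi * m := by
      intro t
      have h1 : (φ (t + T) - φ t) / (2 * Real.pi) = m := (hconst2 t 0).trans hm
      rw [div_eq_iff hpi.ne'] at h1
      linarith
    have hnon : ∀ t, ∀ j : ℤ, (φ t - θ1 t - Real.pi) / (2 * Real.pi) ≠ j := by
      intro t j hj
      rw [div_eq_iff hpi.ne'] at hj
      have h1 : φ t = θ1 t + Real.pi + j * (2 * Real.pi) := by linarith
      have h2 : Real.cos (φ t) = - Real.cos (θ1 t) := by
        rw [h1, Real.cos_add_int_mul_two_pi, Real.cos_add_pi]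
      have h3 : Real.sin (φ t) = - Real.sin (θ1 t) := by
        rw [h1, Real.sin_add_int_mul_two_pi, Real.sin_add_pi]
      have hr1t := hr1 t
      have hrt := hr t
      have h4 : r1 t * x t = - (r t * X t) := by
        rw [hxr, hX1, h2]; ring
      have h5 : r1 t * y t = - (r t * Y t) := by
        rw [hyr, hY1, h3]; ring
      have h6 : Y t = 0 := by
        have h7 : (r1 t * k / c + r t) * Y t = 0 := by
          have : r1 t * (k * Y t / c) = - (r t * Y t) := h5
          have h8 : (r1 t * k / c + r t) * Y t = r1 t * (k * Y t / c) + r t * Y t := by ring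
          rw [h8, this]; ring
        have h9 : 0 < r1 t * k / c + r t := by positivity
        exact (mul_eq_zero.1 h7).resolve_left h9.ne'
      have h10 : X t = 0 := by
        have h7 : (r1 t * α / c + r t) * X t = 0 := by
          have : r1 t * ((α * X t + β * Y t) / c) = - (r t * X t) := h4
          rw [h6] at this
          have h8 : (r1 t * α / c + r t) * X t = r1 t * ((α * X t + β * 0) / c) + r t * X t := by
            ring
          rw [h8, this]; ring
        have h9 : 0 < r1 t * α / c + r t := by positivity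
        exact (mul_eq_zero.1 h7).resolve_left h9.ne'
      have h11 := hca t
      rw [h6, h10] at h11
      simp at h11
    have hmn := eq_zero_of_nonint (g := fun t => (φ t - θ1 t - Real.pi) / (2 * Real.pi))
      (((hφc.continuous.sub hθ1c.continuous).sub continuous_const).div_const _) hnon 0 T
      (m - n) (by
        have h1 := hm' 0
        rw [zero_add] at h1
        have h2 : θ1 T = θ1 0 + 2 * Real.pi * n := by linarith
        change (φ T - θ1 T - Real.pi) / (2 * Real.pi) = (φ 0 - θ1 0 - Real.pi) / (2 * Real.pi) +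
          ((m - n : ℤ) : ℝ)
        rw [h1, h2]
        push_cast
        have := Real.pi_ne_zero
        field_simp
        ring)
    intro t
    rw [hm' t]
    have h3 : m = n := by omega
    rw [h3]
    push_cast
    rfl

end NormAux

open NormAux

theorem t_norm (h : S_quad) : S_norm := by
  intro a T n γ hE
  have hγ := hE.smooth
  have hX : ContDiff ℝ ∞ fun t => (γ t).1 := contDiff_fst.comp hγ
  have hY : ContDiff ℝ ∞ fun t => (γ t).2 := contDiff_snd.comp hγ
  set X : ℝ → ℝ := fun t => (γ t).1 with hXd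
  set Y : ℝ → ℝ := fun t => (γ t).2 with hYd
  have hdγ : deriv γ = fun t => (deriv X t, deriv Y t) := by
    funext t
    exact ((hd hX t).prodMk (hd hY t)).deriv
  have hddγ : deriv (deriv γ) = fun t => (deriv (deriv X) t, deriv (deriv Y) t) := by
    rw [hdγ]
    funext t
    exact ((hd (cdd hX) t).prodMk (hd (cdd hY) t)).deriv
  have hca : ∀ t, X t * deriv Y t - Y t * deriv X t = 1 := by
    intro t
    have h1 := hE.ca t
    rw [hdγ] at h1
    exact h1
  have hp : ∀ t, pp γ t = deriv X t * deriv (deriv Y) t - deriv Y t * deriv (deriv X) t := by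
    intro t
    unfold pp
    rw [hddγ, hdγ]
    rfl
  have hXY2 : ∀ t, X t * deriv (deriv Y) t - Y t * deriv (deriv X) t = 0 := by
    intro t
    have h1 : HasDerivAt (fun t => X t * deriv Y t - Y t * deriv X t)
        ((deriv X t * deriv Y t + X t * deriv (deriv Y) t) -
          (deriv Y t * deriv X t + Y t * deriv (deriv X) t)) t :=
      ((hd hX t).mul (hd (cdd hY) t)).sub ((hd hY t).mul (hd (cdd hX) t))
    have h2 : (fun t => X t * deriv Y t - Y t * deriv X t) = fun _ => (1 : ℝ) := funext hca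
    rw [h2] at h1
    have h3 := h1.unique (hasDerivAt_const t (1 : ℝ))
    linarith
  have hX2 : ∀ t, deriv (deriv X) t = - pp γ t * X t := by
    intro t
    have h1 := hca t
    have h2 := hXY2 t
    rw [hp t]
    linear_combination (-deriv (deriv X) t) * h1 + (deriv X t) * h2
  have hY2 : ∀ t, deriv (deriv Y) t = - pp γ t * Y t := by
    intro t
    have h1 := hca t
    have h2 := hXY2 t
    rw [hp t]
    linear_combination (-deriv (deriv Y) t) * h1 + (deriv Y t) * h2
  have hpp : ContDiff ℝ ∞ (pp γ) := by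
    have h1 : pp γ = fun t => deriv X t * deriv (deriv Y) t - deriv Y t * deriv (deriv X) t :=
      funext hp
    rw [h1]
    exact ((cdd hX).mul (cdd (cdd hY))).sub ((cdd hY).mul (cdd (cdd hX)))
  have hFc : ContDiff ℝ ∞ (FF a γ) := hpp.rpow_const_of_ne fun t => (hE.p_pos t).ne'
  obtain ⟨α, β, δ, hQ⟩ := h γ (FF a γ) hγ hFc hE.ca hE.ext
  refine core (p := pp γ) (F := FF a γ) (α := α) (β := β) (δ := δ) (T := T) (n := n) hX hY hca
    hX2 hY2 (fun t => congrArg Prod.fst (hE.per t)) (fun t => congrArg Prod.snd (hE.per t))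
    hE.T_pos ?_ (fun t => Real.rpow_pos_of_pos (hE.p_pos t) _) hQ
  obtain ⟨r, θ, h1, h2, h3, h4⟩ := hE.rot
  exact ⟨r, θ, h1, h2, fun t => congrArg Prod.fst (h3 t), fun t => congrArg Prod.snd (h3 t), h4⟩

end Pool.Agent.R963.CA
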