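import Pool.Agent.R963.CA.Stm

open scoped ContDiff Topology
open Set Filter MeasureTheory

/-! CA-9 (helper45). -/

namespace Pool.Agent.R963.CA

set_option maxHeartbeats 400000 in
theorem t_osc (h : S_con) : S_osc := by
  intro s ρ k hs hρ _
  set e : ℝ := (s - 2) / 2 with he
  have he0 : 0 < e := by rw [he]; linarith
  have hρ0 : 0 < ρ := by linarith
  have hlt : ρ ^ (-e) < 1 := Real.rpow_lt_one_of_one_lt_of_neg hρ (by linarith)
  have hd : 0 < 1 - ρ ^ (-e) := by linarith
  set c : ℝ := e * (ρ - 1) / (1 - ρ ^ (-e)) with hc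
  have hc0 : 0 < c := div_pos (mul_pos he0 (by linarith)) hd
  have hcond : c / ((s - 2) / 2) * ((1 : ℝ) ^ (-((s - 2) / 2)) - ρ ^ (-((s - 2) / 2))) = ρ - 1 := by
    rw [← he, Real.one_rpow, hc]
    field_simp
  obtain ⟨hτ, U, V, hSol, _, _, hper, _, hnc⟩ := h s c 1 ρ hs hc0 one_pos hρ hcond
  rw [div_one] at hper
  refine ⟨c, U, V, hc0, hSol, hnc, ?_⟩
  have key : ∀ n : ℕ, ∀ θ, U (θ + 2 * n * tau s ρ) = U θ := by
    intro n
    induction n with
    | zero => intro θ; simp
    | succ n ih =>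
      intro θ
      have : θ + 2 * ((n + 1 : ℕ) : ℝ) * tau s ρ = (θ + 2 * n * tau s ρ) + 2 * tau s ρ := by
        push_cast; ring
      rw [this, hper, ih]
  exact key k

end Pool.Agent.R963.CA
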