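import Pool.Agent.R963.CA.Stm

/-! Piece CA-8 of project CA (MP_1d3344_gt): periods of all solutions. -/

open scoped ContDiff Topology
open Set Filter MeasureTheory

namespace Pool.Agent.R963.CA

namespace Per27

theorem per_min {u : ℝ → ℝ} (hu : Continuous u) {P : ℝ} (hP : 0 < P)
    (hper : ∀ θ, u (θ + P) = u θ) : ∃ θ₀, ∀ θ, u θ₀ ≤ u θ := by
  obtain ⟨θ₀, _, h⟩ := isCompact_Icc.exists_isMinOn (nonempty_Icc.2 hP.le) hu.continuousOn
  refine ⟨θ₀, fun θ => ?_⟩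
  have hp : Function.Periodic u P := hper
  obtain ⟨y, hy, hy'⟩ := hp.exists_mem_Ico₀ hP θ
  rw [hy']
  exact h ⟨hy.1, hy.2.le⟩

theorem per_max {u : ℝ → ℝ} (hu : Continuous u) {P : ℝ} (hP : 0 < P)
    (hper : ∀ θ, u (θ + P) = u θ) : ∃ θ₁, ∀ θ, u θ ≤ u θ₁ := by
  obtain ⟨θ₁, h⟩ := per_min hu.neg hP (fun θ => by simp [hper])
  exact ⟨θ₁, fun θ => by have := h θ; simp only [Pi.neg_apply] at this; linarith⟩

theorem cont_u {s c : ℝ} {u v : ℝ → ℝ} (h : Sol s c u v) : Continuous u :=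
  continuous_iff_continuousAt.2 fun θ => (h.du θ).continuousAt

theorem energy {s c : ℝ} {u v : ℝ → ℝ} (hs : 2 < s) (h : Sol s c u v) (x y : ℝ) :
    v x ^ 2 + u x ^ 2 + c / ((s - 2) / 2) * u x ^ (2 - s) =
    v y ^ 2 + u y ^ 2 + c / ((s - 2) / 2) * u y ^ (2 - s) := by
  have hd : ∀ θ, HasDerivAt (fun θ => v θ ^ 2 + u θ ^ 2 + c / ((s - 2) / 2) * u θ ^ (2 - s))
      0 θ := by
    intro θ
    have h1 := (h.dv θ).pow 2
    have h2 := (h.du θ).pow 2
    have h3 := ((h.du θ).rpow_const (p := 2 - s) (Or.inl (h.pos θ).ne')).const_mul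
      (c / ((s - 2) / 2))
    have h4 := (h1.add h2).add h3
    refine h4.congr_deriv ?_
    have e : (2 : ℝ) - s - 1 = 1 - s := by ring
    rw [e]
    have hs' : s - 2 ≠ 0 := by linarith
    field_simp
    ring
  exact is_const_of_deriv_eq_zero (fun θ => (hd θ).differentiableAt) (fun θ => (hd θ).deriv) x y

theorem uniq {s c δ : ℝ} (hs : 2 < s) (hc : 0 < c) (hδ : 0 < δ) {u v U V : ℝ → ℝ}
    (h : ∀ θ, HasDerivAt u (v θ) θ) (h' : ∀ θ, HasDerivAt v (-u θ + c * (u θ) ^ (1 - s)) θ)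
    (hU : Sol s c U V) (hu : ∀ θ, δ ≤ u θ)
    (hU' : ∀ θ, δ ≤ U θ) (e1 : u 0 = U 0) (e2 : v 0 = V 0) : u = U := by
  let F : ℝ × ℝ → ℝ × ℝ := fun x => (x.2, -x.1 + c * x.1 ^ (1 - s))
  let C : ℝ := |1 - s| * δ ^ (-s)
  have hC : 0 ≤ C := mul_nonneg (abs_nonneg _) (Real.rpow_nonneg hδ.le _)
  have hlip1 : ∀ x ∈ Ici δ, ∀ y ∈ Ici δ, ‖x ^ (1 - s) - y ^ (1 - s)‖ ≤ C * ‖x - y‖ := by
    intro x hx y hy
    refine Convex.norm_image_sub_le_of_norm_hasDerivWithin_le (f := fun x : ℝ => x ^ (1 - s))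
      (f' := fun x => (1 - s) * x ^ (1 - s - 1)) (s := Ici δ) ?_ ?_ (convex_Ici δ) hy hx
    · intro z hz
      have hz0 : 0 < z := hδ.trans_le hz
      exact (Real.hasDerivAt_rpow_const (Or.inl hz0.ne')).hasDerivWithinAt
    · intro z hz
      have hz0 : 0 < z := hδ.trans_le hz
      rw [norm_mul, Real.norm_eq_abs, Real.norm_eq_abs,
        abs_of_nonneg (Real.rpow_nonneg hz0.le _)]
      have e : (1 : ℝ) - s - 1 = -s := by ring
      rw [e]
      exact mul_le_mul_of_nonneg_left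
        (Real.rpow_le_rpow_of_nonpos hδ hz (by linarith)) (abs_nonneg _)
  have hlip : LipschitzOnWith (Real.toNNReal (1 + c * C)) F {x : ℝ × ℝ | δ ≤ x.1} := by
    apply LipschitzOnWith.of_dist_le_mul
    intro x hx y hy
    have hK : (0 : ℝ) ≤ 1 + c * C := by positivity
    rw [Real.coe_toNNReal _ hK]
    have d1 : |x.1 - y.1| ≤ dist x y := by
      rw [Prod.dist_eq, ← Real.dist_eq]
      exact le_max_left _ _
    have d2 : |x.2 - y.2| ≤ dist x y := by
      rw [Prod.dist_eq, ← Real.dist_eq]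
      exact le_max_right _ _
    have h3 := hlip1 x.1 hx y.1 hy
    rw [Real.norm_eq_abs, Real.norm_eq_abs] at h3
    have hcC : 0 ≤ c * C := by positivity
    rw [Prod.dist_eq]
    apply max_le
    · rw [Real.dist_eq]
      have : 0 ≤ c * C * dist x y := mul_nonneg hcC dist_nonneg
      calc |x.2 - y.2| ≤ dist x y := d2
        _ ≤ (1 + c * C) * dist x y := by linarith
    · rw [Real.dist_eq]
      have e : (-x.1 + c * x.1 ^ (1 - s)) - (-y.1 + c * y.1 ^ (1 - s)) =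
        -(x.1 - y.1) + c * (x.1 ^ (1 - s) - y.1 ^ (1 - s)) := by ring
      show |(-x.1 + c * x.1 ^ (1 - s)) - (-y.1 + c * y.1 ^ (1 - s))| ≤ _
      rw [e]
      calc |-(x.1 - y.1) + c * (x.1 ^ (1 - s) - y.1 ^ (1 - s))|
          ≤ |-(x.1 - y.1)| + |c * (x.1 ^ (1 - s) - y.1 ^ (1 - s))| := abs_add_le _ _
        _ = |x.1 - y.1| + c * |x.1 ^ (1 - s) - y.1 ^ (1 - s)| := by
          rw [abs_neg, abs_mul, abs_of_pos hc]
        _ ≤ dist x y + c * (C * dist x y) := by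
          have : C * |x.1 - y.1| ≤ C * dist x y := mul_le_mul_of_nonneg_left d1 hC
          have h4 := h3.trans this
          have := mul_le_mul_of_nonneg_left h4 hc.le
          linarith
        _ = (1 + c * C) * dist x y := by ring
  have := ODE_solution_unique_univ (v := fun _ => F) (s := fun _ => {x : ℝ × ℝ | δ ≤ x.1})
    (K := Real.toNNReal (1 + c * C)) (f := fun θ => (u θ, v θ)) (g := fun θ => (U θ, V θ))
    (t₀ := 0) (fun _ => hlip) (fun θ => ⟨(h θ).prodMk (h' θ), hu θ⟩)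
    (fun θ => ⟨(hU.du θ).prodMk (hU.dv θ), hU' θ⟩) (by simp only [e1, e2])
  funext θ
  exact congrArg Prod.fst (congrFun this θ)

end Per27

open Per27

set_option maxHeartbeats 400000 in
theorem t_per (h : S_con) : S_per := by
  rintro s P hs hP ⟨c, u, v, hc, hS, ⟨θv, hv⟩, hper⟩
  obtain ⟨θ₀, h0⟩ := per_min (cont_u hS) hP hper
  obtain ⟨θ₁, h1⟩ := per_max (cont_u hS) hP hper
  have v0 : v θ₀ = 0 :=
    IsLocalMin.hasDerivAt_eq_zero (Eventually.of_forall h0) (hS.du θ₀)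
  have v1 : v θ₁ = 0 :=
    IsLocalMax.hasDerivAt_eq_zero (Eventually.of_forall h1) (hS.du θ₁)
  have hlt : u θ₀ < u θ₁ := by
    rcases (h0 θ₁).lt_or_eq with h2 | h2
    · exact h2
    · exfalso
      apply hv
      have hconst : u = fun _ => u θ₀ := by
        funext θ
        exact le_antisymm ((h1 θ).trans h2.ge) (h0 θ)
      have h3 := hS.du θv
      rw [hconst] at h3
      exact h3.unique (hasDerivAt_const _ _)
  have p0 := hS.pos θ₀
  have p1 := hS.pos θ₁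
  have hE := energy hs hS θ₁ θ₀
  rw [v0, v1] at hE
  have hpw : ∀ x : ℝ, 0 < x → (x ^ 2) ^ (-((s - 2) / 2)) = x ^ (2 - s) := by
    intro x hx
    rw [← Real.rpow_natCast x 2, ← Real.rpow_mul hx.le]
    congr 1
    push_cast
    ring
  have hb : 0 < u θ₀ ^ 2 := by positivity
  have hba : u θ₀ ^ 2 < u θ₁ ^ 2 := by nlinarith
  obtain ⟨ht, U, V, hU, U0, V0, hUper, hUeq, _⟩ := h s c (u θ₀ ^ 2) (u θ₁ ^ 2) hs hc hb hba
    (by rw [hpw _ p0, hpw _ p1]; linarith)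
  set τ := tau s (u θ₁ ^ 2 / u θ₀ ^ 2) with hτ
  rw [Real.sqrt_sq p0.le] at U0 hUeq
  obtain ⟨θ₂, h2⟩ := per_min (cont_u hU) (show 0 < 2 * τ by linarith) hUper
  have p2 := hU.pos θ₂
  have key : (fun θ => u (θ₀ + θ)) = U := by
    refine uniq (s := s) (c := c) (δ := min (u θ₀) (U θ₂)) (v := fun θ => v (θ₀ + θ)) (V := V)
      hs hc (lt_min p0 p2) ?_ ?_ hU ?_ ?_ ?_ ?_
    · intro θ
      exact (hS.du (θ₀ + θ)).comp_const_add θ₀ θ
    · intro θ
      exact (hS.dv (θ₀ + θ)).comp_const_add θ₀ θ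
    · intro θ
      exact (min_le_left _ _).trans (h0 _)
    · intro θ
      exact (min_le_right _ _).trans (h2 _)
    · simp only [add_zero]
      exact U0.symm
    · simp only [add_zero]
      rw [V0, v0]
  have hUP : U P = u θ₀ := by
    rw [← key]
    exact hper θ₀
  obtain ⟨m, hm⟩ := (hUeq P).1 hUP
  have hmpos : 0 < m := by
    by_contra hneg
    have : (m : ℝ) ≤ 0 := by exact_mod_cast not_lt.1 hneg
    have : 2 * (m : ℝ) * τ ≤ 0 := by nlinarith
    linarith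
  refine ⟨u θ₁ ^ 2 / u θ₀ ^ 2, m.toNat, ?_, by omega, ?_⟩
  · rw [lt_div_iff₀ hb]
    linarith
  · rw [← hτ]
    have : ((m.toNat : ℕ) : ℝ) = (m : ℝ) := by
      have h5 : ((m.toNat : ℕ) : ℤ) = m := Int.toNat_of_nonneg hmpos.le
      exact_mod_cast congrArg (fun z : ℤ => (z : ℝ)) h5
    rw [this]
    exact hm

end Pool.Agent.R963.CA
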