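import Pool.Agent.R963.CA.Stm

/-!
Pieces CA-1 and CA-4 (MP_1d3344_gt): the quadratic form, and curves of constant curvature.
-/

set_option autoImplicit false
set_option maxHeartbeats 400000

open scoped ContDiff Topology
open Set Filter MeasureTheory

namespace Pool.Agent.R963.CA

namespace QD

variable {γ : ℝ → ℝ × ℝ}

theorem cd_deriv {f : ℝ → ℝ} (hf : ContDiff ℝ ∞ f) : ContDiff ℝ ∞ (deriv f) := by
  have h : ContDiff ℝ (∞ + 1) f := by simpa using hf
  exact (contDiff_succ_iff_deriv.1 h).2.2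

theorem had {f : ℝ → ℝ} (hf : ContDiff ℝ ∞ f) (t : ℝ) : HasDerivAt f (deriv f t) t :=
  (hf.differentiable (by simp) t).hasDerivAt

theorem deriv_pair {x y : ℝ → ℝ} (hx : ContDiff ℝ ∞ x) (hy : ContDiff ℝ ∞ y)
    (hγ : ∀ t, γ t = (x t, y t)) (t : ℝ) : deriv γ t = (deriv x t, deriv y t) := by
  have h := (had hx t).prodMk (had hy t)
  have h2 : γ = fun t => (x t, y t) := funext hγ
  rw [h2]
  exact h.deriv

theorem basic {x y : ℝ → ℝ} (hx : ContDiff ℝ ∞ x) (hy : ContDiff ℝ ∞ y)
    (hγ : ∀ t, γ t = (x t, y t)) (hc : ∀ t, crs (γ t) (deriv γ t) = 1) :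
    (∀ t, pp γ t = deriv x t * deriv (deriv y) t - deriv y t * deriv (deriv x) t) ∧
    (∀ t, x t * deriv y t - y t * deriv x t = 1) ∧
    (∀ t, deriv (deriv x) t = -(pp γ t) * x t) ∧
    (∀ t, deriv (deriv y) t = -(pp γ t) * y t) := by
  have h1 := deriv_pair hx hy hγ
  have h2 := deriv_pair (γ := deriv γ) (cd_deriv hx) (cd_deriv hy) h1
  have hp : ∀ t, pp γ t = deriv x t * deriv (deriv y) t - deriv y t * deriv (deriv x) t := by
    intro t
    unfold pp crs
    rw [h1 t, h2 t]
  have hw : ∀ t, x t * deriv y t - y t * deriv x t = 1 := by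
    intro t
    have := hc t
    unfold crs at this
    rw [h1 t, hγ t] at this
    exact this
  have hw' : ∀ t, x t * deriv (deriv y) t - y t * deriv (deriv x) t = 0 := by
    intro t
    have e1 := ((had hx t).mul (had (cd_deriv hy) t)).sub ((had hy t).mul (had (cd_deriv hx) t))
    have e2 : HasDerivAt (fun s => x s * deriv y s - y s * deriv x s) 0 t := by
      have e3 : (fun s => x s * deriv y s - y s * deriv x s) = fun _ => (1 : ℝ) := funext hw
      rw [e3]
      exact hasDerivAt_const t (1 : ℝ)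
    have e4 := e1.unique e2
    linarith
  refine ⟨hp, hw, fun t => ?_, fun t => ?_⟩
  · rw [hp t]
    linear_combination (-(deriv (deriv x) t)) * hw t + deriv x t * hw' t
  · rw [hp t]
    linear_combination (-(deriv (deriv y) t)) * hw t + deriv y t * hw' t

theorem pp_smooth {x y : ℝ → ℝ} (hx : ContDiff ℝ ∞ x) (hy : ContDiff ℝ ∞ y)
    (hp : ∀ t, pp γ t = deriv x t * deriv (deriv y) t - deriv y t * deriv (deriv x) t) :
    ContDiff ℝ ∞ (pp γ) := by
  have e : pp γ = fun t => deriv x t * deriv (deriv y) t - deriv y t * deriv (deriv x) t :=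
    funext hp
  rw [e]
  exact ((cd_deriv hx).mul (cd_deriv (cd_deriv hy))).sub
    ((cd_deriv hy).mul (cd_deriv (cd_deriv hx)))

theorem const_of {f : ℝ → ℝ} (h : ∀ t, HasDerivAt f 0 t) (t : ℝ) : f t = f 0 :=
  is_const_of_deriv_eq_zero (fun t => (h t).differentiableAt) (fun t => (h t).deriv) t 0

end QD

open QD in
/-- CA-1 -/
theorem t_quad : S_quad := by
  intro γ F hγ hF hc hode
  set x : ℝ → ℝ := fun t => (γ t).1 with hxdef
  set y : ℝ → ℝ := fun t => (γ t).2 with hydef
  have hx : ContDiff ℝ ∞ x := contDiff_fst.comp hγ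
  have hy : ContDiff ℝ ∞ y := contDiff_snd.comp hγ
  obtain ⟨hp, hw, hxx, hyy⟩ := basic hx hy (fun t => rfl) hc
  have hps : ContDiff ℝ ∞ (pp γ) := pp_smooth hx hy hp
  have dx : ∀ t, HasDerivAt x (deriv x t) t := had hx
  have dy : ∀ t, HasDerivAt y (deriv y t) t := had hy
  have ddx : ∀ t, HasDerivAt (deriv x) (-(pp γ t) * x t) t := fun t => by
    have := had (cd_deriv hx) t
    rwa [hxx t] at this
  have ddy : ∀ t, HasDerivAt (deriv y) (-(pp γ t) * y t) t := fun t => by
    have := had (cd_deriv hy) t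
    rwa [hyy t] at this
  have d0 : ∀ t, HasDerivAt F (deriv F t) t := had hF
  have d1 : ∀ t, HasDerivAt (deriv F) (deriv (deriv F) t) t := had (cd_deriv hF)
  have d2 : ∀ t, HasDerivAt (deriv (deriv F)) (deriv (deriv (deriv F)) t) t :=
    had (cd_deriv (cd_deriv hF))
  have dp : ∀ t, HasDerivAt (pp γ) (deriv (pp γ) t) t := had hps
  -- G1 = F'/2, G2 = F''/2 + p F
  have g1 : ∀ t, HasDerivAt (fun s => deriv F s / 2)
      ((deriv (deriv F) t / 2 + pp γ t * F t) - pp γ t * F t) t := fun t => by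
    exact ((d1 t).div_const 2).congr_deriv (by ring)
  have g2 : ∀ t, HasDerivAt (fun s => deriv (deriv F) s / 2 + pp γ s * F s)
      (-2 * pp γ t * (deriv F t / 2)) t := fun t => by
    exact (((d2 t).div_const 2).add ((dp t).mul (d0 t))).congr_deriv (by
      linear_combination hode t)
  have d0' : ∀ t, HasDerivAt F (2 * (deriv F t / 2)) t := fun t => by
    exact (d0 t).congr_deriv (by ring)
  have cα : ∀ t, HasDerivAt (fun s => F s * deriv y s ^ 2 - 2 * (deriv F s / 2) * (y s * deriv y s)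
      + (deriv (deriv F) s / 2 + pp γ s * F s) * y s ^ 2) 0 t := fun t => by
    have := (((d0' t).mul ((ddy t).pow 2)).sub (((g1 t).const_mul 2).mul ((dy t).mul (ddy t)))).add
      ((g2 t).mul ((dy t).pow 2))
    refine this.congr_deriv ?_
    try simp only [Pi.mul_apply, Pi.pow_apply, Pi.add_apply]
    ring
  have cβ : ∀ t, HasDerivAt (fun s => -(F s * (deriv x s * deriv y s))
      + (deriv F s / 2) * (x s * deriv y s + y s * deriv x s)
      - (deriv (deriv F) s / 2 + pp γ s * F s) * (x s * y s)) 0 t := fun t => by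
    have := ((((d0' t).mul ((ddx t).mul (ddy t))).neg).add
      ((g1 t).mul (((dx t).mul (ddy t)).add ((dy t).mul (ddx t))))).sub
      ((g2 t).mul ((dx t).mul (dy t)))
    refine this.congr_deriv ?_
    try simp only [Pi.mul_apply, Pi.pow_apply, Pi.add_apply]
    ring
  have cδ : ∀ t, HasDerivAt (fun s => F s * deriv x s ^ 2 - 2 * (deriv F s / 2) * (x s * deriv x s)
      + (deriv (deriv F) s / 2 + pp γ s * F s) * x s ^ 2) 0 t := fun t => by
    have := (((d0' t).mul ((ddx t).pow 2)).sub (((g1 t).const_mul 2).mul ((dx t).mul (ddx t)))).add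
      ((g2 t).mul ((dx t).pow 2))
    refine this.congr_deriv ?_
    try simp only [Pi.mul_apply, Pi.pow_apply, Pi.add_apply]
    ring
  refine ⟨F 0 * deriv y 0 ^ 2 - 2 * (deriv F 0 / 2) * (y 0 * deriv y 0)
      + (deriv (deriv F) 0 / 2 + pp γ 0 * F 0) * y 0 ^ 2,
    -(F 0 * (deriv x 0 * deriv y 0))
      + (deriv F 0 / 2) * (x 0 * deriv y 0 + y 0 * deriv x 0)
      - (deriv (deriv F) 0 / 2 + pp γ 0 * F 0) * (x 0 * y 0),
    F 0 * deriv x 0 ^ 2 - 2 * (deriv F 0 / 2) * (x 0 * deriv x 0)
      + (deriv (deriv F) 0 / 2 + pp γ 0 * F 0) * x 0 ^ 2, fun t => ?_⟩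
  · have e1 := const_of cα t
    have e2 := const_of cβ t
    have e3 := const_of cδ t
    try simp only at e1 e2 e3
    rw [← e1, ← e2, ← e3]
    have hwt := hw t
    show F t = _ * x t ^ 2 + 2 * _ * (x t * y t) + _ * y t ^ 2
    have hsq : (x t * deriv y t - y t * deriv x t) ^ 2 = 1 := by rw [hwt]; norm_num
    linear_combination (-(F t)) * hsq

open QD in
/-- CA-4 -/
theorem t_triv : S_triv := by
  intro a T n γ hE hconst
  set x : ℝ → ℝ := fun t => (γ t).1 with hxdef
  set y : ℝ → ℝ := fun t => (γ t).2 with hydef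
  have hx : ContDiff ℝ ∞ x := contDiff_fst.comp hE.smooth
  have hy : ContDiff ℝ ∞ y := contDiff_snd.comp hE.smooth
  obtain ⟨hp, hw, hxx, hyy⟩ := basic hx hy (fun t => rfl) hE.ca
  have hps : ContDiff ℝ ∞ (pp γ) := pp_smooth hx hy hp
  have hpc : ∀ t, pp γ t = pp γ 0 := fun t =>
    is_const_of_deriv_eq_zero (hps.differentiable (by simp)) hconst t 0
  have hp0 : 0 < pp γ 0 := hE.p_pos 0
  set w0 := √(pp γ 0) with hw0
  have hw00 : 0 < w0 := Real.sqrt_pos.2 hp0
  have hw02 : w0 ^ 2 = pp γ 0 := Real.sq_sqrt hp0.le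
  have key : ∀ z : ℝ → ℝ, ContDiff ℝ ∞ z → (∀ t, deriv (deriv z) t = -(pp γ t) * z t) →
      ∀ t, z t = z 0 * Real.cos (w0 * t) + (deriv z 0 / w0) * Real.sin (w0 * t) := by
    intro z hz hzz t
    have dz : ∀ t, HasDerivAt z (deriv z t) t := had hz
    have ddz : ∀ t, HasDerivAt (deriv z) (-(w0 ^ 2) * z t) t := fun t => by
      have := had (cd_deriv hz) t
      rwa [hzz t, hpc t, ← hw02] at this
    have dc : ∀ t, HasDerivAt (fun s => Real.cos (w0 * s)) (-Real.sin (w0 * t) * w0) t := fun t => by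
      have h1 : HasDerivAt (fun s : ℝ => w0 * s) w0 t := by
        simpa using (hasDerivAt_id t).const_mul w0
      exact h1.cos
    have ds : ∀ t, HasDerivAt (fun s => Real.sin (w0 * s)) (Real.cos (w0 * t) * w0) t := fun t => by
      have h1 : HasDerivAt (fun s : ℝ => w0 * s) w0 t := by
        simpa using (hasDerivAt_id t).const_mul w0
      exact h1.sin
    have c1 : ∀ t, HasDerivAt (fun s => z s * Real.cos (w0 * s)
        - (deriv z s / w0) * Real.sin (w0 * s)) 0 t := fun t => by
      have := ((dz t).mul (dc t)).sub (((ddz t).div_const w0).mul (ds t))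
      refine this.congr_deriv ?_
      field_simp
      ring
    have c2 : ∀ t, HasDerivAt (fun s => z s * Real.sin (w0 * s)
        + (deriv z s / w0) * Real.cos (w0 * s)) 0 t := fun t => by
      have := ((dz t).mul (ds t)).add (((ddz t).div_const w0).mul (dc t))
      refine this.congr_deriv ?_
      field_simp
      ring
    have e1 := const_of c1 t
    have e2 := const_of c2 t
    simp only [mul_zero, Real.cos_zero, Real.sin_zero, mul_one, sub_zero, zero_add] at e1 e2
    have hcs := Real.sin_sq_add_cos_sq (w0 * t)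
    rw [← e1, ← e2]
    linear_combination (-(z t)) * hcs
  have kx := key x hx hxx
  have ky := key y hy hyy
  refine ⟨0, 0, x 0, deriv x 0 / w0, y 0, deriv y 0 / w0, ?_, ?_⟩
  · have h0 := hw 0
    have : x 0 * (deriv y 0 / w0) - deriv x 0 / w0 * y 0 = 1 / w0 := by
      field_simp
      linear_combination h0
    rw [this]
    positivity
  · ext v
    constructor
    · rintro ⟨t, rfl⟩
      refine ⟨w0 * t, ?_⟩
      have hg : γ t = (x t, y t) := rfl
      rw [hg, kx t, ky t]
      ext <;> simp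
    · rintro ⟨φ, rfl⟩
      refine ⟨φ / w0, ?_⟩
      have hg : γ (φ / w0) = (x (φ / w0), y (φ / w0)) := rfl
      rw [hg, kx (φ / w0), ky (φ / w0), mul_div_cancel₀ φ hw00.ne']
      ext <;> simp

end Pool.Agent.R963.CA
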