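import Pool.Agent.R963.CA.Stm

open scoped ContDiff Topology
open Set Filter MeasureTheory

namespace Pool.Agent.R963.CA

namespace Semi

/-- `w ↦ (M-w)^(-e) - (M+w)^(-e)` -/
noncomputable def kap (e M w : ℝ) : ℝ := (M - w) ^ (-e) - (M + w) ^ (-e)

theorem kap_deriv (e M w : ℝ) (h1 : 0 < M - w) (h2 : 0 < M + w) :
    HasDerivAt (kap e M) (e * ((M - w) ^ (-e - 1) + (M + w) ^ (-e - 1))) w := by
  have a1 : HasDerivAt (fun w : ℝ => M - w) (-1) w := by
    simpa using (hasDerivAt_id w).const_sub M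
  have a2 : HasDerivAt (fun w : ℝ => M + w) 1 w := by
    simpa using (hasDerivAt_id w).const_add M
  have b1 := a1.rpow_const (p := -e) (Or.inl h1.ne')
  have b2 := a2.rpow_const (p := -e) (Or.inl h2.ne')
  have b3 := b1.sub b2
  refine b3.congr_deriv ?_
  ring

theorem kap_deriv2 (e M w : ℝ) (h1 : 0 < M - w) (h2 : 0 < M + w) :
    HasDerivAt (fun w => e * ((M - w) ^ (-e - 1) + (M + w) ^ (-e - 1)))
      (e * (e + 1) * ((M - w) ^ (-e - 1 - 1) - (M + w) ^ (-e - 1 - 1))) w := by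
  have a1 : HasDerivAt (fun w : ℝ => M - w) (-1) w := by
    simpa using (hasDerivAt_id w).const_sub M
  have a2 : HasDerivAt (fun w : ℝ => M + w) 1 w := by
    simpa using (hasDerivAt_id w).const_add M
  have b1 := a1.rpow_const (p := -e - 1) (Or.inl h1.ne')
  have b2 := a2.rpow_const (p := -e - 1) (Or.inl h2.ne')
  have b3 := (b1.add b2).const_mul e
  refine b3.congr_deriv ?_
  ring

theorem kap_lt (e M h : ℝ) (he : 0 < e) (hh : 0 < h) (hM : h < M) (w : ℝ) (hw : 0 < w)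
    (hw2 : w < h) : kap e M w < w / h * kap e M h := by
  have hcont : ContinuousOn (kap e M) (Icc 0 h) := fun x hx =>
    (kap_deriv e M x (by linarith [hx.2]) (by linarith [hx.1])).continuousAt.continuousWithinAt
  have hsc : StrictConvexOn ℝ (Icc 0 h) (kap e M) := by
    refine StrictMonoOn.strictConvexOn_of_deriv (convex_Icc 0 h) hcont ?_
    rw [interior_Icc]
    have hmono : StrictMonoOn (fun w => e * ((M - w) ^ (-e - 1) + (M + w) ^ (-e - 1)))
        (Ioo 0 h) := by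
      refine strictMonoOn_of_deriv_pos (convex_Ioo 0 h) (fun x hx =>
        (kap_deriv2 e M x (by linarith [hx.2]) (by linarith [hx.1])).continuousAt.continuousWithinAt)
        ?_
      intro x hx
      rw [interior_Ioo] at hx
      have h1 : 0 < M - x := by linarith [hx.2]
      rw [(kap_deriv2 e M x h1 (by linarith [hx.1])).deriv]
      have h3 : (M + x) ^ (-e - 1 - 1) < (M - x) ^ (-e - 1 - 1) :=
        Real.rpow_lt_rpow_of_neg h1 (by linarith [hx.1]) (by linarith)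
      have h4 : 0 < (M - x) ^ (-e - 1 - 1) - (M + x) ^ (-e - 1 - 1) := by linarith
      positivity
    intro a ha b hb hab
    rw [(kap_deriv e M a (by linarith [ha.2]) (by linarith [ha.1])).deriv,
      (kap_deriv e M b (by linarith [hb.2]) (by linarith [hb.1])).deriv]
    exact hmono ha hb hab
  have h51 : (0 : ℝ) < 1 - w / h := by
    have : w / h < 1 := (div_lt_one hh).2 hw2
    linarith
  have h52 : (0 : ℝ) < w / h := by positivity
  have h5 := hsc.2 (left_mem_Icc.2 hh.le) (right_mem_Icc.2 hh.le) hh.ne h51 h52 (by ring)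
  have h6 : (1 - w / h) • (0 : ℝ) + (w / h) • h = w := by
    simp only [smul_eq_mul, mul_zero, zero_add]
    field_simp
  have h7 : kap e M 0 = 0 := by simp [kap]
  rw [h6, h7] at h5
  simpa using h5

/-- the difference of the two sides -/
noncomputable def Ph (e ρ t : ℝ) : ℝ :=
  1 + ρ ^ (1 - e) - (1 + t) ^ (1 - e) - (ρ - t) ^ (1 - e) -
    t * (ρ - 1 - t) / (ρ - 1) * ((e - 1) * (1 - ρ ^ (-e)))

theorem Ph_deriv (e ρ t : ℝ) (hρ : 1 < ρ) (h1 : 0 < 1 + t) (h2 : 0 < ρ - t) :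
    HasDerivAt (Ph e ρ) ((e - 1) * (kap e ((1 + ρ) / 2) ((ρ - 1) / 2 - t) -
      ((ρ - 1) / 2 - t) / ((ρ - 1) / 2) * kap e ((1 + ρ) / 2) ((ρ - 1) / 2))) t := by
  have a1 : HasDerivAt (fun t : ℝ => 1 + t) 1 t := by
    simpa using (hasDerivAt_id t).const_add 1
  have a2 : HasDerivAt (fun t : ℝ => ρ - t) (-1) t := by
    simpa using (hasDerivAt_id t).const_sub ρ
  have b1 := a1.rpow_const (p := 1 - e) (Or.inl h1.ne')
  have b2 := a2.rpow_const (p := 1 - e) (Or.inl h2.ne')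
  have a3 : HasDerivAt (fun t : ℝ => ρ - 1 - t) (-1) t := by
    simpa using (hasDerivAt_id t).const_sub (ρ - 1)
  have b3 := (((hasDerivAt_id t).mul a3).div_const (ρ - 1)).mul_const
    ((e - 1) * (1 - ρ ^ (-e)))
  have b4 := ((b1.const_sub (1 + ρ ^ (1 - e))).sub b2).sub b3
  refine b4.congr_deriv ?_
  have e1 : (1 + ρ) / 2 - ((ρ - 1) / 2 - t) = 1 + t := by ring
  have e2 : (1 + ρ) / 2 + ((ρ - 1) / 2 - t) = ρ - t := by ring
  have e3 : (1 + ρ) / 2 - (ρ - 1) / 2 = 1 := by ring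
  have e4 : (1 + ρ) / 2 + (ρ - 1) / 2 = ρ := by ring
  have e5 : (1 : ℝ) - e - 1 = -e := by ring
  have hρ1 : ρ - 1 ≠ 0 := by linarith
  unfold kap
  rw [e1, e2, e3, e4, e5, Real.one_rpow]
  simp only [id]
  field_simp
  ring

theorem Ph_neg_half (e ρ t : ℝ) (he : 1 < e) (hρ : 1 < ρ) (ht : 0 < t) (ht2 : t ≤ (ρ - 1) / 2) :
    Ph e ρ t < 0 := by
  have hh : 0 < (ρ - 1) / 2 := by linarith
  have hanti : StrictAntiOn (Ph e ρ) (Icc 0 ((ρ - 1) / 2)) := by
    refine strictAntiOn_of_deriv_neg (convex_Icc _ _) (fun x hx =>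
      (Ph_deriv e ρ x hρ (by linarith [hx.1])
        (by linarith [hx.2])).continuousAt.continuousWithinAt) ?_
    intro x hx
    rw [interior_Icc] at hx
    rw [(Ph_deriv e ρ x hρ (by linarith [hx.1]) (by linarith [hx.2])).deriv]
    have h1 := kap_lt e ((1 + ρ) / 2) ((ρ - 1) / 2) (by linarith) hh (by linarith)
      ((ρ - 1) / 2 - x) (by linarith [hx.2]) (by linarith [hx.1])
    exact mul_neg_of_pos_of_neg (by linarith) (by linarith)
  have h0 : Ph e ρ 0 = 0 := by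
    unfold Ph
    simp
  rw [← h0]
  exact hanti (left_mem_Icc.2 hh.le) ⟨ht.le, ht2⟩ ht

theorem Ph_symm (e ρ t : ℝ) : Ph e ρ (ρ - 1 - t) = Ph e ρ t := by
  unfold Ph
  have e1 : 1 + (ρ - 1 - t) = ρ - t := by ring
  have e2 : ρ - (ρ - 1 - t) = 1 + t := by ring
  have e3 : ρ - 1 - (ρ - 1 - t) = t := by ring
  rw [e1, e2, e3]
  ring

theorem Ph_neg (e ρ t : ℝ) (he : 1 < e) (hρ : 1 < ρ) (ht : 0 < t) (ht2 : t < ρ - 1) :
    Ph e ρ t < 0 := by
  rcases le_total t ((ρ - 1) / 2) with h | h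
  · exact Ph_neg_half e ρ t he hρ ht h
  · rw [← Ph_symm]
    exact Ph_neg_half e ρ _ he hρ (by linarith) (by linarith)

theorem pair_lt (e ρ ψ : ℝ) (he : 1 < e) (hρ : 1 < ρ) (h1 : 0 < ψ) (h2 : ψ < Real.pi) :
    (Rr e ρ (yy ρ ψ) - 1) + (Rr e ρ (yy ρ (Real.pi - ψ)) - 1) < e - 1 := by
  obtain ⟨q, hq⟩ : ∃ q, q = (ρ - 1) / 2 * (1 - Real.cos ψ) := ⟨_, rfl⟩
  have hc1 : Real.cos ψ < 1 := by
    have := Real.cos_lt_cos_of_nonneg_of_le_pi le_rfl h2.le h1
    rwa [Real.cos_zero] at this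
  have hc2 : -1 < Real.cos ψ := by
    have := Real.cos_lt_cos_of_nonneg_of_le_pi h1.le le_rfl h2
    rwa [Real.cos_pi] at this
  have hh : 0 < (ρ - 1) / 2 := by linarith
  have hq0 : 0 < q := by
    rw [hq]
    exact mul_pos hh (by linarith)
  have hp0 : 0 < ρ - 1 - q := by
    have : ρ - 1 - q = (ρ - 1) / 2 * (1 + Real.cos ψ) := by rw [hq]; ring
    rw [this]
    exact mul_pos hh (by linarith)
  have hy : yy ρ ψ = 1 + q := by
    unfold yy
    rw [hq]
    ring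
  have hy' : yy ρ (Real.pi - ψ) = ρ - q := by
    unfold yy
    rw [Real.cos_pi_sub, hq]
    ring
  have hneg := Ph_neg e ρ q he hρ hq0 (by linarith)
  have hρe : 0 < 1 - ρ ^ (-e) := by
    have : ρ ^ (-e) < 1 := Real.rpow_lt_one_of_one_lt_of_neg hρ (by linarith)
    linarith
  unfold Ph at hneg
  rw [hy, hy']
  unfold Rr
  obtain ⟨A, hA⟩ : ∃ A, A = (1 + q) ^ (1 - e) := ⟨_, rfl⟩
  obtain ⟨B, hB⟩ : ∃ B, B = (ρ - q) ^ (1 - e) := ⟨_, rfl⟩
  obtain ⟨F, hF⟩ : ∃ F, F = ρ ^ (1 - e) := ⟨_, rfl⟩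
  obtain ⟨D, hD⟩ : ∃ D, D = 1 - ρ ^ (-e) := ⟨_, rfl⟩
  rw [← hA, ← hB, ← hF, ← hD] at hneg ⊢
  rw [← hD] at hρe
  have e1 : ρ - (1 + q) = ρ - 1 - q := by ring
  have e2 : 1 + q - 1 = q := by ring
  have e3 : ρ - (ρ - q) = q := by ring
  have e4 : ρ - q - 1 = ρ - 1 - q := by ring
  rw [e1, e2, e3, e4]
  obtain ⟨p, hp⟩ : ∃ p, p = ρ - 1 - q := ⟨_, rfl⟩
  have hpq : ρ - 1 = p + q := by rw [hp]; ring
  rw [← hp] at hp0 hneg ⊢
  rw [hpq] at hneg
  have e5 : 1 + ((F - A) / p - (A - 1) / q) / D - 1 + (1 + ((F - B) / q - (B - 1) / p) / D - 1) =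
      (1 + F - A - B) * ((p + q) / (q * p)) / D := by
    field_simp
    ring
  rw [e5, div_lt_iff₀ hρe]
  have h8 : 0 < (p + q) / (q * p) := by positivity
  have h9 : 1 + F - A - B < q * p / (p + q) * ((e - 1) * D) := by linarith
  calc (1 + F - A - B) * ((p + q) / (q * p))
      < q * p / (p + q) * ((e - 1) * D) * ((p + q) / (q * p)) :=
        mul_lt_mul_of_pos_right h9 h8
    _ = (e - 1) * D := by
        field_simp

end Semi

open Semi in
theorem t_semi : S_semi := by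
  intro e ρ he hρ
  obtain ⟨g, hg⟩ : ∃ g : ℝ → ℝ, g = fun ψ => Rr e ρ (yy ρ ψ) - 1 := ⟨_, rfl⟩
  have hpi := Real.pi_pos
  have hgoal : (∫ ψ in (0 : ℝ)..Real.pi, (Rr e ρ (yy ρ ψ) - 1)) =
      ∫ ψ in (0 : ℝ)..Real.pi, g ψ := by rw [hg]
  rw [hgoal]
  by_cases hint : IntervalIntegrable g volume 0 Real.pi
  · have hint2 : IntervalIntegrable (fun ψ => g (Real.pi - ψ)) volume 0 Real.pi := by
      have := (hint.comp_sub_left Real.pi).symm
      simpa using this
    have hsub : ∫ ψ in (0 : ℝ)..Real.pi, g (Real.pi - ψ) = ∫ ψ in (0 : ℝ)..Real.pi, g ψ := by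
      rw [intervalIntegral.integral_comp_sub_left (fun x => g x) Real.pi]
      simp
    have hpos : 0 < ∫ ψ in (0 : ℝ)..Real.pi, ((e - 1) - (g ψ + g (Real.pi - ψ))) := by
      refine intervalIntegral.intervalIntegral_pos_of_pos_on
        ((intervalIntegrable_const).sub (hint.add hint2)) (fun ψ hψ => ?_) hpi
      have := pair_lt e ρ ψ he hρ hψ.1 hψ.2
      rw [hg]
      simp only
      linarith
    rw [intervalIntegral.integral_sub intervalIntegrable_const (hint.add hint2),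
      intervalIntegral.integral_add hint hint2, hsub, intervalIntegral.integral_const,
      smul_eq_mul] at hpos
    linarith
  · rw [intervalIntegral.integral_undef hint]
    have : 0 < e - 1 := by linarith
    positivity

end Pool.Agent.R963.CA
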