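import Mathlib

open scoped ContDiff Topology
open Set Filter MeasureTheory

namespace Pool.Agent.R963.CA

noncomputable section

/-- `[u,v] = det(u,v)` -/
def crs (u v : ℝ × ℝ) : ℝ := u.1 * v.2 - u.2 * v.1

/-- centroaffine curvature `p = [γ', γ'']` -/
def pp (γ : ℝ → ℝ × ℝ) (t : ℝ) : ℝ := crs (deriv γ t) (deriv (deriv γ) t)

/-- `F = p^(a-1)` -/
def FF (a : ℝ) (γ : ℝ → ℝ × ℝ) (t : ℝ) : ℝ := (pp γ t) ^ (a - 1)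

/-- `γ` is a `T`-periodic extremal curve of `B_a` in centroaffine parametrisation with `p > 0`
and rotation number `n` -/
structure Extr (a T : ℝ) (n : ℕ) (γ : ℝ → ℝ × ℝ) : Prop where
  smooth : ContDiff ℝ ∞ γ
  T_pos : 0 < T
  per : ∀ t, γ (t + T) = γ t
  ca : ∀ t, crs (γ t) (deriv γ t) = 1
  p_pos : ∀ t, 0 < pp γ t
  ext : ∀ t, (1 / 2) * deriv (deriv (deriv (FF a γ))) t + 2 * pp γ t * deriv (FF a γ) t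
    + deriv (pp γ) t * FF a γ t = 0
  rot : ∃ r θ : ℝ → ℝ, Continuous θ ∧ (∀ t, 0 < r t) ∧
    (∀ t, γ t = (r t * Real.cos (θ t), r t * Real.sin (θ t))) ∧ θ T - θ 0 = 2 * Real.pi * n

/-- ellipses: images of the unit circle under invertible affine maps -/
def IsEllipse (S : Set (ℝ × ℝ)) : Prop := ∃ x₀ y₀ a₁ a₂ b₁ b₂ : ℝ, a₁ * b₂ - a₂ * b₁ ≠ 0 ∧
  S = {v | ∃ φ : ℝ, v = (x₀ + a₁ * Real.cos φ + a₂ * Real.sin φ,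
    y₀ + b₁ * Real.cos φ + b₂ * Real.sin φ)}

/-- rotation numbers of the nontrivial extremal curves -/
def rotSet (a : ℝ) : Set ℕ := {n | ∃ T γ, Extr a T n γ ∧ ¬ IsEllipse (range γ)}

/-- solution of `u'' = -u + c u^(1-s)`, `u > 0` -/
structure Sol (s c : ℝ) (u v : ℝ → ℝ) : Prop where
  pos : ∀ θ, 0 < u θ
  du : ∀ θ, HasDerivAt u (v θ) θ
  dv : ∀ θ, HasDerivAt v (-u θ + c * (u θ) ^ (1 - s)) θ

/-- there is a nonconstant positive solution with period `P` -/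
def OscP (s P : ℝ) : Prop := ∃ (c : ℝ) (u v : ℝ → ℝ), 0 < c ∧ Sol s c u v ∧ (∃ θ, v θ ≠ 0) ∧
  ∀ θ, u (θ + P) = u θ

def yy (ρ ψ : ℝ) : ℝ := (1 + ρ) / 2 - (ρ - 1) / 2 * Real.cos ψ

def Rr (e ρ y : ℝ) : ℝ :=
  1 + ((ρ ^ (1 - e) - y ^ (1 - e)) / (ρ - y) - (y ^ (1 - e) - 1) / (y - 1)) / (1 - ρ ^ (-e))

/-- half period -/
def tau (s ρ : ℝ) : ℝ := (1 / 2) * ∫ ψ in (0 : ℝ)..Real.pi, 1 / √(Rr ((s - 2) / 2) ρ (yy ρ ψ))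

/-- the parameter `s = (4a-2)/(a-1)` -/
def ss (a : ℝ) : ℝ := (4 * a - 2) / (a - 1)

/-! ### Statements -/

/-- CA-1 quadratic form -/
def S_quad : Prop := ∀ (γ : ℝ → ℝ × ℝ) (F : ℝ → ℝ), ContDiff ℝ ∞ γ → ContDiff ℝ ∞ F →
  (∀ t, crs (γ t) (deriv γ t) = 1) →
  (∀ t, (1 / 2) * deriv (deriv (deriv F)) t + 2 * pp γ t * deriv F t + deriv (pp γ) t * F t = 0) →
  ∃ α β δ : ℝ, ∀ t, F t = α * (γ t).1 ^ 2 + 2 * β * ((γ t).1 * (γ t).2) + δ * (γ t).2 ^ 2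

/-- CA-2 normalisation: after a linear map of determinant one, `F = k |η|²` -/
def S_norm : Prop := ∀ (a T : ℝ) (n : ℕ) (γ : ℝ → ℝ × ℝ), Extr a T n γ →
  1 ≤ n ∧ ∃ (k : ℝ) (x y r φ : ℝ → ℝ), 0 < k ∧ ContDiff ℝ ∞ x ∧ ContDiff ℝ ∞ y ∧
    ContDiff ℝ ∞ r ∧ ContDiff ℝ ∞ φ ∧ (∀ t, 0 < r t) ∧
    (∀ t, x t = r t * Real.cos (φ t)) ∧ (∀ t, y t = r t * Real.sin (φ t)) ∧
    (∀ t, deriv φ t = 1 / r t ^ 2) ∧ (∀ t, FF a γ t = k * r t ^ 2) ∧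
    (∀ t, deriv (deriv r) t = 1 / r t ^ 3 - pp γ t * r t) ∧
    (∀ t, r (t + T) = r t) ∧ (∀ t, φ (t + T) = φ t + 2 * Real.pi * n)

/-- CA-3 extremal curve gives an oscillator -/
def S_geo1 : Prop := ∀ (a T : ℝ) (n : ℕ) (γ : ℝ → ℝ × ℝ), a ≠ 1 → Extr a T n γ →
  (∃ t, deriv (pp γ) t ≠ 0) → 1 ≤ n ∧ OscP (ss a) (2 * Real.pi * n)

/-- CA-4 constant curvature gives ellipses -/
def S_triv : Prop := ∀ (a T : ℝ) (n : ℕ) (γ : ℝ → ℝ × ℝ), Extr a T n γ →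
  (∀ t, deriv (pp γ) t = 0) → IsEllipse (range γ)

/-- CA-5 oscillator gives extremal curve -/
def S_geo2 : Prop := ∀ (a c : ℝ) (n : ℕ) (u v : ℝ → ℝ), a ≠ 1 → 0 < c → 1 ≤ n →
  Sol (ss a) c u v → (∀ θ, u (θ + 2 * Real.pi * n) = u θ) →
  ∃ T γ, Extr a T n γ ∧ range γ = range (fun θ => (Real.cos θ / u θ, Real.sin θ / u θ))

/-- CA-6 the image is not an ellipse -/
def S_ell : Prop := ∀ (s c : ℝ) (u v : ℝ → ℝ), 0 < c → s ≠ 1 → s ≠ 4 → Sol s c u v →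
  IsEllipse (range (fun θ => (Real.cos θ / u θ, Real.sin θ / u θ))) → ∀ θ, v θ = 0

/-- CA-7 construction of the solution by an angle variable -/
def S_con : Prop := ∀ (s c b a : ℝ), 2 < s → 0 < c → 0 < b → b < a →
  c / ((s - 2) / 2) * (b ^ (-((s - 2) / 2)) - a ^ (-((s - 2) / 2))) = a - b →
  0 < tau s (a / b) ∧ ∃ U V : ℝ → ℝ, Sol s c U V ∧ U 0 = √b ∧ V 0 = 0 ∧
    (∀ θ, U (θ + 2 * tau s (a / b)) = U θ) ∧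
    (∀ θ, U θ = √b ↔ ∃ m : ℤ, θ = 2 * m * tau s (a / b)) ∧ ∃ θ, V θ ≠ 0

/-- CA-8 periods of all solutions -/
def S_per : Prop := ∀ (s P : ℝ), 2 < s → 0 < P → OscP s P →
  ∃ (ρ : ℝ) (k : ℕ), 1 < ρ ∧ 1 ≤ k ∧ P = 2 * k * tau s ρ

/-- CA-9 -/
def S_osc : Prop := ∀ (s ρ : ℝ) (k : ℕ), 2 < s → 1 < ρ → 1 ≤ k → OscP s (2 * k * tau s ρ)

/-- CA-10 comparison with `π/2` -/
def S_b2 : Prop := ∀ (s ρ : ℝ), 1 < ρ → (4 < s → tau s ρ < Real.pi / 2) ∧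
  (2 < s → s < 4 → Real.pi / 2 < tau s ρ)

/-- CA-11a the semicircle inequality -/
def S_semi : Prop := ∀ (e ρ : ℝ), 1 < e → 1 < ρ →
  (∫ ψ in (0 : ℝ)..Real.pi, (Rr e ρ (yy ρ ψ) - 1)) < Real.pi * ((e - 1) / 2)

/-- CA-11b -/
def S_b1 : Prop := ∀ (s ρ : ℝ), 4 < s → 1 < ρ → Real.pi / √s < tau s ρ

/-- CA-12a `1/D` is concave -/
def S_conc : Prop := ∀ (c ρ : ℝ), 1 < c → c < 2 → 1 < ρ →
  ConcaveOn ℝ (Ioo 1 ρ) (fun w =>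
    (((ρ ^ c - w ^ c) / (ρ - w) - (w ^ c - 1) / (w - 1)) / (ρ - 1))⁻¹) ∧
  ∀ w ∈ Ioo 1 ρ, 0 < ((ρ ^ c - w ^ c) / (ρ - w) - (w ^ c - 1) / (w - 1)) / (ρ - 1)

/-- CA-12b -/
def S_b1' : Prop := ∀ (s ρ : ℝ), 2 < s → s < 4 → 1 < ρ → tau s ρ < Real.pi / √s

/-- CA-13 continuity and limits -/
def S_cont : Prop := ∀ s : ℝ, 2 < s → s ≠ 4 → ContinuousOn (tau s) (Ioi 1)
def S_lim1 : Prop := ∀ s : ℝ, 2 < s → s ≠ 4 → Tendsto (tau s) (𝓝[>] 1) (𝓝 (Real.pi / √s))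
def S_limi : Prop := ∀ s : ℝ, 2 < s → s ≠ 4 → Tendsto (tau s) atTop (𝓝 (Real.pi / 2))

/-- CA-14 duality -/
def S_dual : Prop := ∀ s P : ℝ, 0 < s → s ≠ 2 → 0 < P → OscP s P → OscP (4 / s) (s / 2 * P)

end

end Pool.Agent.R963.CA
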